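import Pool.Agent.V7H68.MS.Mass

/-!
Local entropy: if all small cells around the points of a set of positive outer measure are alive,
then the image of the set is large.
-/

namespace Pool.Agent.V7H68.MS

open Finset Real MeasureTheory SS Metric
open scoped ENNReal

set_option linter.unusedSectionVars false

variable {ι : Type} [Fintype ι] [DecidableEq ι]

open Classical in
theorem count_light {W X : Type} [Fintype W] [Nonempty W] (T : X → W → X)
    (lab : X → W → ι → ℤ) (alive : X → Prop) (n : ℕ) (x : X) {θ : ℝ} (hθ : 0 ≤ θ)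
    (z : Fin n → ι → ℤ) (K : ℕ) :
    ((Finset.univ.filter fun w : Fin n → W => alv T alive n x w ∧
      PP T lab alive n x (pth T lab n x w) < θ ∧
      ∀ j i, |pth T lab n x w j i - z j i| ≤ K).card : ℝ) ≤
      ((2 * K + 1) ^ Fintype.card ι) ^ n * ((Fintype.card W : ℝ) ^ n * θ) := by
  set Q : Finset (Fin n → ι → ℤ) := Fintype.piFinset (fun j => Fintype.piFinset fun i =>
    Finset.Icc (z j i - K) (z j i + K)) with hQ
  have hQc : (Q.card : ℝ) = ((2 * K + 1) ^ Fintype.card ι) ^ n := by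
    rw [hQ, Fintype.card_piFinset]
    push_cast
    have : ∀ j, (((Fintype.piFinset fun i =>
        Finset.Icc (z j i - K) (z j i + K)).card : ℕ) : ℝ) = (2 * K + 1) ^ Fintype.card ι :=
      fun j => card_box (z j) K
    rw [Finset.prod_congr rfl fun j _ => this j]
    simp
  have hsub : (Finset.univ.filter fun w : Fin n → W => alv T alive n x w ∧
      PP T lab alive n x (pth T lab n x w) < θ ∧ ∀ j i, |pth T lab n x w j i - z j i| ≤ K) ⊆
      Q.biUnion fun p => Finset.univ.filter fun w : Fin n → W =>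
        (alv T alive n x w ∧ pth T lab n x w = p) ∧ PP T lab alive n x p < θ := by
    intro w hw
    rw [Finset.mem_filter] at hw
    obtain ⟨-, hw1, hw2, hw3⟩ := hw
    rw [Finset.mem_biUnion]
    refine ⟨pth T lab n x w, ?_, ?_⟩
    · rw [hQ, Fintype.mem_piFinset]
      intro j
      rw [Fintype.mem_piFinset]
      intro i
      rw [Finset.mem_Icc]
      have := abs_le.1 (hw3 j i)
      constructor <;> linarith [this.1, this.2]
    · rw [Finset.mem_filter]
      exact ⟨Finset.mem_univ _, ⟨hw1, rfl⟩, hw2⟩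
  have h1 : ((Finset.univ.filter fun w : Fin n → W => alv T alive n x w ∧
      PP T lab alive n x (pth T lab n x w) < θ ∧
      ∀ j i, |pth T lab n x w j i - z j i| ≤ K).card : ℝ) ≤
      ∑ p ∈ Q, ((Finset.univ.filter fun w : Fin n → W =>
        (alv T alive n x w ∧ pth T lab n x w = p) ∧ PP T lab alive n x p < θ).card : ℝ) := by
    exact_mod_cast (Finset.card_le_card hsub).trans Finset.card_biUnion_le
  refine h1.trans ?_
  have hN : (0:ℝ) < Fintype.card W := by exact_mod_cast Fintype.card_pos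
  have h2 : ∀ p ∈ Q, ((Finset.univ.filter fun w : Fin n → W =>
        (alv T alive n x w ∧ pth T lab n x w = p) ∧ PP T lab alive n x p < θ).card : ℝ) ≤
      (Fintype.card W : ℝ) ^ n * θ := by
    intro p _
    by_cases hp : PP T lab alive n x p < θ
    · have h3 : (Finset.univ.filter fun w : Fin n → W =>
        (alv T alive n x w ∧ pth T lab n x w = p) ∧ PP T lab alive n x p < θ) =
        Finset.univ.filter fun w : Fin n → W => alv T alive n x w ∧ pth T lab n x w = p := by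
        refine Finset.filter_congr fun w _ => ?_
        simp [hp]
      rw [h3]
      have h4 : (((Finset.univ.filter fun w : Fin n → W => alv T alive n x w ∧
          pth T lab n x w = p).card : ℕ) : ℝ) = (Fintype.card W : ℝ) ^ n *
          PP T lab alive n x p := by
        rw [PP_eq, ← mul_assoc, mul_inv_cancel₀ (by positivity), one_mul]
      rw [h4]
      exact mul_le_mul_of_nonneg_left hp.le (by positivity)
    · have h3 : (Finset.univ.filter fun w : Fin n → W =>
        (alv T alive n x w ∧ pth T lab n x w = p) ∧ PP T lab alive n x p < θ) = ∅ :=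
        Finset.filter_false_of_mem fun w _ h => hp h.2
      rw [h3]
      simp only [Finset.card_empty, Nat.cast_zero]
      positivity
  refine (Finset.sum_le_sum h2).trans ?_
  rw [Finset.sum_const, nsmul_eq_mul, hQc]

/-- A cell in which the labels have large entropy and the function does not vary much. -/
def Alive (β : ℕ) (X : (ι → ℝ) → ι → ℝ) (h R : ℝ) (x : St ι) : Prop :=
  h ≤ HH (clab β X) x ∧ ∀ u ∈ cell β x, ‖X u - X (corner β x)‖ ≤ R / (β:ℝ) ^ x.1

theorem exists_cell {β : ℕ} (hβ : 0 < β) {Y : Set (ι → ℝ)} (hYc : Y ⊆ cube ι)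
    (hY : volume Y ≠ 0) (n0 : ℕ) : ∃ x : St ι, x.1 = n0 ∧ volume (Y ∩ cell β x) ≠ 0 := by
  by_contra hcon
  simp only [not_exists, not_and, not_not] at hcon
  apply hY
  have h1 : Y ⊆ ⋃ z : ι → ℕ, Y ∩ cell β (n0, z) := by
    intro u hu
    rw [Set.mem_iUnion]
    refine ⟨fun i => ⌊(β:ℝ) ^ n0 * u i⌋₊, hu, fun i => ?_⟩
    have h0 : 0 ≤ (β:ℝ) ^ n0 * u i := mul_nonneg (by positivity) (hYc hu i).1
    have h4 := Nat.floor_le h0
    have h5 := Nat.lt_floor_add_one ((β:ℝ) ^ n0 * u i)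
    constructor
    · simp only; linarith
    · simp only; linarith
  refine measure_mono_null h1 ?_
  rw [measure_iUnion_null_iff]
  exact fun z => hcon (n0, z) rfl

theorem vol_words {β : ℕ} (hβ : 0 < β) (x : St ι) {n : ℕ} (A : Finset (Fin n → ι → Fin β))
    {B : Set (ι → ℝ)} (hB : ∀ u ∈ B, ∃ w ∈ A, u ∈ cell β (stn β n x w)) {M : ℝ} (hM : 0 ≤ M)
    (hA : (A.card : ℝ) ≤ (Fintype.card (ι → Fin β) : ℝ) ^ n * M) :
    volume B ≤ ENNReal.ofReal M := by
  classical
  have hβ0 : (0:ℝ) < β := by exact_mod_cast hβ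
  have hβ1 : (1:ℝ) ≤ β := by exact_mod_cast hβ
  have hcard : (Fintype.card (ι → Fin β) : ℝ) = (β:ℝ) ^ Fintype.card ι := by
    rw [Fintype.card_pi]
    simp
  set N : ℝ := (β:ℝ) ^ Fintype.card ι with hN
  have hN0 : 0 < N := by positivity
  have hN1 : 1 ≤ N := one_le_pow₀ hβ1
  have h1 : B ⊆ ⋃ w ∈ A, cell β (stn β n x w) := by
    intro u hu
    obtain ⟨w, hw, hu⟩ := hB u hu
    exact Set.mem_biUnion hw hu
  refine (measure_mono h1).trans ((measure_biUnion_finset_le _ _).trans ?_)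
  have h2 : ∀ w ∈ A, volume (cell β (stn β n x w)) ≤ ENNReal.ofReal ((N ^ n)⁻¹) := by
    intro w _
    rw [vol_cell hβ, stn_fst]
    exact ENNReal.ofReal_le_ofReal (inv_anti₀ (by positivity)
      (pow_le_pow_right₀ hN1 (by omega)))
  refine (Finset.sum_le_sum h2).trans ?_
  rw [Finset.sum_const, nsmul_eq_mul, ← ENNReal.ofReal_natCast,
    ← ENNReal.ofReal_mul (by positivity)]
  refine ENNReal.ofReal_le_ofReal ?_
  rw [hcard] at hA
  calc (A.card : ℝ) * (N ^ n)⁻¹ ≤ (N ^ n * M) * (N ^ n)⁻¹ :=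
        mul_le_mul_of_nonneg_right hA (by positivity)
    _ = M := by field_simp

theorem frost {β : ℕ} (hβ : 2 ≤ β) {X : (ι → ℝ) → ι → ℝ}
    (hX : AEMeasurable X (volume.restrict (cube ι))) {h R : ℝ} {K : ℕ} (hK : R + 2 ≤ K)
    {σ σ' : ℝ} (hσ0 : 0 ≤ σ) (hσ : σ < σ')
    (hh : Fintype.card ι * log (2 * K + 1) + σ' * log β + 2 ≤ h) {Y : Set (ι → ℝ)}
    (hYc : Y ⊆ cube ι) (hY : volume Y ≠ 0) {n0 : ℕ}
    (hal : ∀ u ∈ Y, ∀ x : St ι, n0 ≤ x.1 → u ∈ cell β x → Alive β X h R x) :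
    μH[σ] (X '' Y) ≠ 0 := by
  classical
  have hβ' : 0 < β := by omega
  have hβ0 : (0:ℝ) < β := by exact_mod_cast hβ'
  have hβ1 : (1:ℝ) < β := by exact_mod_cast (by omega : 1 < β)
  have : Nonempty (ι → Fin β) := ⟨fun _ => ⟨0, hβ'⟩⟩
  obtain ⟨x0, hx0, hx1⟩ := exists_cell hβ' hYc hY n0
  obtain ⟨c, hc, hfew⟩ := few_heavy (W := ι → Fin β) (Λ := ι → ℤ) (ε := 1) one_pos
  set T := chd β (ι := ι) with hT
  set lab := clab β X with hlab
  set alive := Alive β X h R with halive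
  set θ : ℕ → ℝ := fun n => exp (- ((h - 2 * 1) * n)) with hθ
  set Bad : ℕ → Set (ι → ℝ) := fun n => {u | u ∈ Y ∩ cell β x0 ∧ ∃ w : Fin n → ι → Fin β,
    u ∈ cell β (stn β n x0 w) ∧ alv T alive n x0 w ∧
      θ n ≤ PP T lab alive n x0 (pth T lab n x0 w)} with hBad
  have hBadvol : ∀ n, volume (Bad n) ≤ ENNReal.ofReal (exp (- (c * n))) := by
    intro n
    refine vol_words hβ' x0 (Finset.univ.filter fun w : Fin n → ι → Fin β =>
      alv T alive n x0 w ∧ θ n ≤ PP T lab alive n x0 (pth T lab n x0 w)) ?_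
      (Real.exp_pos _).le (hfew h _ T lab alive (fun x hx => hx.1) n x0)
    rintro u ⟨-, w, hw1, hw2, hw3⟩
    exact ⟨w, Finset.mem_filter.2 ⟨Finset.mem_univ _, hw2, hw3⟩, hw1⟩
  have hsum : ∑' n, volume (Bad n) ≠ ⊤ := by
    refine ne_top_of_le_ne_top ?_ (ENNReal.tsum_le_tsum hBadvol)
    have hs : Summable fun n : ℕ => exp (- (c * n)) := by
      have h1 : (fun n : ℕ => exp (- (c * n))) = fun n : ℕ => (exp (-c)) ^ n := by
        funext n
        rw [← Real.exp_nat_mul]
        congr 1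
        ring
      rw [h1]
      exact summable_geometric_of_lt_one (Real.exp_pos _).le (by rw [Real.exp_lt_one_iff]; linarith)
    exact hs.tsum_ofReal_ne_top
  have hae := ae_eventually_notMem hsum
  -- a set on which the estimate is uniform
  obtain ⟨k, hk⟩ : ∃ k : ℕ, volume {u | u ∈ Y ∩ cell β x0 ∧ ∀ n, k ≤ n → u ∉ Bad n} ≠ 0 := by
    by_contra hcon
    simp only [not_exists, not_not] at hcon
    apply hx1
    have h1 : Y ∩ cell β x0 ⊆ (⋃ k : ℕ, {u | u ∈ Y ∩ cell β x0 ∧ ∀ n, k ≤ n → u ∉ Bad n}) ∪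
        {u | ¬ ∀ᶠ n in Filter.atTop, u ∉ Bad n} := by
      intro u hu
      by_cases hh : ∀ᶠ n in Filter.atTop, u ∉ Bad n
      · obtain ⟨k, hk⟩ := Filter.eventually_atTop.1 hh
        exact Or.inl (Set.mem_iUnion.2 ⟨k, hu, hk⟩)
      · exact Or.inr hh
    refine measure_mono_null h1 (measure_union_null ?_ hae)
    rw [measure_iUnion_null_iff]
    exact hcon
  set Y2 := {u | u ∈ Y ∩ cell β x0 ∧ ∀ n, k ≤ n → u ∉ Bad n} with hY2
  have hY2Y : Y2 ⊆ Y := fun u hu => hu.1.1
  have key : ∀ n : ℕ, n0 + k ≤ n → ∀ y : ι → ℝ,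
      volume {u | u ∈ Y2 ∧ ‖X u - y‖ ≤ ((β:ℝ) ^ n)⁻¹} ≤
      ENNReal.ofReal (((β:ℝ) ^ n0) ^ σ' * (((β:ℝ) ^ n)⁻¹) ^ σ') := by
    intro n hn y
    obtain ⟨p, rfl⟩ : ∃ p, n = n0 + p := ⟨n - n0, by omega⟩
    have hpk : k ≤ p := by omega
    have hcount := count_light T lab alive p x0 (Real.exp_pos (- ((h - 2 * 1) * p))).le
      (fun j => fl ((β:ℝ) ^ (x0.1 + j + 1) • y)) K
    have hM : ((2 * (K:ℝ) + 1) ^ Fintype.card ι) ^ p * θ p ≤
        ((β:ℝ) ^ n0) ^ σ' * (((β:ℝ) ^ (n0 + p))⁻¹) ^ σ' := by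
      have h1 : ((β:ℝ) ^ n0) ^ σ' * (((β:ℝ) ^ (n0 + p))⁻¹) ^ σ' = exp (- (σ' * log β) * p) := by
        rw [← Real.mul_rpow (by positivity) (by positivity)]
        have h2 : (β:ℝ) ^ n0 * ((β:ℝ) ^ (n0 + p))⁻¹ = ((β:ℝ) ^ p)⁻¹ := by
          rw [pow_add]
          field_simp
        rw [h2, Real.rpow_def_of_pos (by positivity), Real.log_inv, Real.log_pow]
        congr 1
        ring
      have h3 : ((2 * (K:ℝ) + 1) ^ Fintype.card ι) ^ p = exp (Fintype.card ι * log (2 * K + 1) *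
          p) := by
        rw [show (Fintype.card ι : ℝ) * log (2 * K + 1) * p =
          p * log ((2 * K + 1) ^ Fintype.card ι) by rw [Real.log_pow]; ring, Real.exp_nat_mul,
          Real.exp_log (by positivity)]
      rw [h1, h3, hθ]
      simp only
      rw [← Real.exp_add]
      refine Real.exp_le_exp.2 ?_
      have hp0 : (0:ℝ) ≤ p := Nat.cast_nonneg p
      nlinarith
    refine le_trans ?_ (ENNReal.ofReal_le_ofReal hM)
    refine vol_words hβ' x0 (Finset.univ.filter fun w : Fin p → ι → Fin β =>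
      alv T alive p x0 w ∧ PP T lab alive p x0 (pth T lab p x0 w) < θ p ∧
      ∀ j i, |pth T lab p x0 w j i - fl ((β:ℝ) ^ (x0.1 + j + 1) • y) i| ≤ K) ?_
      (by positivity) (by
        refine hcount.trans (le_of_eq ?_)
        ring)
    rintro u ⟨⟨⟨huY, hux⟩, hub⟩, huy⟩
    obtain ⟨w, hw⟩ := exists_stn hβ' p x0 hux
    have halv : alv T alive p x0 w := alv_of hβ' (hal u huY) p x0 w hx0.ge hw
    refine ⟨w, Finset.mem_filter.2 ⟨Finset.mem_univ _, halv, ?_, ?_⟩, hw⟩
    · by_contra hc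
      rw [not_lt] at hc
      exact hub p hpk ⟨⟨huY, hux⟩, w, hw, halv, hc⟩
    · exact pth_near hβ hK (fun x hx hu => (hal u huY x hx hu).2 u hu) p x0 w hx0.ge hw y
        (by rw [hx0]; exact huy)
  have h1 := mass_pos hβ hk hX (hY2Y.trans hYc) hσ0 hσ (by positivity) key
  intro h0
  apply h1
  exact measure_mono_null (Set.image_mono hY2Y) h0

end Pool.Agent.V7H68.MS
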