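import Pool.Agent.V7H68.MS.Fam
import Pool.Agent.V7H68.MS.Frost

/-!
Cells in which a function looks like a member of the class plus a linear map are alive.
-/

namespace Pool.Agent.V7H68.MS

open Finset Real MeasureTheory SS

set_option linter.unusedSectionVars false

variable {ι : Type} [Fintype ι] [DecidableEq ι]

theorem hf_perturb {W : Type} [Fintype W] [Nonempty W] (Y Y' : W → ι → ℝ) (θ0 : ι → ℝ)
    {E : ℝ} (h : ∀ w, ‖Y' w - (θ0 + Y w)‖ ≤ E) {K : ℕ} (hK : 2 * E + 2 ≤ K) :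
    hf (fun w => fl (Y' w)) ≤ hf (fun w => fl (Y w)) + Fintype.card ι * log (2 * K + 1) := by
  classical
  have h1 := sum_rel_le (fun w => fl (Y w)) (fun v w => fl (Y' v) = fl (Y' w))
    (fun v => Fintype.piFinset fun i => Finset.Icc (fl (Y v) i - K) (fl (Y v) i + K)) (by
      intro v w hvw
      rw [Fintype.mem_piFinset]
      intro i
      have hn : ‖Y' w - Y' v‖ ≤ 1 := by
        rw [pi_norm_le_iff_of_nonneg zero_le_one]
        intro i
        have h2 := congrFun hvw i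
        simp only [fl] at h2
        rw [Pi.sub_apply, Real.norm_eq_abs]
        exact (Int.abs_sub_lt_one_of_floor_eq_floor h2.symm).le
      have h3 : ‖Y w - Y v‖ ≤ 1 + 2 * E := by
        have e : Y w - Y v = (Y' w - Y' v) - (Y' w - (θ0 + Y w)) + (Y' v - (θ0 + Y v)) := by
          abel
        rw [e]
        refine (norm_add_le _ _).trans ?_
        have h4 := norm_sub_le (Y' w - Y' v) (Y' w - (θ0 + Y w))
        have h5 := h w
        have h6 := h v
        linarith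
      have h7 := abs_le.1 (fl_near (K := K) (x := Y w) (y := Y v) (by linarith) i)
      rw [Finset.mem_Icc]
      constructor <;> linarith [h7.1, h7.2])
    (M := (2 * K + 1) ^ Fintype.card ι) (fun v => (card_box _ K).le)
  have h2 := mean_log_le (fun w => fl (Y w))
    (g := fun w => ((cls (fun w => fl (Y' w)) w).card : ℝ)) (fun w => cls_pos _ w)
    (M := (2 * K + 1) ^ Fintype.card ι) (by positivity) h1
  rw [Real.log_pow] at h2
  exact h2

theorem HH_eq {W X Λ : Type} [Fintype W] [Nonempty W] [DecidableEq Λ] (lab : X → W → Λ) (x : X) :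
    HH lab x = log (Fintype.card W) - hf (lab x) := by
  rw [logN_sub_hf]
  rfl

theorem alive_of {b : ℕ} {C : Set ((ι → ℝ) → ι → ℝ)} (hb : 2 ≤ b) (hC : Fam b C) {R : ℝ}
    (hR : ∀ f ∈ C, ∀ u, ‖f u‖ ≤ R) {f : (ι → ℝ) → ι → ℝ} (hf : f ∈ C)
    {F : (ι → ℝ) → ι → ℝ} {M : (ι → ℝ) →L[ℝ] (ι → ℝ)} {t : ℝ} {q : ℕ} {h0 : ℝ}
    (hent : ∀ s ∈ C, h0 ≤ log (Fintype.card (ι → Fin (b ^ q))) -
      SS.hf (fun w : ι → Fin (b ^ q) =>
        fl (xf (b ^ q) s (M + t • ContinuousLinearMap.id ℝ (ι → ℝ)) (dv w))))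
    {x : St ι} (hx : ∀ i, x.2 i < (b ^ q) ^ x.1)
    (hF : ∀ u ∈ cell (b ^ q) x, ‖F u - F (corner (b ^ q) x) - M (u - corner (b ^ q) x)‖ ≤
      ((((b ^ q : ℕ) : ℝ)) ^ (x.1 + 1))⁻¹) :
    Alive (b ^ q) (fun u => f u + F u + t • u) (h0 - Fintype.card ι * log 9)
      (R + 1 + ‖M + t • ContinuousLinearMap.id ℝ (ι → ℝ)‖) x := by
  set β := b ^ q with hβ
  set L := M + t • ContinuousLinearMap.id ℝ (ι → ℝ) with hL
  have hβ' : 0 < β := by rw [hβ]; have : 0 < b := by omega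
                         positivity
  have hβ0 : (0:ℝ) < β := by exact_mod_cast hβ'
  have hβ1 : (1:ℝ) ≤ β := by exact_mod_cast hβ'
  have : NeZero β := ⟨hβ'.ne'⟩
  have hLap : ∀ y, L y = M y + t • y := fun y => by rw [hL]; simp
  set n := x.1 with hn
  set c := corner β x with hc
  set f' := zm (β ^ n) x.2 f with hf'
  have hf'C : f' ∈ C := by
    have e : β ^ n = b ^ (q * n) := by rw [hβ, pow_mul]
    rw [hf', e]
    refine hC.closed_pow (by omega) _ f hf _ ?_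
    rw [← e]
    exact hx
  have hβn : (0:ℝ) < (β:ℝ) ^ n := by positivity
  have hcz : c = (((β ^ n : ℕ)) : ℝ)⁻¹ • nv x.2 := by
    funext i
    simp only [hc, corner, Pi.smul_apply, nv, smul_eq_mul]
    push_cast
    rw [div_eq_inv_mul]
  -- increments inside the cell
  have hinc : ∀ u ∈ cell β x, ∀ v : ι → ℝ, v = (fun i => (β:ℝ) ^ n * u i - x.2 i) →
      (f u + F u + t • u) - (f c + F c + t • c) =
        ((β:ℝ) ^ n)⁻¹ • f' v + (F u - F c - M (u - c)) + ((β:ℝ) ^ n)⁻¹ • L v := by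
    intro u hu v hv
    have hvc : v ∈ cube ι := by rw [hv]; exact hu
    have h1 : f' v = (((β ^ n : ℕ)) : ℝ) • (f ((((β ^ n : ℕ)) : ℝ)⁻¹ • (nv x.2 + v)) -
        f ((((β ^ n : ℕ)) : ℝ)⁻¹ • nv x.2)) := zm_of_mem hvc
    have h2 : ((((β ^ n : ℕ)) : ℝ)⁻¹ • (nv x.2 + v)) = u := by
      rw [hv]
      funext i
      simp only [Pi.smul_apply, Pi.add_apply, nv, smul_eq_mul]
      push_cast
      field_simp
      ring
    have h3 : ((β:ℝ) ^ n)⁻¹ • v = u - c := by
      rw [hv, hcz]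
      funext i
      simp only [Pi.smul_apply, Pi.sub_apply, nv, smul_eq_mul]
      push_cast
      field_simp
    have h4 : ((β:ℝ) ^ n)⁻¹ • f' v = f u - f c := by
      rw [h1, h2, ← hcz, smul_smul]
      push_cast
      rw [inv_mul_cancel₀ hβn.ne', one_smul]
    have h5 : ((β:ℝ) ^ n)⁻¹ • L v = M (u - c) + t • (u - c) := by
      rw [← map_smul, h3, hLap]
    rw [h4, h5, smul_sub]
    abel
  have hcc : c ∈ cell β x := corner_mem hβ' x
  refine ⟨?_, ?_⟩
  · -- entropy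
    rw [HH_eq]
    have h1 := hent f' hf'C
    have h2 := hf_perturb (K := 4) (E := 1) (fun w : ι → Fin β => xf β f' L (dv w))
      (fun w => pos β (fun u => f u + F u + t • u) (chd β x w))
      ((β:ℝ) ^ (n + 1) • (f c + F c + t • c)) (fun w => ?_) (by norm_num)
    · have h3 : (2 * ((4:ℕ):ℝ) + 1) = 9 := by norm_num
      rw [h3] at h2
      have h4 : clab β (fun u => f u + F u + t • u) x =
        fun w => fl (pos β (fun u => f u + F u + t • u) (chd β x w)) := rfl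
      rw [h4]
      linarith
    · set c' := corner β (chd β x w) with hc'
      have hc'm : c' ∈ cell β x := cell_chd_sub hβ' x w (corner_mem hβ' _)
      have hv : (β:ℝ)⁻¹ • nv (dv w) = fun i => (β:ℝ) ^ n * c' i - x.2 i := by
        funext i
        simp only [hc', corner, chd, Pi.smul_apply, nv, dv, smul_eq_mul]
        push_cast
        rw [← hn, pow_succ]
        field_simp
        ring
      have h1 := hinc c' hc'm _ hv
      have h2 : pos β (fun u => f u + F u + t • u) (chd β x w) =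
          (β:ℝ) ^ (n + 1) • (f c' + F c' + t • c') := rfl
      have h3 : (β:ℝ) ^ (n + 1) • (f c' + F c' + t • c') =
          (β:ℝ) ^ (n + 1) • (f c + F c + t • c) + (β:ℝ) ^ (n + 1) •
          ((f c' + F c' + t • c') - (f c + F c + t • c)) := by
        rw [← smul_add]
        congr 1
        abel
      have h4 : (β:ℝ) ^ (n + 1) • (((β:ℝ) ^ n)⁻¹ • f' ((β:ℝ)⁻¹ • nv (dv w)) +
          (F c' - F c - M (c' - c)) + ((β:ℝ) ^ n)⁻¹ • L ((β:ℝ)⁻¹ • nv (dv w))) =
          xf β f' L (dv w) + (β:ℝ) ^ (n + 1) • (F c' - F c - M (c' - c)) := by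
        unfold xf
        rw [map_smul, smul_add, smul_add, smul_smul, smul_smul, smul_smul]
        have e1 : (β:ℝ) ^ (n + 1) * ((β:ℝ) ^ n)⁻¹ = β := by rw [pow_succ]; field_simp
        rw [e1, mul_inv_cancel₀ hβ0.ne', one_smul]
        abel
      rw [h2, h3, h1, h4]
      have h5 : (β:ℝ) ^ (n + 1) • (f c + F c + t • c) + (xf β f' L (dv w) +
          (β:ℝ) ^ (n + 1) • (F c' - F c - M (c' - c))) -
          ((β:ℝ) ^ (n + 1) • (f c + F c + t • c) + xf β f' L (dv w)) =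
          (β:ℝ) ^ (n + 1) • (F c' - F c - M (c' - c)) := by abel
      rw [h5, norm_smul, Real.norm_of_nonneg (by positivity)]
      have h6 := mul_le_mul_of_nonneg_left (hF c' hc'm)
        (show (0:ℝ) ≤ (β:ℝ) ^ (n + 1) by positivity)
      rwa [mul_inv_cancel₀ (by positivity)] at h6
  · intro u hu
    rw [hinc u hu _ rfl]
    have hvc : (fun i => (β:ℝ) ^ n * u i - x.2 i) ∈ cube ι := hu
    set v : ι → ℝ := fun i => (β:ℝ) ^ n * u i - x.2 i with hv
    have h1 := hR f' hf'C v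
    have h2 := hF u hu
    have h3 : ‖L v‖ ≤ ‖L‖ :=
      (L.le_opNorm v).trans (mul_le_of_le_one_right (norm_nonneg _) (norm_le_of_cube hvc))
    have h4 : (((β:ℝ)) ^ (n + 1))⁻¹ ≤ ((β:ℝ) ^ n)⁻¹ :=
      inv_anti₀ hβn (pow_le_pow_right₀ hβ1 (by omega))
    have h5 := norm_add_le (((β:ℝ) ^ n)⁻¹ • f' v + (F u - F c - M (u - c)))
      (((β:ℝ) ^ n)⁻¹ • L v)
    have h6 := norm_add_le (((β:ℝ) ^ n)⁻¹ • f' v) (F u - F c - M (u - c))
    rw [norm_smul, Real.norm_of_nonneg (show 0 ≤ ((β:ℝ) ^ n)⁻¹ by positivity)] at h5 h6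
    have h7 : ((β:ℝ) ^ n)⁻¹ * ‖f' v‖ ≤ ((β:ℝ) ^ n)⁻¹ * R :=
      mul_le_mul_of_nonneg_left h1 (by positivity)
    have h8 : ((β:ℝ) ^ n)⁻¹ * ‖L v‖ ≤ ((β:ℝ) ^ n)⁻¹ * ‖L‖ :=
      mul_le_mul_of_nonneg_left h3 (by positivity)
    have h9 : (R + 1 + ‖L‖) / (β:ℝ) ^ n = ((β:ℝ) ^ n)⁻¹ * R + ((β:ℝ) ^ n)⁻¹ +
        ((β:ℝ) ^ n)⁻¹ * ‖L‖ := by
      rw [div_eq_inv_mul]; ring
    rw [h9]
    linarith

end Pool.Agent.V7H68.MS
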