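import Pool.Agent.V7H68.MS.Mix
import Pool.Agent.V7H68.SS.Bridge

/-!
Differential entropy of a mixture of translates against the discrete entropy of the
integer parts.
-/

namespace Pool.Agent.V7H68.MS

open Finset Real MeasureTheory SS

set_option linter.unusedSectionVars false

variable {ι : Type*} [Fintype ι] {Ω : Type*} [Fintype Ω] [Nonempty Ω]

theorem fl_near {x y : ι → ℝ} {K : ℕ} (h : ‖x - y‖ + 1 ≤ K) (i : ι) : |fl x i - fl y i| ≤ K := by
  have h1 : |x i - y i| ≤ ‖x - y‖ := by
    have := norm_le_pi_norm (x - y) i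
    rwa [Real.norm_eq_abs] at this
  rw [abs_le] at h1 ⊢
  simp only [fl]
  have h7 := Int.floor_le (x i)
  have h8 := Int.lt_floor_add_one (x i)
  have h9 := Int.floor_le (y i)
  have h10 := Int.lt_floor_add_one (y i)
  constructor
  · have : (-(K:ℝ)) ≤ (⌊x i⌋ : ℝ) - ⌊y i⌋ := by linarith [h1.1]
    exact_mod_cast this
  · have : (⌊x i⌋ : ℝ) - ⌊y i⌋ ≤ K := by linarith [h1.2]
    exact_mod_cast this

theorem mixT_apply (p : Ω → (ι → ℝ) → ℝ) (Y : Ω → ι → ℝ) (u : ι → ℝ) :
    mixT p Y u = ∑ w, (Fintype.card Ω : ℝ)⁻¹ * p w (u - Y w) := rfl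

theorem card_box [DecidableEq ι] (z : ι → ℤ) (K : ℕ) :
    (((Fintype.piFinset fun i => Finset.Icc (z i - K) (z i + K)).card : ℕ) : ℝ) =
      (2 * K + 1) ^ Fintype.card ι := by
  rw [Fintype.card_piFinset]
  have : ∀ i, (Finset.Icc (z i - K) (z i + K)).card = 2 * K + 1 := by
    intro i
    rw [Int.card_Icc]
    have : z i + K + 1 - (z i - K) = ((2 * K + 1 : ℕ) : ℤ) := by push_cast; ring
    rw [this]; rfl
  simp only [this, Finset.prod_const, Finset.card_univ]
  push_cast
  rfl

theorem mix_lower_pt [DecidableEq ι] {p : Ω → (ι → ℝ) → ℝ} (hp : ∀ w, Dens (p w)) {R : ℝ}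
    (hR : ∀ w u, R < ‖u‖ → p w u = 0) {K : ℕ} (hK : R + 1 ≤ K) (Y : Ω → ι → ℝ) (u : ι → ℝ) :
    ∑ w, ((Fintype.card Ω : ℝ)⁻¹ * p w (u - Y w)) *
      (- log ((cls (fun w => fl (Y w)) w).card / Fintype.card Ω)) ≤
      negMulLog (mixT p Y u) + mixT p Y u * log ((2 * K + 1) ^ Fintype.card ι) := by
  have hN : (0:ℝ) < Fintype.card Ω := by exact_mod_cast Fintype.card_pos
  set N : ℝ := (Fintype.card Ω : ℝ) with hNdef
  set F : Ω → ι → ℤ := fun w => fl (Y w) with hF
  set x : Ω → ℝ := fun w => N⁻¹ * p w (u - Y w) with hx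
  set P := mixT p Y u with hP
  have hPx : P = ∑ w, x w := rfl
  have hx0 : ∀ w, 0 ≤ x w := fun w => mul_nonneg (by positivity) ((hp w).nonneg _)
  have hP0 : 0 ≤ P := by rw [hPx]; exact Finset.sum_nonneg fun w _ => hx0 w
  rcases hP0.eq_or_lt with h | h
  · have hxz : ∀ w, x w = 0 := fun w =>
      (Finset.sum_eq_zero_iff_of_nonneg (s := Finset.univ) (f := x) (fun w _ => hx0 w)).1
        (by rw [← hPx, ← h]) w (Finset.mem_univ w)
    have : ∑ w, x w * (- log ((cls F w).card / N)) = 0 :=
      Finset.sum_eq_zero fun w _ => by rw [hxz w, zero_mul]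
    rw [this, ← h]
    simp
  · set M : ℝ := (2 * K + 1) ^ Fintype.card ι with hM
    have hM0 : 0 < M := by positivity
    set S : Finset (ι → ℤ) := Fintype.piFinset (fun i => Finset.Icc (fl u i - K) (fl u i + K))
      with hS
    have hScard : (S.card : ℝ) ≤ M := by
      rw [hS, hM, card_box]
    have hmem : ∀ w, x w ≠ 0 → F w ∈ S := by
      intro w hw
      have h1 : p w (u - Y w) ≠ 0 := fun h0 => hw (by rw [hx]; simp [h0])
      have h2 : ‖Y w - u‖ ≤ R := by
        by_contra hc
        rw [not_le, norm_sub_rev] at hc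
        exact h1 (hR w _ hc)
      rw [hS, Fintype.mem_piFinset]
      intro i
      rw [Finset.mem_Icc]
      have h3 := abs_le.1 (fl_near (K := K) (show ‖Y w - u‖ + 1 ≤ K by linarith) i)
      have hFi : F w i = fl (Y w) i := rfl
      constructor <;> omega
    have hsum : ∑ w, x w / ((cls F w).card / N) ≤ M := by
      refine le_trans ?_ ((sum_inv_cls_le F S).trans hScard)
      refine Finset.sum_le_sum fun w _ => ?_
      by_cases hw : x w = 0
      · rw [hw, zero_div]
        split
        · positivity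
        · exact le_rfl
      · rw [if_pos (hmem w hw)]
        rw [hx]
        simp only
        have h1 : p w (u - Y w) ≤ 1 := (hp w).le_one _
        have h2 := cls_pos F w
        rw [div_div_eq_mul_div]
        have h3 : N⁻¹ * p w (u - Y w) * N = p w (u - Y w) := by field_simp
        rw [h3, div_eq_mul_inv]
        exact mul_le_of_le_one_left (by positivity) h1
    have key : ∀ w, x w * (log P - log ((cls F w).card / N) - log M) ≤
        (P / M) * (x w / ((cls F w).card / N)) - x w := by
      intro w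
      have ha : 0 < (cls F w).card / N := div_pos (cls_pos F w) hN
      have h1 := Real.log_le_sub_one_of_pos (show 0 < P / ((cls F w).card / N) / M by positivity)
      rw [Real.log_div (by positivity) hM0.ne', Real.log_div h.ne' ha.ne'] at h1
      have h2 := mul_le_mul_of_nonneg_left h1 (hx0 w)
      have h3 : x w * (P / ((cls F w).card / N) / M - 1) =
          (P / M) * (x w / ((cls F w).card / N)) - x w := by
        field_simp
      rw [h3] at h2
      exact h2
    have hs := Finset.sum_le_sum fun w (_ : w ∈ (Finset.univ : Finset Ω)) => key w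
    rw [Finset.sum_sub_distrib, ← Finset.mul_sum, ← hPx] at hs
    have h4 : (P / M) * ∑ w, x w / ((cls F w).card / N) ≤ P := by
      calc (P / M) * ∑ w, x w / ((cls F w).card / N) ≤ (P / M) * M :=
            mul_le_mul_of_nonneg_left hsum (by positivity)
        _ = P := by field_simp
    have h5 : ∑ w, x w * (log P - log ((cls F w).card / N) - log M) =
        P * log P + ∑ w, x w * (- log ((cls F w).card / N)) - P * log M := by
      have : ∀ w, x w * (log P - log ((cls F w).card / N) - log M) =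
          x w * log P + x w * (- log ((cls F w).card / N)) - x w * log M := fun w => by ring
      rw [Finset.sum_congr rfl fun w _ => this w, Finset.sum_sub_distrib,
        Finset.sum_add_distrib, ← Finset.sum_mul, ← Finset.sum_mul, ← hPx]
    rw [h5] at hs
    have h6 : negMulLog P = - (P * log P) := by unfold negMulLog; ring
    rw [h6]
    linarith

theorem mix_lower [DecidableEq ι] {p : Ω → (ι → ℝ) → ℝ} (hp : ∀ w, Dens (p w)) {R : ℝ}
    (hR : ∀ w u, R < ‖u‖ → p w u = 0) {K : ℕ} (hK : R + 1 ≤ K) (Y : Ω → ι → ℝ) :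
    log (Fintype.card Ω) - hf (fun w => fl (Y w)) ≤
      ent (mixT p Y) + Fintype.card ι * log (2 * K + 1) := by
  have hN : (0:ℝ) < Fintype.card Ω := by exact_mod_cast Fintype.card_pos
  have hd := mixT_dens hp Y
  rw [logN_sub_hf, ← Real.log_pow]
  have h1 : ∑ w, (Fintype.card Ω : ℝ)⁻¹ *
      (- log ((cls (fun w => fl (Y w)) w).card / Fintype.card Ω)) =
      ∫ u, ∑ w, ((Fintype.card Ω : ℝ)⁻¹ * p w (u - Y w)) *
      (- log ((cls (fun w => fl (Y w)) w).card / Fintype.card Ω)) := by
    rw [integral_finsetSum _ fun w _ =>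
      ((((hp w).cs.comp_sub (Y w)).const_mul _).integrable).mul_const _]
    refine Finset.sum_congr rfl fun w _ => ?_
    rw [integral_mul_const, integral_const_mul, integral_comp_sub, (hp w).mass, mul_one]
  have h2 : ent (mixT p Y) + log ((2 * K + 1) ^ Fintype.card ι) =
      ∫ u, (negMulLog (mixT p Y u) + mixT p Y u * log ((2 * K + 1) ^ Fintype.card ι)) := by
    rw [integral_add hd.cs.negMulLog.integrable (hd.cs.integrable.mul_const _),
      integral_mul_const, hd.mass, one_mul]
    rfl
  rw [h1, h2]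
  refine integral_mono ?_ ?_ fun u => mix_lower_pt hp hR hK Y u
  · exact integrable_finsetSum _ fun w _ =>
      ((((hp w).cs.comp_sub (Y w)).const_mul _).integrable).mul_const _
  · exact hd.cs.negMulLog.integrable.add (hd.cs.integrable.mul_const _)

theorem mix_upper_pt [DecidableEq ι] {p : Ω → (ι → ℝ) → ℝ} (hp : ∀ w, Dens (p w)) {R : ℝ}
    (hR : ∀ w u, R < ‖u‖ → p w u = 0) (Y : Ω → ι → ℝ) (u : ι → ℝ) :
    negMulLog (mixT p Y u) ≤
    ∑ w, ((Fintype.card Ω : ℝ)⁻¹ * p w (u - Y w)) *
      (- log ((cls (fun w => fl (Y w)) w).card / Fintype.card Ω)) +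
    ∑ w, (Fintype.card Ω : ℝ)⁻¹ *
      (Metric.closedBall (fun i => (fl (Y w) i : ℝ)) (R + 2)).indicator 1 u := by
  have hN : (0:ℝ) < Fintype.card Ω := by exact_mod_cast Fintype.card_pos
  set N : ℝ := (Fintype.card Ω : ℝ) with hNdef
  set F : Ω → ι → ℤ := fun w => fl (Y w) with hF
  set x : Ω → ℝ := fun w => N⁻¹ * p w (u - Y w) with hx
  set P := mixT p Y u with hP
  have hPx : P = ∑ w, x w := rfl
  have hx0 : ∀ w, 0 ≤ x w := fun w => mul_nonneg (by positivity) ((hp w).nonneg _)
  set pc : Ω → ℝ := fun w => ∑ v ∈ cls F w, x v with hpc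
  have hpc0 : ∀ w, 0 ≤ pc w := fun w => Finset.sum_nonneg fun v _ => hx0 v
  have hpcP : ∀ w, pc w ≤ P := fun w => by
    rw [hPx]
    exact Finset.sum_le_sum_of_subset_of_nonneg (Finset.subset_univ _) fun v _ _ => hx0 v
  have hxpc : ∀ w, x w ≤ pc w := fun w =>
    Finset.single_le_sum (f := x) (fun v _ => hx0 v) (mem_cls.2 rfl)
  have key : ∀ w, x w * (- log P) ≤ x w * (- log ((cls F w).card / N)) +
      x w * (((cls F w).card / N) / pc w) := by
    intro w
    rcases (hx0 w).eq_or_lt with h | h
    · rw [← h]; simp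
    · have hpcp : 0 < pc w := h.trans_le (hxpc w)
      have ha : 0 < (cls F w).card / N := div_pos (cls_pos F w) hN
      have h1 : log (pc w) ≤ log P := Real.log_le_log hpcp (hpcP w)
      have h2 := Real.log_le_sub_one_of_pos (div_pos ha hpcp)
      rw [Real.log_div ha.ne' hpcp.ne'] at h2
      rw [← mul_add]
      refine mul_le_mul_of_nonneg_left ?_ h.le
      linarith
  have hs := Finset.sum_le_sum fun w (_ : w ∈ (Finset.univ : Finset Ω)) => key w
  rw [← Finset.sum_mul, ← hPx, Finset.sum_add_distrib] at hs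
  have h6 : negMulLog P = P * (- log P) := by unfold negMulLog; ring
  rw [h6]
  refine hs.trans (add_le_add le_rfl ?_)
  rw [← sum_cls F]
  refine Finset.sum_le_sum fun w _ => ?_
  have h1 : ∑ v ∈ cls F w, ((cls F w).card : ℝ)⁻¹ * (x v * (((cls F v).card / N) / pc v)) =
      N⁻¹ * (pc w / pc w) := by
    have h2 : ∀ v ∈ cls F w, ((cls F w).card : ℝ)⁻¹ * (x v * (((cls F v).card / N) / pc v)) =
        x v * (N⁻¹ / pc w) := by
      intro v hv
      have h3 : cls F v = cls F w := cls_congr (mem_cls.1 hv)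
      have h4 : pc v = pc w := by rw [hpc]; simp only; rw [h3]
      rw [h3, h4]
      have := cls_pos F w
      field_simp
    rw [Finset.sum_congr rfl h2, ← Finset.sum_mul]
    change pc w * (N⁻¹ / pc w) = N⁻¹ * (pc w / pc w)
    ring
  rw [h1]
  refine mul_le_mul_of_nonneg_left ?_ (by positivity)
  by_cases h0 : pc w = 0
  · rw [h0, div_zero]
    exact Set.indicator_nonneg (fun _ _ => zero_le_one) _
  · rw [div_self h0]
    obtain ⟨v, hv, hv0⟩ := Finset.exists_ne_zero_of_sum_ne_zero h0
    have h2 : p v (u - Y v) ≠ 0 := fun h => hv0 (by rw [hx]; simp [h])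
    have h3 : ‖u - Y v‖ ≤ R := by
      by_contra hc
      exact h2 (hR v _ (not_le.1 hc))
    have h4 : F v = F w := mem_cls.1 hv
    have hR0 : 0 ≤ R := (norm_nonneg _).trans h3
    have h5 : u ∈ Metric.closedBall (fun i => (fl (Y w) i : ℝ)) (R + 2) := by
      rw [Metric.mem_closedBall, dist_pi_le_iff (by linarith)]
      intro i
      have h6 : |u i - Y v i| ≤ R := by
        have := norm_le_pi_norm (u - Y v) i
        rw [Real.norm_eq_abs, Pi.sub_apply] at this
        exact this.trans h3
      rw [abs_le] at h6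
      have h7 : fl (Y w) i = ⌊Y v i⌋ := by
        have := congrFun h4 i
        simp only [hF, fl] at this ⊢
        exact this.symm
      rw [h7, Real.dist_eq, abs_le]
      have h8 := Int.floor_le (Y v i)
      have h9 := Int.lt_floor_add_one (Y v i)
      constructor <;> linarith [h6.1, h6.2]
    rw [Set.indicator_of_mem h5]
    simp

theorem ball_cs' (x : ι → ℝ) (r : ℝ) :
    CS ((Metric.closedBall x r).indicator (1 : (ι → ℝ) → ℝ)) := by
  refine ⟨measurable_one.indicator Metric.isClosed_closedBall.measurableSet, ⟨1, fun u => ?_⟩,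
    ⟨‖x‖ + r, fun u hu => ?_⟩⟩
  · by_cases h : u ∈ Metric.closedBall x r <;> simp [h]
  · refine Set.indicator_of_notMem (fun h => ?_) _
    rw [mem_closedBall_iff_norm] at h
    have := norm_sub_norm_le u x
    linarith

theorem mix_upper [DecidableEq ι] {p : Ω → (ι → ℝ) → ℝ} (hp : ∀ w, Dens (p w)) {R : ℝ}
    (hR0 : 0 ≤ R) (hR : ∀ w u, R < ‖u‖ → p w u = 0) (Y : Ω → ι → ℝ) :
    ent (mixT p Y) ≤
    log (Fintype.card Ω) - hf (fun w => fl (Y w)) + (2 * (R + 2)) ^ Fintype.card ι := by
  have hN : (0:ℝ) < Fintype.card Ω := by exact_mod_cast Fintype.card_pos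
  have hd := mixT_dens hp Y
  rw [logN_sub_hf]
  have h1 : ∑ w, (Fintype.card Ω : ℝ)⁻¹ *
      (- log ((cls (fun w => fl (Y w)) w).card / Fintype.card Ω)) =
      ∫ u, ∑ w, ((Fintype.card Ω : ℝ)⁻¹ * p w (u - Y w)) *
      (- log ((cls (fun w => fl (Y w)) w).card / Fintype.card Ω)) := by
    rw [integral_finsetSum _ fun w _ =>
      ((((hp w).cs.comp_sub (Y w)).const_mul _).integrable).mul_const _]
    refine Finset.sum_congr rfl fun w _ => ?_
    rw [integral_mul_const, integral_const_mul, integral_comp_sub, (hp w).mass, mul_one]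
  have h2 : (2 * (R + 2)) ^ Fintype.card ι = ∫ u, ∑ w, (Fintype.card Ω : ℝ)⁻¹ *
      (Metric.closedBall (fun i => (fl (Y w) i : ℝ)) (R + 2)).indicator 1 u := by
    rw [integral_finsetSum _ fun w _ => ((ball_cs' _ _).const_mul _).integrable]
    have : ∀ w, ∫ u, (Fintype.card Ω : ℝ)⁻¹ *
        (Metric.closedBall (fun i => (fl (Y w) i : ℝ)) (R + 2)).indicator 1 u =
        (Fintype.card Ω : ℝ)⁻¹ * (2 * (R + 2)) ^ Fintype.card ι := by
      intro w
      rw [integral_const_mul, integral_indicator_one Metric.isClosed_closedBall.measurableSet,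
        Measure.real, Real.volume_pi_closedBall _ (by linarith), ENNReal.toReal_ofReal
        (by positivity)]
    rw [Finset.sum_congr rfl fun w _ => this w]
    exact (sum_inv_card _).symm
  rw [h1, h2, ← integral_add]
  · refine integral_mono hd.cs.negMulLog.integrable ?_ fun u => mix_upper_pt hp hR Y u
    refine Integrable.add ?_ ?_
    · exact integrable_finsetSum _ fun w _ =>
        ((((hp w).cs.comp_sub (Y w)).const_mul _).integrable).mul_const _
    · exact integrable_finsetSum _ fun w _ => ((ball_cs' _ _).const_mul _).integrable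
  · exact integrable_finsetSum _ fun w _ =>
      ((((hp w).cs.comp_sub (Y w)).const_mul _).integrable).mul_const _
  · exact integrable_finsetSum _ fun w _ => ((ball_cs' _ _).const_mul _).integrable

end Pool.Agent.V7H68.MS
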