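import Pool.Agent.V7H68.MS.Key
import Pool.Agent.V7H68.MS.Bridge
import Pool.Agent.V7H68.SS.Conc

/-!
Concentration at all small scales for Markov systems without invariant directions.
-/

namespace Pool.Agent.V7H68.MS

open Finset Real MeasureTheory SS

set_option linter.unusedSectionVars false

variable {b : ℕ} {D S : Type} [Fintype D] [Fintype S] [Nonempty D] [Nonempty S] {Θ : Type}
  [MeasurableSpace Θ] {ι : Type} [Fintype ι] (G : Sys b D S Θ ι)

/-- The cell of a word at scale `i`, with its final state. -/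
noncomputable def Sys.cell (s : S) (k i : ℕ) (w : Fin k → D) : (ι → ℤ) × S :=
  (fl ((b:ℝ) ^ i • XW b G.δ G.x k s w), run G.δ k s w)

theorem Sys.cell_sub (hb : 2 ≤ b) {s : S} {k i r : ℕ} {v w : Fin k → D}
    (h : G.cell s k i v = G.cell s k i w) (j : ι) :
    (b:ℤ) ^ r * (G.cell s k i v).1 j ≤ (G.cell s k (i + r) w).1 j ∧
      (G.cell s k (i + r) w).1 j < (b:ℤ) ^ r * (G.cell s k i v).1 j + (b:ℤ) ^ r := by
  have hb0 : (0:ℝ) < b := by exact_mod_cast (by omega : 0 < b)
  rw [h]
  set x := ((b:ℝ) ^ i • XW b G.δ G.x k s w) j with hx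
  have h1 : (G.cell s k i w).1 j = ⌊x⌋ := rfl
  have h2 : (G.cell s k (i + r) w).1 j = ⌊(b:ℝ) ^ r * x⌋ := by
    unfold Sys.cell fl
    simp only
    congr 1
    rw [hx]
    simp only [Pi.smul_apply, smul_eq_mul]
    rw [pow_add]
    ring
  have h3 : (0:ℝ) < (b:ℝ) ^ r := by positivity
  rw [h1, h2]
  constructor
  · rw [Int.le_floor]
    push_cast
    exact mul_le_mul_of_nonneg_left (Int.floor_le x) h3.le
  · rw [Int.floor_lt]
    push_cast
    nlinarith [Int.lt_floor_add_one x]

theorem Sys.sum_cls_ratio (hb : 2 ≤ b) [DecidableEq ι] [DecidableEq S] (s : S) (k i r : ℕ) :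
    ∑ w, ((cls (G.cell s k i) w).card : ℝ) / (cls (G.cell s k (i + r)) w).card ≤
      Fintype.card (Fin k → D) * ((b:ℝ) ^ r) ^ Fintype.card ι := by
  have h := sum_rel_le (G.cell s k (i + r)) (fun v w => G.cell s k i v = G.cell s k i w)
    (fun v => (Fintype.piFinset fun j => Finset.Ico ((b:ℤ) ^ r * (G.cell s k i v).1 j)
      ((b:ℤ) ^ r * (G.cell s k i v).1 j + (b:ℤ) ^ r)) ×ˢ {(G.cell s k i v).2})
    (fun v w hvw => by
      rw [Finset.mem_product, Fintype.mem_piFinset, Finset.mem_singleton]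
      refine ⟨fun j => ?_, ?_⟩
      · rw [Finset.mem_Ico]
        exact G.cell_sub hb hvw j
      · rw [hvw]
        rfl)
    (M := ((b:ℝ) ^ r) ^ Fintype.card ι) (fun v => by
      rw [Finset.card_product, Fintype.card_piFinset]
      have h1 : ((b:ℤ) ^ r).toNat = b ^ r := by
        rw [← Nat.cast_pow]
        exact Int.toNat_natCast _
      simp [h1])
  exact h

theorem Sys.hf_ge (hb : 2 ≤ b) [DecidableEq ι] [DecidableEq S] (s : S) (k i r : ℕ) :
    hf (G.cell s k i) - r * (Fintype.card ι * log b) ≤ hf (G.cell s k (i + r)) := by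
  have hb0 : (0:ℝ) < b := by exact_mod_cast (by omega : 0 < b)
  have h := mean_log_le (G.cell s k (i + r)) (g := fun w => ((cls (G.cell s k i) w).card : ℝ))
    (fun w => cls_pos _ w) (M := ((b:ℝ) ^ r) ^ Fintype.card ι) (by positivity)
    (G.sum_cls_ratio hb s k i r)
  have h1 : log (((b:ℝ) ^ r) ^ Fintype.card ι) = r * (Fintype.card ι * log b) := by
    rw [Real.log_pow, Real.log_pow]; ring
  rw [h1] at h
  have h2 : ∑ w, (Fintype.card (Fin k → D) : ℝ)⁻¹ * log ((cls (G.cell s k i) w).card : ℝ) =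
    hf (G.cell s k i) := rfl
  linarith

theorem Sys.conc_step (hb : 2 ≤ b) [DecidableEq ι] [DecidableEq S]
    (hne : ∀ y, y ≠ 0 → G.ns y ≠ 0)
    {η : ℝ} (hη : 0 < η) : ∃ r i0 : ℕ, 1 ≤ r ∧ ∀ (s : S) (k i : ℕ), i0 ≤ i →
      hf (G.cell s k i) - r * η ≤ hf (G.cell s k (i + r)) := by
  classical
  have hb0 : (0:ℝ) < b := by exact_mod_cast (by omega : 0 < b)
  have hb1 : (1:ℝ) < b := by exact_mod_cast (by omega : 1 < b)
  have hlb : 0 < log b := Real.log_pos hb1
  set m : ℝ := (Fintype.card ι : ℝ) with hm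
  have hm0 : 0 ≤ m := by positivity
  set c1 : ℝ := 2 * log 2 + m * log 3 with hc1
  obtain ⟨r, hr⟩ := exists_nat_ge (c1 * 2 / η + 1)
  have hr1 : c1 ≤ η / 2 * r := by
    have : c1 * 2 / η ≤ r := by linarith
    rw [div_le_iff₀ hη] at this
    linarith
  have hl2 : 0 < log 2 := Real.log_pos (by norm_num)
  have hl3 : 0 < log 3 := Real.log_pos (by norm_num)
  have hc10 : 0 ≤ c1 := by rw [hc1]; positivity
  have hr0 : 1 ≤ r := by
    have : (1:ℝ) ≤ r := by
      have : 0 ≤ c1 * 2 / η := by positivity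
      linarith
    exact_mod_cast this
  -- compactness
  obtain ⟨ε0, hε0, hmin⟩ : ∃ ε0 : ℝ, 0 < ε0 ∧ ∀ y : ι → ℝ, ‖y‖ ≤ 1 → ((b:ℝ) ^ r)⁻¹ ≤ ‖y‖ →
      ε0 ≤ G.ns y := by
    set Ks : Set (ι → ℝ) := Metric.closedBall 0 1 ∩ {y | ((b:ℝ) ^ r)⁻¹ ≤ ‖y‖} with hKs
    have hcomp : IsCompact Ks := (isCompact_closedBall (0 : ι → ℝ) 1).inter_right
      (isClosed_le continuous_const continuous_norm)
    rcases Ks.eq_empty_or_nonempty with he | hne'
    · refine ⟨1, one_pos, fun y h1 h2 => ?_⟩
      exfalso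
      have : y ∈ Ks := ⟨by simpa using h1, h2⟩
      rw [he] at this
      exact this
    · obtain ⟨y0, hy0, hy0m⟩ := hcomp.exists_isMinOn hne' (G.ns_cont hb).continuousOn
      have hy00 : y0 ≠ 0 := by
        rintro rfl
        have h1 : ((b:ℝ) ^ r)⁻¹ ≤ ‖(0 : ι → ℝ)‖ := hy0.2
        rw [norm_zero] at h1
        have : (0:ℝ) < ((b:ℝ) ^ r)⁻¹ := by positivity
        linarith
      refine ⟨G.ns y0, lt_of_le_of_ne (G.ns_nonneg y0) (Ne.symm (hne y0 hy00)),
        fun y h1 h2 => ?_⟩
      exact hy0m ⟨by simpa using h1, h2⟩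
  set δ : ℝ := η / (4 * (m * log b + 1)) with hδ
  have hδ0 : 0 < δ := by positivity
  have hδ1 : 2 * δ * (r * (m * log b)) ≤ η / 2 * r := by
    have h1 : δ * (4 * (m * log b + 1)) = η := by rw [hδ]; field_simp
    have h2 : 0 ≤ m * log b := by positivity
    have h3 : (0:ℝ) ≤ r := by positivity
    nlinarith [mul_nonneg h3 hδ0.le]
  obtain ⟨i0, hi0⟩ := G.key hb (show 0 < δ * ε0 by positivity)
  refine ⟨r, i0, hr0, fun s k i hi => ?_⟩
  set N : ℝ := (Fintype.card (Fin k → D) : ℝ) with hN
  have hNpos : 0 < N := by rw [hN]; exact_mod_cast Fintype.card_pos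
  set F := G.cell s k i with hF
  set F' := G.cell s k (i + r) with hF'
  set Y : (Fin k → D) → ι → ℝ := fun v => (b:ℝ) ^ i • XW b G.δ G.x k s v with hY
  have hcl : ∀ w w', F w = F w' → run G.δ k s w = run G.δ k s w' ∧
      ‖(b:ℝ) ^ i • (XW b G.δ G.x k s w - XW b G.δ G.x k s w')‖ ≤ 1 := by
    intro w w' h
    refine ⟨congrArg Prod.snd h, ?_⟩
    rw [smul_sub]
    exact norm_sub_le_of_fl (congrArg Prod.fst h)
  have hkey := hi0 k i hi s ((ι → ℤ) × S) F hcl
  -- rewrite the mean
  have hmean : ∑ v, N⁻¹ * ∑ v' ∈ cls F v, ((cls F v).card : ℝ)⁻¹ * G.ns (Y v - Y v') ≤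
      δ * ε0 := by
    refine le_trans (le_of_eq ?_) hkey
    rw [← Finset.mul_sum, ← Finset.mul_sum]
    congr 1
    rw [← sum_cls F]
    refine Finset.sum_congr rfl fun w _ => ?_
    unfold pairN
    refine Finset.sum_congr rfl fun v hv => ?_
    rw [cls_congr (mem_cls.1 hv)]
  set near : (Fin k → D) → (Fin k → D) → Prop := fun v w =>
    F v = F w ∧ ∀ j, |(F' w).1 j - (F' v).1 j| ≤ 1 with hnear
  set nr : (Fin k → D) → ℝ := fun w => ((Finset.univ.filter (fun v => near v w)).card : ℝ)
    with hnr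
  set far : (Fin k → D) → ℝ := fun w =>
    (((cls F w).filter (fun v => ¬ near v w)).card : ℝ) with hfar
  have hnf : ∀ w, nr w + far w = (cls F w).card := by
    intro w
    have h1 : Finset.univ.filter (fun v => near v w) = (cls F w).filter (fun v => near v w) := by
      ext v
      simp only [Finset.mem_filter, Finset.mem_univ, true_and, mem_cls, hnear]
      tauto
    rw [hnr, hfar]
    simp only
    rw [h1]
    exact_mod_cast Finset.card_filter_add_card_filter_not (s := cls F w) (fun v => near v w)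
  have hfarmean : ∑ w, N⁻¹ * (far w / (cls F w).card) ≤ δ := by
    have h1 : ∀ w, ε0 * (far w / (cls F w).card) ≤
        ∑ v' ∈ cls F w, ((cls F w).card : ℝ)⁻¹ * G.ns (Y w - Y v') := by
      intro w
      have h2 : ∑ v' ∈ (cls F w).filter (fun v => ¬ near v w),
          ((cls F w).card : ℝ)⁻¹ * ε0 ≤
          ∑ v' ∈ cls F w, ((cls F w).card : ℝ)⁻¹ * G.ns (Y w - Y v') := by
        refine le_trans (Finset.sum_le_sum fun v' hv' => ?_)
          (Finset.sum_le_sum_of_subset_of_nonneg (Finset.filter_subset (fun v => ¬ near v w) _)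
            fun v' _ _ => mul_nonneg (by positivity) (G.ns_nonneg _))
        refine mul_le_mul_of_nonneg_left ?_ (by positivity)
        rw [Finset.mem_filter, mem_cls] at hv'
        obtain ⟨hv1, hv2⟩ := hv'
        apply hmin
        · have := (hcl w v' hv1.symm).2
          rw [smul_sub] at this
          exact this
        · by_contra hlt
          rw [not_le] at hlt
          apply hv2
          refine ⟨hv1, fun j => ?_⟩
          refine fl_near_of_norm ?_ j
          have h3 : (b:ℝ) ^ (i + r) • XW b G.δ G.x k s w -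
              (b:ℝ) ^ (i + r) • XW b G.δ G.x k s v' = (b:ℝ) ^ r • (Y w - Y v') := by
            rw [hY]
            simp only
            rw [← smul_sub, ← smul_sub, smul_smul, pow_add]
            congr 1
            ring
          rw [h3, norm_smul, Real.norm_of_nonneg (by positivity)]
          have h4 : (b:ℝ) ^ r * ‖Y w - Y v'‖ ≤ (b:ℝ) ^ r * ((b:ℝ) ^ r)⁻¹ :=
            mul_le_mul_of_nonneg_left hlt.le (by positivity)
          rw [mul_inv_cancel₀ (by positivity)] at h4
          exact h4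
      rw [Finset.sum_const, nsmul_eq_mul] at h2
      refine le_trans (le_of_eq ?_) h2
      rw [hfar]
      ring
    have h3 : ε0 * ∑ w, N⁻¹ * (far w / (cls F w).card) ≤ δ * ε0 := by
      refine le_trans ?_ hmean
      rw [Finset.mul_sum]
      refine Finset.sum_le_sum fun w _ => ?_
      have := mul_le_mul_of_nonneg_left (h1 w) (show 0 ≤ N⁻¹ by positivity)
      linarith
    have h4 : ε0 * ∑ w, N⁻¹ * (far w / (cls F w).card) ≤ ε0 * δ := by linarith
    exact le_of_mul_le_mul_left h4 hε0
  set bad : (Fin k → D) → ℝ := fun w => if (cls F w).card < 2 * far w then 1 else 0 with hbad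
  have hbadmean : ∑ w, N⁻¹ * bad w ≤ 2 * δ := by
    have h1 : ∀ w, bad w ≤ 2 * (far w / (cls F w).card) := by
      intro w
      rw [hbad]
      simp only
      have h2 := cls_pos F w
      have h3 : 0 ≤ far w := by rw [hfar]; positivity
      split_ifs with h
      · rw [← mul_div_assoc, le_div_iff₀ h2]
        linarith
      · positivity
    refine (Finset.sum_le_sum fun w _ => mul_le_mul_of_nonneg_left (h1 w)
      (show 0 ≤ N⁻¹ by positivity)).trans ?_
    have h2 : ∑ w, N⁻¹ * (2 * (far w / (cls F w).card)) =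
        2 * ∑ w, N⁻¹ * (far w / (cls F w).card) := by
      rw [Finset.mul_sum]
      refine Finset.sum_congr rfl fun w _ => by ring
    rw [h2]
    linarith
  -- the reference weights
  set B : ℝ := ((b:ℝ) ^ r) ^ Fintype.card ι with hB
  have hB0 : 0 < B := by positivity
  have hlB : log B = r * (m * log b) := by rw [hB, Real.log_pow, Real.log_pow, hm]; ring
  set T : ℝ := 3 ^ Fintype.card ι with hT
  have hT0 : 0 < T := by positivity
  have hlT : log T = m * log 3 := by rw [hT, Real.log_pow]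
  set H : (Fin k → D) → ℝ := fun w => (1 / 2) * T⁻¹ * nr w + (1 / 2) * B⁻¹ * (cls F w).card
    with hH
  have hnr0 : ∀ w, 0 ≤ nr w := fun w => by rw [hnr]; positivity
  have hHpos : ∀ w, 0 < H w := fun w => by
    have h1 := cls_pos F w
    have h2 := hnr0 w
    rw [hH]
    positivity
  have hsum1 : ∑ w, nr w / (cls F' w).card ≤ N * T := by
    refine sum_rel_le F' near (fun v => (Fintype.piFinset fun j =>
      Finset.Icc ((F' v).1 j - 1) ((F' v).1 j + 1)) ×ˢ {(F' v).2}) (fun v w hvw => ?_)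
      (fun v => ?_)
    · rw [Finset.mem_product, Fintype.mem_piFinset, Finset.mem_singleton]
      refine ⟨fun j => ?_, ?_⟩
      · rw [Finset.mem_Icc]
        have := abs_le.1 (hvw.2 j)
        constructor <;> omega
      · have h1 : (F v).2 = (F w).2 := congrArg Prod.snd hvw.1
        exact h1.symm
    · rw [Finset.card_product, Fintype.card_piFinset]
      have : ∀ j, (Finset.Icc ((F' v).1 j - 1) ((F' v).1 j + 1)).card = 3 := by
        intro j
        rw [Int.card_Icc]
        have : (F' v).1 j + 1 + 1 - ((F' v).1 j - 1) = 3 := by ring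
        rw [this]; rfl
      simp [this, hT]
  have hsum2 : ∑ w, ((cls F w).card : ℝ) / (cls F' w).card ≤ N * B := G.sum_cls_ratio hb s k i r
  have hsumH : ∑ w, H w / (cls F' w).card ≤ N * 1 := by
    have h1 : ∀ w, H w / (cls F' w).card = (1 / 2) * T⁻¹ * (nr w / (cls F' w).card) +
        (1 / 2) * B⁻¹ * ((cls F w).card / (cls F' w).card) := by
      intro w
      rw [hH]
      ring
    rw [Finset.sum_congr rfl fun w _ => h1 w, Finset.sum_add_distrib, ← Finset.mul_sum,
      ← Finset.mul_sum]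
    have h2 := mul_le_mul_of_nonneg_left hsum1 (show 0 ≤ (1 / 2) * T⁻¹ by positivity)
    have h3 := mul_le_mul_of_nonneg_left hsum2 (show 0 ≤ (1 / 2) * B⁻¹ by positivity)
    have h4 : (1 / 2) * T⁻¹ * (N * T) = N / 2 := by field_simp
    have h5 : (1 / 2) * B⁻¹ * (N * B) = N / 2 := by field_simp
    linarith
  have hlog := mean_log_le F' hHpos one_pos hsumH
  rw [Real.log_one, add_zero] at hlog
  have hlogH : ∀ w, log ((cls F w).card) - c1 - bad w * (r * (m * log b)) ≤ log (H w) := by
    intro w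
    have h1 := cls_pos F w
    by_cases hbw : (cls F w).card < 2 * far w
    · have h2 : bad w = 1 := by rw [hbad]; simp [hbw]
      have h3 : (1 / 2) * B⁻¹ * (cls F w).card ≤ H w := by
        have h4 : 0 ≤ (1 / 2) * T⁻¹ * nr w := by have := hnr0 w; positivity
        show _ ≤ (1 / 2) * T⁻¹ * nr w + (1 / 2) * B⁻¹ * (cls F w).card
        linarith
      have h4 := Real.log_le_log (by positivity) h3
      rw [Real.log_mul (by positivity) h1.ne', Real.log_mul (by norm_num) (by positivity),
        Real.log_inv, hlB, one_div, Real.log_inv] at h4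
      rw [h2]
      have h5 : 0 ≤ m * log 3 := by positivity
      rw [hc1]
      linarith
    · have h2 : bad w = 0 := by rw [hbad]; simp [hbw]
      rw [not_lt] at hbw
      have h3 : (1 / 4) * T⁻¹ * (cls F w).card ≤ H w := by
        have h4 := hnf w
        have h5 : (1 / 2) * ((cls F w).card : ℝ) ≤ nr w := by linarith
        have h6 : (1 / 2) * T⁻¹ * ((1 / 2) * ((cls F w).card : ℝ)) ≤ (1 / 2) * T⁻¹ * nr w :=
          mul_le_mul_of_nonneg_left h5 (by positivity)
        have h7 : 0 ≤ (1 / 2) * B⁻¹ * ((cls F w).card : ℝ) := by positivity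
        show _ ≤ (1 / 2) * T⁻¹ * nr w + (1 / 2) * B⁻¹ * (cls F w).card
        linarith
      have h4 := Real.log_le_log (by positivity) h3
      have h5 : log (1 / 4 : ℝ) = - (2 * log 2) := by
        rw [one_div, Real.log_inv, show (4:ℝ) = 2 ^ 2 by norm_num, Real.log_pow]
        push_cast
        ring
      rw [Real.log_mul (by positivity) h1.ne', Real.log_mul (by norm_num) (by positivity),
        Real.log_inv, hlT, h5] at h4
      rw [h2, hc1]
      linarith
  have hfin := Finset.sum_le_sum fun w (_ : w ∈ (Finset.univ : Finset (Fin k → D))) =>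
    mul_le_mul_of_nonneg_left (hlogH w) (show 0 ≤ N⁻¹ by positivity)
  have hexp : ∑ w, N⁻¹ * (log ((cls F w).card) - c1 - bad w * (r * (m * log b))) =
      hf F - c1 - (∑ w, N⁻¹ * bad w) * (r * (m * log b)) := by
    have h1 : ∀ w, N⁻¹ * (log ((cls F w).card) - c1 - bad w * (r * (m * log b))) =
        N⁻¹ * log ((cls F w).card) - N⁻¹ * c1 - (N⁻¹ * bad w) * (r * (m * log b)) := fun w => by
      ring
    have h2 : ∑ w : Fin k → D, N⁻¹ * c1 = c1 := sum_inv_card c1
    rw [Finset.sum_congr rfl fun w _ => h1 w, Finset.sum_sub_distrib, Finset.sum_sub_distrib,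
      h2, Finset.sum_mul]
    rfl
  rw [hexp] at hfin
  have h9 : (∑ w, N⁻¹ * bad w) * (r * (m * log b)) ≤ 2 * δ * (r * (m * log b)) :=
    mul_le_mul_of_nonneg_right hbadmean (by positivity)
  have h10 : (r:ℝ) * η = η / 2 * r + η / 2 * r := by ring
  linarith

/-- The entropy of the integer parts of the words of length `k`. -/
theorem Sys.hf_upper (hb : 2 ≤ b) [DecidableEq ι] {η : ℝ} (hη : 0 < η) :
    ∃ C : ℝ, 0 ≤ C ∧ ∀ (k : ℕ) (s : S),
    log (Fintype.card (Fin k → D)) - hf (fun w : Fin k → D => fl (XW b G.δ G.x k s w)) ≤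
      k * (G.alpha + η) + C := by
  obtain ⟨C, hC0, hC⟩ := G.ent_upper (by omega) hη
  have hR := G.R0
  obtain ⟨K, hK⟩ := exists_nat_ge (1 + G.R + 1)
  refine ⟨C + Fintype.card ι * log (2 * K + 1), ?_, fun k s => ?_⟩
  · have : 0 ≤ log (2 * (K:ℝ) + 1) := Real.log_nonneg (by have : (0:ℝ) ≤ K := by positivity
                                                          linarith)
    positivity
  · have h1 := mix_lower (fun w : Fin k → D => G.P_dens (by omega) (run G.δ k s w) 0)
      (R := 1 + G.R) (fun w u hu => G.P_supp _ 0 (by omega) (by simpa using hu)) hK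
      (fun w => XW b G.δ G.x k s w)
    have h2 := G.P_words (by omega) 0 k s
    simp only [zpow_zero, one_smul, zero_add] at h2
    rw [← h2] at h1
    have h3 := hC k s
    linarith

theorem Sys.hf_cell_zero (hb : 2 ≤ b) [DecidableEq ι] [DecidableEq S] (s : S) (k : ℕ) :
    hf (fun w : Fin k → D => fl (XW b G.δ G.x k s w)) - log (Fintype.card S) ≤
      hf (G.cell s k 0) := by
  have hS : (0:ℝ) < Fintype.card S := by exact_mod_cast Fintype.card_pos
  have h := mean_log_le (G.cell s k 0)
    (g := fun w => ((cls (fun w : Fin k → D => fl (XW b G.δ G.x k s w)) w).card : ℝ))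
    (fun w => cls_pos _ w) (M := Fintype.card S) hS ?_
  · have h2 : ∑ w, (Fintype.card (Fin k → D) : ℝ)⁻¹ *
      log ((cls (fun w : Fin k → D => fl (XW b G.δ G.x k s w)) w).card : ℝ) =
      hf (fun w : Fin k → D => fl (XW b G.δ G.x k s w)) := rfl
    linarith
  · have h := sum_rel_le (G.cell s k 0) (fun v w : Fin k → D =>
      fl (XW b G.δ G.x k s v) = fl (XW b G.δ G.x k s w))
      (fun v => {fl (XW b G.δ G.x k s v)} ×ˢ (Finset.univ : Finset S))
      (fun v w hvw => by
        rw [Finset.mem_product, Finset.mem_singleton]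
        refine ⟨?_, Finset.mem_univ _⟩
        unfold Sys.cell
        simp only [pow_zero, one_smul]
        exact hvw.symm)
      (M := (Fintype.card S : ℝ)) (fun v => by
        rw [Finset.card_product]
        simp)
    exact h

/-- Concentration of the words at exponentially small scales. -/
theorem Sys.conc (hb : 2 ≤ b) (hne : ∀ y, y ≠ 0 → G.ns y ≠ 0) (A : ℕ)
    {η : ℝ} (hη : 0 < η) : ∃ k0 : ℕ, ∀ (k : ℕ) (s : S), k0 ≤ k → ∃ w0 : Fin k → D,
      (Fintype.card (Fin k → D) : ℝ) * exp (- ((G.alpha + η) * k)) ≤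
        (Nat.card {w : Fin k → D //
          ‖(b:ℝ) ^ (A * k) • (XW b G.δ G.x k s w - XW b G.δ G.x k s w0)‖ ≤ 1} : ℝ) := by
  classical
  have hb0 : (0:ℝ) < b := by exact_mod_cast (by omega : 0 < b)
  have hb1 : (1:ℝ) ≤ b := by exact_mod_cast (by omega : 1 ≤ b)
  have hlb : 0 ≤ log b := Real.log_nonneg hb1
  have hlS : 0 ≤ log (Fintype.card S : ℝ) := Real.log_nonneg (by exact_mod_cast Fintype.card_pos)
  set η' : ℝ := η / (4 * (A + 1)) with hη'
  have hη'0 : 0 < η' := by positivity
  obtain ⟨r, i0, hr, hstep⟩ := G.conc_step hb hne hη'0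
  obtain ⟨C, hC0, hC⟩ := G.hf_upper hb hη'0
  set C' : ℝ := C + log (Fintype.card S) + i0 * (Fintype.card ι * log b) + r * η' with hC'
  obtain ⟨k0, hk0⟩ := exists_nat_ge (C' * 2 / η)
  refine ⟨k0, fun k s hk => ?_⟩
  set N : ℝ := (Fintype.card (Fin k → D) : ℝ) with hN
  have hNpos : 0 < N := by rw [hN]; exact_mod_cast Fintype.card_pos
  set j := A * k / r + 1 with hj
  have hj1 : A * k ≤ i0 + j * r := by
    have h1 := Nat.div_add_mod (A * k) r
    have h2 := Nat.mod_lt (A * k) (show 0 < r by omega)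
    rw [hj]
    nlinarith
  have hj2 : (j:ℝ) * r ≤ A * k + r := by
    have h1 : A * k / r * r ≤ A * k := Nat.div_mul_le_self _ _
    have : j * r ≤ A * k + r := by rw [hj]; nlinarith
    exact_mod_cast this
  have hchain : ∀ n : ℕ, hf (G.cell s k i0) - n * (r * η') ≤ hf (G.cell s k (i0 + n * r)) := by
    intro n
    induction n with
    | zero => simp
    | succ n ih =>
      have h1 := hstep s k (i0 + n * r) (by omega)
      have h2 : i0 + n * r + r = i0 + (n + 1) * r := by ring
      rw [h2] at h1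
      push_cast
      linarith
  have h1 := hchain j
  have h2 := G.hf_ge hb s k 0 i0
  rw [Nat.zero_add] at h2
  have h3 := hC k s
  have h4 := G.hf_cell_zero hb s k
  obtain ⟨w0, hw0⟩ := exists_large_cls (G.cell s k (i0 + j * r))
  refine ⟨w0, ?_⟩
  have h5 : log N - (G.alpha + η) * k ≤ hf (G.cell s k (i0 + j * r)) := by
    have h6 : (j:ℝ) * (r * η') ≤ (A * k + r) * η' := by
      have := mul_le_mul_of_nonneg_right hj2 hη'0.le
      linarith
    have h7 : ((A:ℝ) + 1) * k * η' = η / 4 * k := by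
      rw [hη']
      field_simp
    have h8 : C' ≤ η / 2 * k := by
      have h9 : C' * 2 / η ≤ k := hk0.trans (by exact_mod_cast hk)
      rw [div_le_iff₀ hη] at h9
      linarith
    rw [hC'] at h8
    have h9 : (G.alpha + η) * k = k * G.alpha + η / 2 * k + η / 2 * k := by ring
    have h10 : (k:ℝ) * (G.alpha + η') = k * G.alpha + k * η' := by ring
    have h11 : 0 ≤ η * k := by positivity
    rw [h9]
    rw [h10] at h3
    linarith
  have h6 : N * exp (- ((G.alpha + η) * k)) ≤ exp (hf (G.cell s k (i0 + j * r))) := by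
    have h7 : N * exp (- ((G.alpha + η) * k)) = exp (log N - (G.alpha + η) * k) := by
      rw [sub_eq_add_neg, Real.exp_add, Real.exp_log hNpos]
    rw [h7]
    exact Real.exp_le_exp.2 h5
  refine h6.trans (hw0.trans ?_)
  rw [Nat.card_eq_fintype_card, Fintype.card_subtype]
  refine Nat.cast_le.2 ?_
  refine Finset.card_le_card fun w hw => ?_
  rw [Finset.mem_filter]
  refine ⟨Finset.mem_univ _, ?_⟩
  have h7 : G.cell s k (i0 + j * r) w = G.cell s k (i0 + j * r) w0 := mem_cls.1 hw
  have h8 := norm_sub_le_of_fl (congrArg Prod.fst h7)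
  rw [← smul_sub] at h8
  obtain ⟨g, hg⟩ := Nat.exists_eq_add_of_le hj1
  rw [hg, add_comm (A * k) g, pow_add, mul_smul, norm_smul, Real.norm_of_nonneg (by positivity)]
    at h8
  have h9 : (1:ℝ) ≤ (b:ℝ) ^ g := one_le_pow₀ hb1
  nlinarith [norm_nonneg ((b:ℝ) ^ (A * k) • (XW b G.δ G.x k s w - XW b G.δ G.x k s w0))]

end Pool.Agent.V7H68.MS
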