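import Pool.Agent.V7H68.MS.Sys

/-!
The entropy rate of a Markov system.
-/

namespace Pool.Agent.V7H68.MS

open Finset Real MeasureTheory SS

set_option linter.unusedSectionVars false

variable {b : ℕ} {D S : Type} [Fintype D] [Fintype S] [Nonempty D] [Nonempty S] {Θ : Type}
  [MeasurableSpace Θ] {ι : Type} [Fintype ι] (G : Sys b D S Θ ι)

theorem Sys.inc_words (hb : 0 < b) (s : S) (k : ℤ) (n : ℕ) :
    ∑ w : Fin n → D, (Fintype.card (Fin n → D) : ℝ)⁻¹ * inc b (G.P (run G.δ n s w) k) ≤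
      inc b (G.P s (k + n)) := by
  rw [G.P_words hb k n s]
  exact inc_mixT hb (fun w => G.P_dens hb _ _) _

/-- The smallest increment over the states. -/
noncomputable def Sys.amin (k : ℕ) : ℝ := ⨅ s : S, inc b (G.P s k)

theorem Sys.amin_le (k : ℕ) (s : S) : G.amin k ≤ inc b (G.P s k) :=
  ciInf_le (Set.finite_range _).bddBelow s

theorem Sys.step_lower (hb : 0 < b) (k : ℕ) (s s' : S) :
    (1 - (Fintype.card D : ℝ)⁻¹) * G.amin k + (Fintype.card D : ℝ)⁻¹ * inc b (G.P s k) ≤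
      inc b (G.P s' (k + 1 : ℕ)) := by
  classical
  obtain ⟨d0, hd0⟩ := G.irr s' s
  have hN : (0:ℝ) < Fintype.card D := by exact_mod_cast Fintype.card_pos
  have h1 : ((k + 1 : ℕ) : ℤ) = (k : ℤ) + 1 := by push_cast; ring
  rw [h1, G.P_succ hb]
  refine le_trans ?_ (inc_mixT hb (fun d => G.P_dens hb _ _) _)
  rw [← Finset.add_sum_erase _ _ (Finset.mem_univ d0), hd0, add_comm]
  refine add_le_add le_rfl ?_
  have h2 : ∀ d ∈ Finset.univ.erase d0, (Fintype.card D : ℝ)⁻¹ * G.amin k ≤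
      (Fintype.card D : ℝ)⁻¹ * inc b (G.P (G.δ s' d) k) := fun d _ =>
    mul_le_mul_of_nonneg_left (G.amin_le k _) (by positivity)
  refine le_trans (le_of_eq ?_) (Finset.sum_le_sum h2)
  rw [Finset.sum_const, Finset.card_erase_of_mem (Finset.mem_univ _), Finset.card_univ,
    nsmul_eq_mul, Nat.cast_sub (Fintype.card_pos)]
  field_simp
  push_cast
  ring

theorem Sys.amin_mono (hb : 0 < b) : Monotone G.amin := by
  refine monotone_nat_of_le_succ fun k => ?_
  refine le_ciInf fun s' => ?_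
  refine le_trans ?_ (G.step_lower hb k s' s')
  have hN : (1:ℝ) ≤ Fintype.card D := by exact_mod_cast Fintype.card_pos
  have h1 := G.amin_le k s'
  have h2 : (0:ℝ) ≤ (Fintype.card D : ℝ)⁻¹ := by positivity
  nlinarith

theorem Sys.inc_le (hb : 0 < b) (s : S) (k : ℤ) :
    inc b (G.P s k) ≤ Fintype.card ι * log b := inc_le_log hb (G.P_dens hb s k)

theorem Sys.amin_bdd (hb : 0 < b) : BddAbove (Set.range G.amin) := by
  refine ⟨Fintype.card ι * log b, ?_⟩
  rintro _ ⟨k, rfl⟩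
  exact (G.amin_le k (Classical.arbitrary S)).trans (G.inc_le hb _ _)

/-- The entropy rate. -/
noncomputable def Sys.alpha : ℝ := ⨆ k : ℕ, G.amin k

theorem Sys.amin_le_alpha (hb : 0 < b) (k : ℕ) : G.amin k ≤ G.alpha :=
  le_ciSup (G.amin_bdd hb) k

theorem Sys.alpha_nonneg (hb : 0 < b) : 0 ≤ G.alpha :=
  (le_ciInf fun s => inc_nonneg hb (G.P_dens hb s 0)).trans (G.amin_le_alpha hb 0)

theorem Sys.alpha_le (hb : 0 < b) : G.alpha ≤ Fintype.card ι * log b :=
  ciSup_le fun k => (G.amin_le k (Classical.arbitrary S)).trans (G.inc_le hb _ _)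

theorem Sys.inc_ge (hb : 0 < b) {η : ℝ} (hη : 0 < η) : ∃ k0 : ℕ, ∀ (k : ℤ) (s : S),
    (k0 : ℤ) ≤ k → G.alpha - η ≤ inc b (G.P s k) := by
  obtain ⟨k0, hk0⟩ := exists_lt_of_lt_ciSup (show G.alpha - η < G.alpha by linarith)
  refine ⟨k0, fun k s hk => ?_⟩
  obtain ⟨n, rfl⟩ := Int.eq_ofNat_of_zero_le (show 0 ≤ k by omega)
  exact hk0.le.trans ((G.amin_mono hb (by omega : k0 ≤ n)).trans (G.amin_le n s))

theorem Sys.inc_le_alpha (hb : 0 < b) {η : ℝ} (hη : 0 < η) : ∃ k0 : ℕ, ∀ (k : ℤ) (s : S),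
    (k0 : ℤ) ≤ k → inc b (G.P s k) ≤ G.alpha + η := by
  have hN : (0:ℝ) < Fintype.card D := by exact_mod_cast Fintype.card_pos
  obtain ⟨k0, hk0⟩ := exists_lt_of_lt_ciSup
    (show G.alpha - η * (Fintype.card D : ℝ)⁻¹ < G.alpha by
      have : 0 < η * (Fintype.card D : ℝ)⁻¹ := by positivity
      linarith)
  refine ⟨k0, fun k s hk => ?_⟩
  obtain ⟨n, rfl⟩ := Int.eq_ofNat_of_zero_le (show 0 ≤ k by omega)
  have h1 := (G.amin_mono hb (by omega : k0 ≤ n))
  have h2 := G.amin_le_alpha hb (n + 1)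
  have h3 : (1 - (Fintype.card D : ℝ)⁻¹) * G.amin n +
      (Fintype.card D : ℝ)⁻¹ * inc b (G.P s n) ≤ G.amin (n + 1) :=
    le_ciInf fun s' => G.step_lower hb n s s'
  have h4 : (Fintype.card D : ℝ)⁻¹ * (inc b (G.P s n) - G.amin n) ≤
      η * (Fintype.card D : ℝ)⁻¹ := by linarith
  have h5 : inc b (G.P s n) - G.amin n ≤ η := by
    rw [mul_comm] at h4
    exact le_of_mul_le_mul_right h4 (by positivity)
  have h6 := G.amin_le_alpha hb n
  exact (by linarith : inc b (G.P s n) ≤ G.alpha + η)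

theorem Sys.ent_shift (hb : 0 < b) (s : S) (k : ℤ) :
    ent (G.P s k) = ent (G.P s (k - 1)) + inc b (G.P s k) := by
  unfold inc
  rw [G.coarse_P hb]
  ring

theorem Sys.ent_shifts (hb : 0 < b) (s : S) (k : ℤ) (r : ℕ) :
    ent (G.P s k) = ent (G.P s (k - r)) + ∑ i ∈ Finset.range r, inc b (G.P s (k - i)) := by
  induction r with
  | zero => simp
  | succ r ih =>
    rw [ih, Finset.sum_range_succ, G.ent_shift hb s (k - r)]
    have : k - (r:ℤ) - 1 = k - ((r + 1 : ℕ) : ℤ) := by push_cast; ring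
    rw [this]
    ring

/-- A bound for the entropy at scale one. -/
noncomputable def Sys.C0 : ℝ := volume.real (Metric.closedBall (0 : ι → ℝ) (1 + G.R))

theorem Sys.C0_nonneg : 0 ≤ G.C0 := measureReal_nonneg

theorem Sys.ent_zero (hb : 0 < b) (s : S) : ent (G.P s 0) ≤ G.C0 := by
  refine ent_le_vol (G.P_dens hb s 0) fun u hu => G.P_supp s 0 hb ?_
  simpa using hu

theorem Sys.ent_upper (hb : 0 < b) {η : ℝ} (hη : 0 < η) : ∃ C : ℝ, 0 ≤ C ∧ ∀ (k : ℕ) (s : S),
    ent (G.P s k) ≤ k * (G.alpha + η) + C := by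
  obtain ⟨k0, hk0⟩ := G.inc_le_alpha hb hη
  have ha := G.alpha_nonneg hb
  have hb1 : (1:ℝ) ≤ b := by exact_mod_cast hb
  have hlb : 0 ≤ log b := Real.log_nonneg hb1
  refine ⟨G.C0 + k0 * (Fintype.card ι * log b), by have := G.C0_nonneg; positivity,
    fun k s => ?_⟩
  rw [G.ent_shifts hb s k k, sub_self]
  have h1 := G.ent_zero hb s
  have h2 : ∀ i ∈ Finset.range k, inc b (G.P s (k - i)) ≤
      (G.alpha + η) + (if k < i + k0 then (Fintype.card ι * log b) else 0) := by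
    intro i hi
    rw [Finset.mem_range] at hi
    split_ifs with h3
    · have := G.inc_le hb s (k - i)
      linarith
    · have := hk0 (k - i) s (by omega)
      linarith
  have h3 := Finset.sum_le_sum h2
  rw [Finset.sum_add_distrib, ← Finset.sum_filter] at h3
  simp only [Finset.sum_const, nsmul_eq_mul, Finset.card_range] at h3
  have h5 : ((Finset.filter (fun i => k < i + k0) (Finset.range k)).card : ℝ) ≤ k0 := by
    have : (Finset.filter (fun i => k < i + k0) (Finset.range k)).card ≤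
        (Finset.Ico (k - k0) k).card := by
      refine Finset.card_le_card fun i hi => ?_
      simp at hi ⊢
      omega
    rw [Nat.card_Ico] at this
    have h6 : k - (k - k0) ≤ k0 := by omega
    exact_mod_cast this.trans h6
  have h6 := mul_le_mul_of_nonneg_right h5 (show 0 ≤ (Fintype.card ι : ℝ) * log b by positivity)
  linarith

theorem Sys.ent_lower (hb : 0 < b) {η : ℝ} (hη : 0 < η) : ∃ C : ℝ, 0 ≤ C ∧ ∀ (k : ℕ) (s : S),
    k * (G.alpha - η) - C ≤ ent (G.P s k) := by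
  obtain ⟨k0, hk0⟩ := G.inc_ge hb hη
  have ha := G.alpha_nonneg hb
  refine ⟨k0 * G.alpha, by positivity, fun k s => ?_⟩
  rw [G.ent_shifts hb s k k, sub_self]
  have h1 := (G.P_dens hb s 0).ent_nonneg
  have h2 : ∀ i ∈ Finset.range k, (G.alpha - η) - (if k < i + k0 then G.alpha else 0) ≤
      inc b (G.P s (k - i)) := by
    intro i hi
    rw [Finset.mem_range] at hi
    split_ifs with h3
    · have := inc_nonneg hb (G.P_dens hb s (k - i))
      linarith
    · have := hk0 (k - i) s (by omega)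
      linarith
  have h3 := Finset.sum_le_sum h2
  rw [Finset.sum_sub_distrib, ← Finset.sum_filter] at h3
  simp only [Finset.sum_const, nsmul_eq_mul, Finset.card_range] at h3
  have h5 : ((Finset.filter (fun i => k < i + k0) (Finset.range k)).card : ℝ) ≤ k0 := by
    have : (Finset.filter (fun i => k < i + k0) (Finset.range k)).card ≤
        (Finset.Ico (k - k0) k).card := by
      refine Finset.card_le_card fun i hi => ?_
      simp at hi ⊢
      omega
    rw [Nat.card_Ico] at this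
    have h6 : k - (k - k0) ≤ k0 := by omega
    exact_mod_cast this.trans h6
  have h6 := mul_le_mul_of_nonneg_right h5 ha
  linarith

/-! ### Translation norms -/

theorem Sys.nrm_words (hb : 0 < b) (s : S) (k : ℤ) (n : ℕ) (y : ι → ℝ) :
    nrm (G.P s (k + n)) y ≤
      ∑ w : Fin n → D, (Fintype.card (Fin n → D) : ℝ)⁻¹ * nrm (G.P (run G.δ n s w) k) y := by
  rw [G.P_words hb k n s]
  exact nrm_mixT (fun w => G.P_dens hb _ _) _ y

/-- Uniform smallness for small translations. -/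
theorem Sys.nrm_small (hb : 2 ≤ b) (s : S) (k : ℤ) {y : ι → ℝ} (hy : ‖y‖ < 1) :
    nrm (G.P s k) y ≤ KK ι * ‖y‖ := by
  have hb0 : (0:ℝ) < b := by exact_mod_cast (by omega : 0 < b)
  have hb1 : (1:ℝ) < b := by exact_mod_cast (by omega : 1 < b)
  have hK := KK_nonneg ι
  have hR := G.R0
  refine le_of_forall_pos_le_add fun ε hε => ?_
  -- choose a fine level
  set ε' : ℝ := min (1 - ‖y‖) (ε / (KK ι + 1)) with hε'
  have hε'0 : 0 < ε' := lt_min (by linarith) (by positivity)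
  obtain ⟨r, hr⟩ := exists_pow_lt_of_lt_one (show 0 < ε' / (G.R + 1) by positivity)
      (show (b:ℝ)⁻¹ < 1 by exact inv_lt_one_of_one_lt₀ hb1)
  set n : ℕ := (k + r).toNat with hn
  -- a level below both
  obtain ⟨r', n', hr', hk⟩ : ∃ r' n' : ℕ, r ≤ r' ∧ k = -(r':ℤ) + n' := by
    refine ⟨r + k.natAbs, (k + r + k.natAbs).toNat, by omega, ?_⟩
    have : 0 ≤ k + r + k.natAbs := by omega
    rw [Int.toNat_of_nonneg this]
    push_cast
    ring
  have hfine : (b:ℝ) ^ (-(r':ℤ)) * G.R ≤ ε' := by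
    rw [zpow_neg, zpow_natCast, ← inv_pow]
    have h1 : ((b:ℝ)⁻¹) ^ r' ≤ ((b:ℝ)⁻¹) ^ r :=
      pow_le_pow_of_le_one (by positivity) (inv_le_one_of_one_le₀ hb1.le) hr'
    rw [lt_div_iff₀ (by linarith)] at hr
    have h2 : (0:ℝ) < ((b:ℝ)⁻¹) ^ r' := by positivity
    nlinarith
  rw [hk]
  refine (G.nrm_words (by omega) s _ n' y).trans ?_
  have h1 : ∀ w ∈ (Finset.univ : Finset (Fin n' → D)),
      (Fintype.card (Fin n' → D) : ℝ)⁻¹ * nrm (G.P (run G.δ n' s w) (-(r':ℤ))) y ≤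
      (Fintype.card (Fin n' → D) : ℝ)⁻¹ * (KK ι * (‖y‖ + ε')) := by
    intro w _
    refine mul_le_mul_of_nonneg_left ?_ (by positivity)
    refine G.nrm_fine _ (by omega) ?_ (by linarith) hR
    have := min_le_left (1 - ‖y‖) (ε / (KK ι + 1))
    linarith
  refine (Finset.sum_le_sum h1).trans ?_
  rw [sum_inv_card]
  have h2 : ε' ≤ ε / (KK ι + 1) := min_le_right _ _
  have h3 : KK ι * ε' ≤ ε := by
    rw [le_div_iff₀ (by linarith)] at h2
    nlinarith
  linarith

/-- The gap at any scale is controlled by the diameter. -/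
theorem Sys.gap_small (hb : 2 ≤ b) (s : S) (k : ℤ) {Ξ : Type*} {t : Finset Ξ} (ht : t.Nonempty)
    (Y : Ξ → ι → ℝ) {ρ : ℝ} (hρ : ρ ≤ 1) (hρ0 : 0 < ρ)
    (hY : ∀ w ∈ t, ∀ w' ∈ t, ‖Y w - Y w'‖ ≤ ρ / 2) :
    gap t Y (G.P s k) ≤ KK ι * ρ := by
  have hb0 : (0:ℝ) < b := by exact_mod_cast (by omega : 0 < b)
  have hb1 : (1:ℝ) < b := by exact_mod_cast (by omega : 1 < b)
  have hR := G.R0
  obtain ⟨r, hr⟩ := exists_pow_lt_of_lt_one (show 0 < (ρ / 2) / (G.R + 1) by positivity)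
      (show (b:ℝ)⁻¹ < 1 by exact inv_lt_one_of_one_lt₀ hb1)
  obtain ⟨r', n', hr', hk⟩ : ∃ r' n' : ℕ, r ≤ r' ∧ k = -(r':ℤ) + n' := by
    refine ⟨r + k.natAbs, (k + r + k.natAbs).toNat, by omega, ?_⟩
    have : 0 ≤ k + r + k.natAbs := by omega
    rw [Int.toNat_of_nonneg this]
    push_cast
    ring
  have hfine : (b:ℝ) ^ (-(r':ℤ)) * G.R ≤ ρ / 2 := by
    rw [zpow_neg, zpow_natCast, ← inv_pow]
    have h1 : ((b:ℝ)⁻¹) ^ r' ≤ ((b:ℝ)⁻¹) ^ r :=
      pow_le_pow_of_le_one (by positivity) (inv_le_one_of_one_le₀ hb1.le) hr'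
    rw [lt_div_iff₀ (by linarith)] at hr
    have h2 : (0:ℝ) < ((b:ℝ)⁻¹) ^ r' := by positivity
    nlinarith
  rw [hk, G.P_words (by omega) (-(r':ℤ)) n' s]
  refine (gap_mixT ht Y (fun w => G.P_dens (by omega) _ _) _).trans ?_
  have h1 : ∀ w ∈ (Finset.univ : Finset (Fin n' → D)),
      (Fintype.card (Fin n' → D) : ℝ)⁻¹ * gap t Y (G.P (run G.δ n' s w) (-(r':ℤ))) ≤
      (Fintype.card (Fin n' → D) : ℝ)⁻¹ * (KK ι * ρ) := by
    intro w _
    refine mul_le_mul_of_nonneg_left ?_ (by positivity)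
    refine G.gap_fine _ (by omega) ht Y hρ fun v hv v' hv' => ?_
    have := hY v hv v' hv'
    linarith
  refine (Finset.sum_le_sum h1).trans ?_
  rw [sum_inv_card]

end Pool.Agent.V7H68.MS
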