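import Pool.Agent.V7H68.MS.Lea
import Pool.Agent.V7H68.MS.Bridge

/-!
Cells of a grid and the label paths of a function.
-/

namespace Pool.Agent.V7H68.MS

open Finset Real MeasureTheory SS

set_option linter.unusedSectionVars false

variable {ι : Type} [Fintype ι]

/-- A cell: the level and the corner. -/
abbrev St (ι : Type) := ℕ × (ι → ℕ)

/-- The child of a cell. -/
def chd (β : ℕ) (x : St ι) (w : ι → Fin β) : St ι := (x.1 + 1, fun i => β * x.2 i + w i)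

/-- The points of a cell. -/
def cell (β : ℕ) (x : St ι) : Set (ι → ℝ) :=
  {u | (fun i => (β:ℝ) ^ x.1 * u i - x.2 i) ∈ cube ι}

/-- The corner of a cell. -/
noncomputable def corner (β : ℕ) (x : St ι) : ι → ℝ := fun i => (x.2 i : ℝ) / (β:ℝ) ^ x.1

/-- The scaled value at the corner. -/
noncomputable def pos (β : ℕ) (X : (ι → ℝ) → ι → ℝ) (x : St ι) : ι → ℝ :=
  (β:ℝ) ^ x.1 • X (corner β x)

/-- The labels. -/
noncomputable def clab (β : ℕ) (X : (ι → ℝ) → ι → ℝ) (x : St ι) (w : ι → Fin β) : ι → ℤ :=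
  fl (pos β X (chd β x w))

/-- The descendant of a cell. -/
def stn (β : ℕ) : (n : ℕ) → St ι → (Fin n → ι → Fin β) → St ι
  | 0, x, _ => x
  | n + 1, x, w => stn β n (chd β x (w 0)) fun j => w j.succ

theorem stn_fst {β : ℕ} (n : ℕ) : ∀ (x : St ι) (w : Fin n → ι → Fin β),
    (stn β n x w).1 = x.1 + n := by
  induction n with
  | zero => intro x w; rfl
  | succ n ih =>
    intro x w
    simp only [stn]
    rw [ih]
    simp only [chd]
    omega

theorem cell_chd_sub {β : ℕ} (hβ : 0 < β) (x : St ι) (w : ι → Fin β) :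
    cell β (chd β x w) ⊆ cell β x := by
  intro u hu i
  have h := hu i
  simp only [chd] at h
  have hβ0 : (0:ℝ) < β := by exact_mod_cast hβ
  have h1 : (((w i : ℕ) : ℝ)) + 1 ≤ β := by exact_mod_cast (w i).2
  have h2 : (0:ℝ) ≤ ((w i : ℕ) : ℝ) := Nat.cast_nonneg _
  push_cast at h
  rw [pow_succ] at h
  have h3 : (β:ℝ) ^ x.1 * β * u i - (β * x.2 i + (w i : ℕ)) =
      β * ((β:ℝ) ^ x.1 * u i - x.2 i) - (w i : ℕ) := by ring
  rw [h3] at h
  constructor
  · by_contra hc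
    rw [not_le] at hc
    nlinarith [h.1]
  · by_contra hc
    rw [not_lt] at hc
    nlinarith [h.2]

theorem exists_chd {β : ℕ} (hβ : 0 < β) (x : St ι) {u : ι → ℝ} (hu : u ∈ cell β x) :
    ∃ w, u ∈ cell β (chd β x w) := by
  have hβ0 : (0:ℝ) < β := by exact_mod_cast hβ
  have h0 : ∀ i, 0 ≤ (β:ℝ) * ((β:ℝ) ^ x.1 * u i - x.2 i) := fun i =>
    mul_nonneg hβ0.le (hu i).1
  have h1 : ∀ i, ⌊(β:ℝ) * ((β:ℝ) ^ x.1 * u i - x.2 i)⌋₊ < β := by
    intro i
    rw [Nat.floor_lt (h0 i)]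
    have := (hu i).2
    nlinarith
  refine ⟨fun i => ⟨_, h1 i⟩, fun i => ?_⟩
  simp only [chd]
  push_cast
  rw [pow_succ]
  have h3 : (β:ℝ) ^ x.1 * β * u i - (β * x.2 i +
      ((⌊(β:ℝ) * ((β:ℝ) ^ x.1 * u i - x.2 i)⌋₊ : ℕ) : ℝ)) =
      β * ((β:ℝ) ^ x.1 * u i - x.2 i) -
      ((⌊(β:ℝ) * ((β:ℝ) ^ x.1 * u i - x.2 i)⌋₊ : ℕ) : ℝ) := by ring
  rw [h3]
  have h4 := Nat.floor_le (h0 i)
  have h5 := Nat.lt_floor_add_one ((β:ℝ) * ((β:ℝ) ^ x.1 * u i - x.2 i))
  constructor <;> linarith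

theorem cell_stn {β : ℕ} (hβ : 0 < β) (n : ℕ) : ∀ (x : St ι) (w : Fin n → ι → Fin β),
    cell β (stn β n x w) ⊆ cell β x := by
  induction n with
  | zero => intro x w; exact subset_rfl
  | succ n ih =>
    intro x w
    exact (ih _ _).trans (cell_chd_sub hβ x (w 0))

theorem exists_stn {β : ℕ} (hβ : 0 < β) (n : ℕ) : ∀ (x : St ι) {u : ι → ℝ}, u ∈ cell β x →
    ∃ w : Fin n → ι → Fin β, u ∈ cell β (stn β n x w) := by
  induction n with
  | zero => intro x u hu; exact ⟨fun j => j.elim0, hu⟩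
  | succ n ih =>
    intro x u hu
    obtain ⟨w0, hw0⟩ := exists_chd hβ x hu
    obtain ⟨w, hw⟩ := ih (chd β x w0) hw0
    refine ⟨Fin.cons w0 w, ?_⟩
    simpa [stn] using hw

theorem cell_eq {β : ℕ} (hβ : 0 < β) (x : St ι) :
    cell β x = Set.univ.pi fun i => Set.Ico ((x.2 i : ℝ) / (β:ℝ) ^ x.1)
      (((x.2 i : ℝ) + 1) / (β:ℝ) ^ x.1) := by
  have hβ0 : (0:ℝ) < (β:ℝ) ^ x.1 := by
    have : (0:ℝ) < β := by exact_mod_cast hβ
    positivity
  ext u
  simp only [cell, cube, Set.mem_ofPred_eq, Set.mem_univ_pi, Set.mem_Ico]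
  refine forall_congr' fun i => ?_
  rw [div_le_iff₀ hβ0, lt_div_iff₀ hβ0]
  constructor
  · intro h; constructor <;> linarith [h.1, h.2]
  · intro h; constructor <;> linarith [h.1, h.2]

theorem vol_cell {β : ℕ} (hβ : 0 < β) (x : St ι) :
    volume (cell β x) = ENNReal.ofReal ((((β:ℝ) ^ Fintype.card ι) ^ x.1)⁻¹) := by
  have hβ0 : (0:ℝ) < (β:ℝ) ^ x.1 := by
    have : (0:ℝ) < β := by exact_mod_cast hβ
    positivity
  rw [cell_eq hβ, Real.volume_pi_Ico]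
  have : ∀ i, ((x.2 i : ℝ) + 1) / (β:ℝ) ^ x.1 - (x.2 i : ℝ) / (β:ℝ) ^ x.1 =
      ((β:ℝ) ^ x.1)⁻¹ := fun i => by field_simp; ring
  simp only [this, Finset.prod_const, Finset.card_univ]
  rw [← ENNReal.ofReal_pow (by positivity)]
  congr 1
  rw [inv_pow, ← pow_mul, ← pow_mul, mul_comm]

theorem cell_meas {β : ℕ} (hβ : 0 < β) (x : St ι) : MeasurableSet (cell β x) := by
  rw [cell_eq hβ]
  exact MeasurableSet.univ_pi fun _ => measurableSet_Ico

theorem corner_mem {β : ℕ} (hβ : 0 < β) (x : St ι) : corner β x ∈ cell β x := by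
  have hβ0 : (β:ℝ) ^ x.1 ≠ 0 := by
    have : (0:ℝ) < β := by exact_mod_cast hβ
    positivity
  intro i
  simp only [corner]
  rw [mul_div_cancel₀ _ hβ0, sub_self]
  exact ⟨le_rfl, one_pos⟩

theorem alv_of {β : ℕ} (hβ : 0 < β) {alive : St ι → Prop} {u : ι → ℝ} {n0 : ℕ}
    (h : ∀ x : St ι, n0 ≤ x.1 → u ∈ cell β x → alive x) (n : ℕ) :
    ∀ (x : St ι) (w : Fin n → ι → Fin β), n0 ≤ x.1 → u ∈ cell β (stn β n x w) →
      alv (chd β) alive n x w := by
  induction n with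
  | zero => intro x w _ _; trivial
  | succ n ih =>
    intro x w hx hu
    exact ⟨h x hx (cell_stn hβ (n + 1) x w hu), ih _ _ (by simp only [chd]; omega) hu⟩

theorem pth_near {β : ℕ} (hβ : 2 ≤ β) {X : (ι → ℝ) → ι → ℝ} {u : ι → ℝ} {n0 : ℕ} {R : ℝ}
    {K : ℕ} (hK : R + 2 ≤ K)
    (h : ∀ x : St ι, n0 ≤ x.1 → u ∈ cell β x → ‖X u - X (corner β x)‖ ≤ R / (β:ℝ) ^ x.1)
    (n : ℕ) : ∀ (x : St ι) (w : Fin n → ι → Fin β), n0 ≤ x.1 →
      u ∈ cell β (stn β n x w) → ∀ y : ι → ℝ, ‖X u - y‖ ≤ ((β:ℝ) ^ (x.1 + n))⁻¹ →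
      ∀ (j : Fin n) (i : ι),
        |pth (chd β) (clab β X) n x w j i - fl ((β:ℝ) ^ (x.1 + j + 1) • y) i| ≤ K := by
  have hβ0 : (0:ℝ) < β := by exact_mod_cast (by omega : 0 < β)
  have hβ1 : (1:ℝ) ≤ β := by exact_mod_cast (by omega : 1 ≤ β)
  induction n with
  | zero => intro x w _ _ y _ j; exact j.elim0
  | succ n ih =>
    intro x w hx hu y hy j
    refine Fin.cases ?_ (fun j => ?_) j
    · intro i
      simp only [pth, Fin.cons_zero, clab, Fin.val_zero, add_zero]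
      refine fl_near ?_ i
      refine le_trans ?_ hK
      have h1 : u ∈ cell β (chd β x (w 0)) := cell_stn (by omega) n _ _ hu
      have h2 := h (chd β x (w 0)) (by simp only [chd]; omega) h1
      have h3 : (chd β x (w 0)).1 = x.1 + 1 := rfl
      rw [h3] at h2
      have h4 : (0:ℝ) < (β:ℝ) ^ (x.1 + 1) := by positivity
      have h5 : pos β X (chd β x (w 0)) - (β:ℝ) ^ (x.1 + 1) • y =
          (β:ℝ) ^ (x.1 + 1) • ((X u - y) - (X u - X (corner β (chd β x (w 0))))) := by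
        unfold pos
        rw [h3, smul_sub, smul_sub, smul_sub]
        abel
      rw [h5, norm_smul, Real.norm_of_nonneg h4.le]
      have h6 : ‖X u - y‖ ≤ ((β:ℝ) ^ (x.1 + 1))⁻¹ := by
        refine hy.trans (inv_anti₀ h4 (pow_le_pow_right₀ hβ1 (by omega)))
      have h7 := norm_sub_le (X u - y) (X u - X (corner β (chd β x (w 0))))
      have h8 : (β:ℝ) ^ (x.1 + 1) * ‖X u - y - (X u - X (corner β (chd β x (w 0))))‖ ≤
          (β:ℝ) ^ (x.1 + 1) * (((β:ℝ) ^ (x.1 + 1))⁻¹ + R / (β:ℝ) ^ (x.1 + 1)) :=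
        mul_le_mul_of_nonneg_left (by linarith) h4.le
      have h9 : (β:ℝ) ^ (x.1 + 1) * (((β:ℝ) ^ (x.1 + 1))⁻¹ + R / (β:ℝ) ^ (x.1 + 1)) = 1 + R := by
        field_simp
      linarith
    · intro i
      simp only [pth, Fin.cons_succ]
      have h1 := ih (chd β x (w 0)) (fun j => w j.succ) (by simp only [chd]; omega) hu y (by
        have : (chd β x (w 0)).1 + n = x.1 + (n + 1) := by simp only [chd]; omega
        rw [this]
        exact hy) j i
      have h2 : (chd β x (w 0)).1 + (j:ℕ) + 1 = x.1 + (j.succ : ℕ) + 1 := by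
        simp only [chd, Fin.val_succ]; omega
      rw [h2] at h1
      exact h1

end Pool.Agent.V7H68.MS
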