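import Pool.Agent.V7H68.MS.Zoom

/-!
Inside a finite closed class: irreducible classes are reached from everywhere.
-/

namespace Pool.Agent.V7H68.MS

open Finset Real MeasureTheory SS

set_option linter.unusedSectionVars false

variable {ι : Type} [Fintype ι]

/-- The zooms of level `k`. -/
def succs (b k : ℕ) (h : (ι → ℝ) → ι → ℝ) : Set ((ι → ℝ) → ι → ℝ) :=
  {h' | ∃ z : ι → ℕ, (∀ i, z i < b ^ k) ∧ zm (b ^ k) z h = h'}

theorem succs_add {b : ℕ} (hb : 0 < b) (j k : ℕ) (h h'' : (ι → ℝ) → ι → ℝ) :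
    h'' ∈ succs b (j + k) h ↔ ∃ h' ∈ succs b j h, h'' ∈ succs b k h' := by
  have hj : 0 < b ^ j := by positivity
  have hk : 0 < b ^ k := by positivity
  constructor
  · rintro ⟨z, hz, rfl⟩
    refine ⟨zm (b ^ j) (fun i => z i / b ^ k) h, ⟨_, fun i => ?_, rfl⟩,
      ⟨fun i => z i % b ^ k, fun i => Nat.mod_lt _ hk, ?_⟩⟩
    · refine Nat.div_lt_of_lt_mul ?_
      have := hz i
      rw [pow_add] at this
      linarith
    · rw [zm_zm hj hk _ _ (fun i => Nat.mod_lt _ hk), ← pow_add]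
      congr 1
      funext i
      exact Nat.div_add_mod (z i) (b ^ k)
  · rintro ⟨h', ⟨z, hz, rfl⟩, ⟨z2, hz2, rfl⟩⟩
    refine ⟨fun i => b ^ k * z i + z2 i, fun i => ?_, ?_⟩
    · have h1 := hz i
      have h2 := hz2 i
      have h3 : b ^ k * (z i + 1) ≤ b ^ k * b ^ j := Nat.mul_le_mul_left _ h1
      rw [pow_add]
      nlinarith
    · rw [zm_zm hj hk _ _ hz2, ← pow_add]

theorem succs_ne {b : ℕ} (hb : 0 < b) (k : ℕ) (h : (ι → ℝ) → ι → ℝ) : (succs b k h).Nonempty :=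
  ⟨_, fun _ => 0, fun _ => by positivity, rfl⟩

theorem succs_sub {b : ℕ} (hb : 0 < b) {C : Set ((ι → ℝ) → ι → ℝ)} (hC : Pre b C) (k : ℕ)
    {h : (ι → ℝ) → ι → ℝ} (hh : h ∈ C) : succs b k h ⊆ C := by
  rintro _ ⟨z, hz, rfl⟩
  exact hC.closed_pow hb k h hh z hz

/-- Some power of the relation is idempotent. -/
theorem exists_idem {b : ℕ} (hb : 0 < b) {C : Set ((ι → ℝ) → ι → ℝ)} (hC : Pre b C) :
    ∃ k : ℕ, 1 ≤ k ∧ ∀ h ∈ C, succs b (k + k) h = succs b k h := by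
  classical
  have : Finite ↥C := hC.fin
  set rel : ℕ → Set (↥C × ↥C) := fun k => {p | p.2.1 ∈ succs b k p.1.1} with hrel
  obtain ⟨i, j, hij, heq⟩ := Finite.exists_ne_map_eq_of_infinite rel
  have hext : ∀ k l, rel k = rel l → ∀ h ∈ C, succs b k h = succs b l h := by
    intro k l hkl h hh
    ext h'
    constructor
    · intro h1
      have h2 : ((⟨h, hh⟩, ⟨h', succs_sub hb hC k hh h1⟩) : ↥C × ↥C) ∈ rel k := h1
      rw [hkl] at h2
      exact h2
    · intro h1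
      have h2 : ((⟨h, hh⟩, ⟨h', succs_sub hb hC l hh h1⟩) : ↥C × ↥C) ∈ rel l := h1
      rw [← hkl] at h2
      exact h2
  obtain ⟨i, p, hp, heq⟩ : ∃ i p : ℕ, 1 ≤ p ∧ ∀ h ∈ C, succs b (i + p) h = succs b i h := by
    rcases lt_or_gt_of_ne hij with h | h
    · exact ⟨i, j - i, by omega, by
        rw [show i + (j - i) = j by omega]
        exact hext _ _ heq.symm⟩
    · exact ⟨j, i - j, by omega, by
        rw [show j + (i - j) = i by omega]
        exact hext _ _ heq⟩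
  have hstep : ∀ n, i ≤ n → ∀ h ∈ C, succs b (n + p) h = succs b n h := by
    intro n hn h hh
    obtain ⟨d, rfl⟩ : ∃ d, n = i + d := ⟨n - i, by omega⟩
    ext h''
    rw [show i + d + p = (i + p) + d by omega, succs_add hb, heq h hh, ← succs_add hb]
  have hmul : ∀ c : ℕ, ∀ n, i ≤ n → ∀ h ∈ C, succs b (n + c * p) h = succs b n h := by
    intro c
    induction c with
    | zero => intro n _ h _; simp
    | succ c ih =>
      intro n hn h hh
      rw [show n + (c + 1) * p = (n + c * p) + p by ring, hstep _ (by omega) h hh, ih n hn h hh]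
  refine ⟨(i + 1) * p, by nlinarith, fun h hh => ?_⟩
  exact hmul (i + 1) ((i + 1) * p) (by nlinarith) h hh

/-- Irreducible classes are reached. -/
theorem exists_fam {b : ℕ} (hb : 2 ≤ b) {C : Set ((ι → ℝ) → ι → ℝ)} (hC : Pre b C) :
    ∃ k : ℕ, 1 ≤ k ∧ ∀ h ∈ C, ∃ z : ι → ℕ, (∀ i, z i < b ^ k) ∧
      ∃ C' : Set ((ι → ℝ) → ι → ℝ), Fam (b ^ k) C' ∧ zm (b ^ k) z h ∈ C' := by
  classical
  have hb' : 0 < b := by omega
  obtain ⟨k, hk1, hk⟩ := exists_idem hb' hC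
  refine ⟨k, hk1, fun h hh => ?_⟩
  have htrans : ∀ x ∈ C, ∀ y ∈ succs b k x, succs b k y ⊆ succs b k x := by
    intro x hx y hy z hz
    rw [← hk x hx, succs_add hb']
    exact ⟨y, hy, hz⟩
  have hfin : ∀ x ∈ C, (succs b k x).Finite := fun x hx => hC.fin.subset (succs_sub hb' hC k hx)
  obtain ⟨g0, hg0, hmin⟩ := (hfin h hh).exists_minimalFor (fun g => (succs b k g).ncard) _
    (succs_ne hb' k h)
  have hg0C : g0 ∈ C := succs_sub hb' hC k hh hg0
  have hsub : succs b k g0 ⊆ C := succs_sub hb' hC k hg0C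
  have heq : ∀ x ∈ succs b k g0, succs b k x = succs b k g0 := by
    intro x hx
    refine Set.eq_of_subset_of_ncard_le (htrans g0 hg0C x hx) ?_ (hfin g0 hg0C)
    have h1 : x ∈ succs b k h := htrans h hh g0 hg0 hx
    by_contra hlt
    rw [not_le] at hlt
    exact absurd (hmin h1 hlt.le) (not_le.2 hlt)
  obtain ⟨h', hh'⟩ := succs_ne hb' k g0
  have hh1 : h' ∈ succs b k h := htrans h hh g0 hg0 hh'
  obtain ⟨z, hz, hzz⟩ := hh1
  refine ⟨z, hz, succs b k g0, ⟨⟨hfin g0 hg0C, ?_, ?_, ?_, ?_⟩, ?_⟩, by rw [hzz]; exact hh'⟩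
  · exact fun f hf => hC.off f (hsub hf)
  · exact fun f hf => hC.zero f (hsub hf)
  · obtain ⟨R, hR⟩ := hC.bdd
    exact ⟨R, fun f hf => hR f (hsub hf)⟩
  · intro f hf z hz
    rw [← heq f hf]
    exact ⟨z, hz, rfl⟩
  · intro f hf g hg
    rw [← heq f hf] at hg
    exact hg

end Pool.Agent.V7H68.MS
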