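import Pool.Agent.V7H68.MS.Zoom
import Pool.Agent.V7H68.MS.Alpha
import Pool.Agent.V7H68.MS.Bridge

/-!
The digit system of a class of functions, and the entropy of its blocks.
-/

namespace Pool.Agent.V7H68.MS

open Finset Real MeasureTheory SS

set_option linter.unusedSectionVars false

variable {ι : Type} [Fintype ι] [DecidableEq ι]

/-- The digit vector of a digit. -/
def dv {N : ℕ} (d : ι → Fin N) : ι → ℕ := fun i => d i

theorem dv_lt {N : ℕ} (d : ι → Fin N) (i : ι) : dv d i < N := (d i).2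

theorem cube_inv {N : ℕ} (hN : 0 < N) {f : (ι → ℝ) → ℝ} (hf : Measurable f)
    (hb : ∃ M, ∀ θ, |f θ| ≤ M) :
    ∫ θ in cube ι, f θ = ∑ d : ι → Fin N, (Fintype.card (ι → Fin N) : ℝ)⁻¹ *
      ∫ θ in cube ι, f ((N:ℝ)⁻¹ • (nv (dv d) + θ)) := by
  obtain ⟨M, hM⟩ := hb
  have hN0 : (0:ℝ) < N := by exact_mod_cast hN
  have hcs : ∀ g : (ι → ℝ) → ℝ, Measurable g → (∀ θ, |g θ| ≤ M) →
      CS (fun u => q0 u * g u) := by
    intro g hg hgM
    refine ⟨?_, ⟨M, fun u => ?_⟩, ⟨1, fun u hu => ?_⟩⟩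
    · exact (measurable_one.indicator cube_meas : Measurable (q0 : (ι → ℝ) → ℝ)).mul hg
    · rcases q0_zero_or_one u with h | h
      · rw [h, zero_mul, abs_zero]
        exact (abs_nonneg _).trans (hgM 0)
      · rw [h, one_mul]; exact hgM u
    · rw [show q0 u = 0 by apply q0_supp; exact hu, zero_mul]
  have hint : ∀ g : (ι → ℝ) → ℝ, ∫ θ in cube ι, g θ = ∫ θ, q0 θ * g θ := by
    intro g
    rw [← integral_indicator cube_meas]
    congr 1
    funext θ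
    by_cases h : θ ∈ cube ι
    · rw [Set.indicator_of_mem h, q0_mem h, one_mul]
    · rw [Set.indicator_of_notMem h, q0_not_mem h, zero_mul]
  have hterm : ∀ d : ι → Fin N, (Fintype.card (ι → Fin N) : ℝ)⁻¹ *
      ∫ θ in cube ι, f ((N:ℝ)⁻¹ • (nv (dv d) + θ)) =
      ∫ u, q0 ((N:ℝ) • u + fun i => - ((d i : ℕ) : ℝ)) * f u := by
    intro d
    rw [hint]
    have h1 := integral_comp_affine (f := fun θ => q0 θ * f ((N:ℝ)⁻¹ • (nv (dv d) + θ))) hN0
      (fun i => - ((d i : ℕ) : ℝ))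
    have h2 : (Fintype.card (ι → Fin N) : ℝ) = (N:ℝ) ^ Fintype.card ι := by
      rw [Fintype.card_pi]; simp
    rw [h2, ← h1]
    congr 1
    funext u
    congr 2
    funext i
    simp only [Pi.smul_apply, Pi.add_apply, nv, dv, smul_eq_mul]
    field_simp
    ring
  rw [Finset.sum_congr rfl fun d _ => hterm d, ← integral_finsetSum]
  · rw [hint]
    congr 1
    funext u
    rw [← Finset.sum_mul]
    congr 1
    have h3 : (q0 : (ι → ℝ) → ℝ) u = coarse N q0 u := by rw [coarse_q0 hN]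
    rw [h3, coarse_apply]
  · intro d _
    have h4 := hcs (fun θ => f ((N:ℝ)⁻¹ • (nv (dv d) + θ))) (hf.comp (by fun_prop))
      (fun θ => hM _)
    have h5 := (h4.comp_affine hN0 (fun i => - ((d i : ℕ) : ℝ))).integrable
    refine h5.congr (Filter.Eventually.of_forall fun u => ?_)
    simp only
    congr 2
    funext i
    simp only [Pi.smul_apply, Pi.add_apply, nv, dv, smul_eq_mul]
    field_simp
    ring

theorem cube_prob : IsProbabilityMeasure (volume.restrict (cube ι)) := by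
  refine ⟨?_⟩
  rw [Measure.restrict_apply_univ, cube_eq, Real.volume_pi_Ico]
  simp

/-- The point of a function and a linear map. -/
noncomputable def Zf (f : (ι → ℝ) → ι → ℝ) (L : (ι → ℝ) →L[ℝ] (ι → ℝ)) (θ : ι → ℝ) : ι → ℝ :=
  (cube ι).indicator (fun θ => f θ + L θ) θ

/-- The digit of a function and a linear map. -/
noncomputable def xf (N : ℕ) (f : (ι → ℝ) → ι → ℝ) (L : (ι → ℝ) →L[ℝ] (ι → ℝ))
    (z : ι → ℕ) : ι → ℝ := (N:ℝ) • f ((N:ℝ)⁻¹ • nv z) + L (nv z)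

theorem Zf_eqn {N : ℕ} (hN : 0 < N) {f : (ι → ℝ) → ι → ℝ} (L : (ι → ℝ) →L[ℝ] (ι → ℝ))
    {z : ι → ℕ} (hz : ∀ i, z i < N) {θ : ι → ℝ} (hθ : θ ∈ cube ι) :
    Zf f L ((N:ℝ)⁻¹ • (nv z + θ)) = (N:ℝ)⁻¹ • (xf N f L z + Zf (zm N z f) L θ) := by
  have hN0 : (N:ℝ) ≠ 0 := by exact_mod_cast hN.ne'
  unfold Zf xf
  rw [Set.indicator_of_mem (affine_mem_cube hz hθ), Set.indicator_of_mem hθ, zm_of_mem hθ,
    map_smul, map_add]
  have h1 : (N:ℝ) • f ((N:ℝ)⁻¹ • nv z) + L (nv z) +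
      ((N:ℝ) • (f ((N:ℝ)⁻¹ • (nv z + θ)) - f ((N:ℝ)⁻¹ • nv z)) + L θ) =
      (N:ℝ) • f ((N:ℝ)⁻¹ • (nv z + θ)) + (L (nv z) + L θ) := by
    rw [smul_sub]
    abel
  rw [h1, smul_add ((N:ℝ)⁻¹) ((N:ℝ) • f ((N:ℝ)⁻¹ • (nv z + θ))) _, smul_smul,
    inv_mul_cancel₀ hN0, one_smul]

variable {b : ℕ} {C : Set ((ι → ℝ) → ι → ℝ)}

/-- The digit system. -/
noncomputable def Fam.sys [Fintype ↥C] (h : Fam b C) (hb : 2 ≤ b)
    (L : (ι → ℝ) →L[ℝ] (ι → ℝ)) : Sys b (ι → Fin b) ↥C (ι → ℝ) ι where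
  μ := volume.restrict (cube ι)
  prob := cube_prob
  τ d θ := (b:ℝ)⁻¹ • (nv (dv d) + θ)
  inv f hf hbd := by
    rw [cube_inv (show 0 < b by omega) hf hbd]
  δ s d := ⟨zm b (dv d) s.1, h.closed _ s.2 _ (dv_lt d)⟩
  x s d := xf b s.1 L (dv d)
  Z s θ := Zf s.1 L θ
  meas_Z s := by
    unfold Zf
    exact ((h.meas hb s.2).add L.continuous.measurable).indicator cube_meas
  R := h.bdd.choose + ‖L‖
  bdd s θ := by
    have h1 := h.bdd.choose_spec s.1 s.2 θ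
    have h0 : 0 ≤ ‖L‖ := norm_nonneg _
    unfold Zf
    by_cases hθ : θ ∈ cube ι
    · rw [Set.indicator_of_mem hθ]
      refine (norm_add_le _ _).trans (add_le_add h1 ?_)
      refine (L.le_opNorm θ).trans ?_
      exact mul_le_of_le_one_right h0 (norm_le_of_cube hθ)
    · rw [Set.indicator_of_notMem hθ, norm_zero]
      have := (norm_nonneg _).trans h1
      linarith
  eqn s d := by
    rw [ae_restrict_iff' cube_meas]
    refine Filter.Eventually.of_forall fun θ hθ => ?_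
    exact Zf_eqn (by omega) L (dv_lt d) hθ
  irr s s' := by
    obtain ⟨z, hz, hzz⟩ := h.irr s.1 s.2 s'.1 s'.2
    refine ⟨fun i => ⟨z i, hz i⟩, ?_⟩
    exact Subtype.ext hzz

/-- The density of a block. -/
theorem Fam.block [NeZero b] [Fintype ↥C] [Nonempty ↥C] (h : Fam b C) (hb : 2 ≤ b) (L : (ι → ℝ) →L[ℝ] (ι → ℝ))
    (s : ↥C) (q : ℕ) :
    (h.sys hb L).P s q = mixT (fun w : ι → Fin (b ^ q) => (h.sys hb L).P
      ⟨zm (b ^ q) (dv w) s.1, h.closed_pow (by omega) q _ s.2 _ (dv_lt w)⟩ 0)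
      (fun w => xf (b ^ q) s.1 L (dv w)) := by
  have hb0 : (0:ℝ) < b := by exact_mod_cast (by omega : 0 < b)
  have hbq : 0 < b ^ q := by have : 0 < b := by omega
                             positivity
  funext u
  have hm : Measurable (fun θ => q0 (u - (b:ℝ) ^ (q:ℤ) • Zf s.1 L θ)) :=
    (h.sys hb L).meas_int s q u
  have h1 := cube_inv hbq hm ⟨1, fun θ => q0_abs_le _⟩
  change ∫ θ in cube ι, q0 (u - (b:ℝ) ^ (q:ℤ) • Zf s.1 L θ) = _
  rw [h1]
  unfold mixT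
  refine Finset.sum_congr rfl fun w _ => ?_
  congr 1
  change _ = ∫ θ in cube ι, q0 (u - xf (b ^ q) s.1 L (dv w) -
    (b:ℝ) ^ (0:ℤ) • Zf (zm (b ^ q) (dv w) s.1) L θ)
  refine setIntegral_congr_fun cube_meas fun θ hθ => ?_
  rw [Zf_eqn hbq L (dv_lt w) hθ, smul_smul, zpow_zero, one_smul]
  have h2 : (b:ℝ) ^ (q:ℤ) * (((b ^ q : ℕ) : ℝ))⁻¹ = 1 := by
    rw [zpow_natCast]
    push_cast
    exact mul_inv_cancel₀ (by positivity)
  rw [h2, one_smul]
  congr 1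
  abel

/-- The discrete entropy of a block is large. -/
theorem Fam.block_entropy [NeZero b] [Fintype ↥C] [Nonempty ↥C] [Nonempty ι] (h : Fam b C) (hb : 2 ≤ b)
    (L : (ι → ℝ) →L[ℝ] (ι → ℝ)) {η : ℝ} (hη : 0 < η) : ∃ c : ℝ, ∀ (q : ℕ) (s : ↥C),
    q * ((h.sys hb L).alpha - η) - c ≤ log (Fintype.card (ι → Fin (b ^ q))) -
      hf (fun w : ι → Fin (b ^ q) => fl (xf (b ^ q) s.1 L (dv w))) := by
  have : Nonempty (Fin b) := ⟨⟨0, by omega⟩⟩
  obtain ⟨c, hc0, hc⟩ := (h.sys hb L).ent_lower (by omega) hη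
  have hR := (h.sys hb L).R0
  refine ⟨c + (2 * ((1 + (h.sys hb L).R) + 2)) ^ Fintype.card ι, fun q s => ?_⟩
  have hbq : 0 < b ^ q := by have : 0 < b := by omega
                             positivity
  have : Nonempty (Fin (b ^ q)) := ⟨⟨0, hbq⟩⟩
  have h1 := hc q s
  rw [h.block hb L s q] at h1
  have h2 := mix_upper (p := fun w : ι → Fin (b ^ q) => (h.sys hb L).P
      ⟨zm (b ^ q) (dv w) s.1, h.closed_pow (by omega) q _ s.2 _ (dv_lt w)⟩ 0)
    (fun w => (h.sys hb L).P_dens (by omega) _ 0) (R := 1 + (h.sys hb L).R) (by linarith)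
    (fun w u hu => (h.sys hb L).P_supp _ 0 (by omega) (by simpa using hu))
    (fun w => xf (b ^ q) s.1 L (dv w))
  linarith

end Pool.Agent.V7H68.MS
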