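import Pool.Agent.V7H68.MS.GoodT

/-!
The images of sets of positive outer measure, for an irreducible class plus a function which is
differentiable almost everywhere.
-/

namespace Pool.Agent.V7H68.MS

open Finset Real MeasureTheory SS

set_option linter.unusedSectionVars false

variable {ι : Type} [Fintype ι] [DecidableEq ι] {b : ℕ} {C : Set ((ι → ℝ) → ι → ℝ)}

theorem Alive.mono {β : ℕ} {X : (ι → ℝ) → ι → ℝ} {h R R' : ℝ} {x : St ι}
    (ha : Alive β X h R x) (hR : R ≤ R') : Alive β X h R' x :=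
  ⟨ha.1, fun u hu => (ha.2 u hu).trans (div_le_div_of_nonneg_right hR (by positivity))⟩

/-- A function that is differentiable almost everywhere is almost everywhere measurable. -/
theorem aemeasurable_of_diff {F : (ι → ℝ) → ι → ℝ} {μ : Measure (ι → ℝ)}
    (hF : ∀ᵐ v ∂μ, DifferentiableAt ℝ F v) : AEMeasurable F μ := by
  have hm : MeasurableSet {v | DifferentiableAt ℝ F v} := measurableSet_of_differentiableAt ℝ F
  have hc : ContinuousOn F {v | DifferentiableAt ℝ F v} := fun v hv =>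
    hv.continuousAt.continuousWithinAt
  have h1 := hc.aemeasurable (μ := μ) hm
  rwa [Measure.restrict_eq_self_of_ae_mem
    (show ∀ᵐ v ∂μ, v ∈ {v | DifferentiableAt ℝ F v} from hF)] at h1

/-- Differentiability in terms of cells. -/
theorem cell_diff {F : (ι → ℝ) → ι → ℝ} {v : ι → ℝ} (hv : DifferentiableAt ℝ F v) {β : ℕ}
    (hβ : 2 ≤ β) : ∃ n0 : ℕ, ∀ x : St ι, n0 ≤ x.1 → v ∈ cell β x → ∀ u ∈ cell β x,
      ‖F u - F (corner β x) - fderiv ℝ F v (u - corner β x)‖ ≤ ((β:ℝ) ^ (x.1 + 1))⁻¹ := by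
  have hβ' : 0 < β := by omega
  have hβ0 : (0:ℝ) < β := by exact_mod_cast hβ'
  have hβ1 : (1:ℝ) < β := by exact_mod_cast (by omega : 1 < β)
  have h1 := hv.hasFDerivAt.isLittleO
  rw [Asymptotics.isLittleO_iff] at h1
  have h2 := h1 (show (0:ℝ) < (2 * (β:ℝ))⁻¹ by positivity)
  rw [Metric.eventually_nhds_iff] at h2
  obtain ⟨δ, hδ, h3⟩ := h2
  obtain ⟨n0, hn0⟩ := exists_pow_lt_of_lt_one hδ (show (β:ℝ)⁻¹ < 1 from inv_lt_one_of_one_lt₀ hβ1)
  refine ⟨n0, fun x hx hvx u hu => ?_⟩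
  set c := corner β x with hc
  have hdist : ∀ y ∈ cell β x, ‖y - v‖ ≤ ((β:ℝ) ^ x.1)⁻¹ := by
    intro y hy
    rw [pi_norm_le_iff_of_nonneg (by positivity)]
    intro i
    rw [Real.norm_eq_abs, Pi.sub_apply]
    have h4 := hy i
    have h5 := hvx i
    simp only at h4 h5
    have h6 : (0:ℝ) < (β:ℝ) ^ x.1 := by positivity
    rw [inv_eq_one_div, le_div_iff₀ h6, ← abs_of_pos h6, ← abs_mul, abs_le]
    constructor <;> nlinarith [h4.1, h4.2, h5.1, h5.2]
  have hlt : ((β:ℝ) ^ x.1)⁻¹ < δ := by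
    refine lt_of_le_of_lt ?_ hn0
    rw [inv_pow]
    exact inv_anti₀ (by positivity) (pow_le_pow_right₀ hβ1.le hx)
  have hy : ∀ y ∈ cell β x, ‖F y - F v - fderiv ℝ F v (y - v)‖ ≤
      (2 * (β:ℝ))⁻¹ * ((β:ℝ) ^ x.1)⁻¹ := by
    intro y hy
    have h4 := h3 (y := y) (by rw [dist_eq_norm]; exact (hdist y hy).trans_lt hlt)
    exact h4.trans (mul_le_mul_of_nonneg_left (hdist y hy) (by positivity))
  have e : F u - F c - fderiv ℝ F v (u - c) =
      (F u - F v - fderiv ℝ F v (u - v)) - (F c - F v - fderiv ℝ F v (c - v)) := by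
    have : u - c = (u - v) - (c - v) := by abel
    rw [this, map_sub]
    abel
  rw [e]
  refine (norm_sub_le _ _).trans ?_
  have h5 := hy u hu
  have h6 := hy c (corner_mem hβ' x)
  have h7 : (2 * (β:ℝ))⁻¹ * ((β:ℝ) ^ x.1)⁻¹ + (2 * (β:ℝ))⁻¹ * ((β:ℝ) ^ x.1)⁻¹ =
      ((β:ℝ) ^ (x.1 + 1))⁻¹ := by
    rw [pow_succ]
    field_simp
    norm_num
  linarith

/-- Cells that meet the unit cube. -/
theorem cell_lt {β : ℕ} (hβ : 0 < β) {x : St ι} {u : ι → ℝ} (hu : u ∈ cube ι)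
    (hx : u ∈ cell β x) (i : ι) : x.2 i < β ^ x.1 := by
  have hβ0 : (0:ℝ) < (β:ℝ) ^ x.1 := by
    have : (0:ℝ) < β := by exact_mod_cast hβ
    positivity
  have h1 := (hx i).1
  simp only at h1
  have h2 : (x.2 i : ℝ) < (β:ℝ) ^ x.1 := by
    have := mul_lt_of_lt_one_right hβ0 (hu i).2
    linarith
  exact_mod_cast h2

/-- Images of sets of positive outer measure are large, for almost every height. -/
theorem fam_main [Nonempty ι] (hb : 2 ≤ b) (hC : Fam b C) {f : (ι → ℝ) → ι → ℝ} (hf : f ∈ C)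
    {F : (ι → ℝ) → ι → ℝ} (hF : ∀ᵐ v ∂(volume.restrict (cube ι)), DifferentiableAt ℝ F v) :
    ∀ᵐ t : ℝ, ∀ σ : ℝ, 0 ≤ σ → σ < Fintype.card ι → ∀ Y : Set (ι → ℝ), Y ⊆ cube ι →
      volume Y ≠ 0 → μH[σ] ((fun u => f u + F u + t • u) '' Y) ≠ 0 := by
  classical
  have : NeZero b := ⟨by omega⟩
  have : Fintype ↥C := hC.fin.fintype
  have : Nonempty ↥C := ⟨⟨f, hf⟩⟩
  obtain ⟨R, hR⟩ := hC.bdd
  have hR0 : 0 ≤ R := (norm_nonneg _).trans (hR f hf 0)
  have hb0 : (0:ℝ) < b := by exact_mod_cast (by omega : 0 < b)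
  have hb1 : (1:ℝ) < b := by exact_mod_cast (by omega : 1 < b)
  have hlb : 0 < log b := Real.log_pos hb1
  set I := ContinuousLinearMap.id ℝ (ι → ℝ) with hI
  have hcard : ∀ q : ℕ, (Fintype.card (ι → Fin (b ^ q)) : ℝ) = ((b:ℝ) ^ q) ^ Fintype.card ι := by
    intro q
    rw [Fintype.card_pi]; simp
  filter_upwards [ae_alpha_fam hb hC (measurable_fderiv ℝ F)] with t ht
  intro σ hσ0 hσ Y hYc hY
  set X : (ι → ℝ) → ι → ℝ := fun u => f u + F u + t • u with hX
  have hXm : AEMeasurable X (volume.restrict (cube ι)) :=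
    ((hC.meas hb hf).aemeasurable.add (aemeasurable_of_diff hF)).add
      (measurable_id.const_smul t).aemeasurable
  set m : ℝ := (Fintype.card ι : ℝ) with hm
  set σ' : ℝ := (σ + m) / 2 with hσ'
  have hσσ' : σ < σ' := by rw [hσ']; linarith
  have hσ'm : σ' < m := by rw [hσ']; linarith
  set η : ℝ := (m - σ') * log b / 2 with hη
  have hη0 : 0 < η := by rw [hη]; have : 0 < m - σ' := by linarith
                         positivity
  -- the constants
  set K : ℕ → ℕ := fun j => ⌈R⌉₊ + 3 + j with hK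
  set req : ℕ → ℕ → ℝ := fun j q => m * log (2 * K j + 1) + σ' * log ((b ^ q : ℕ) : ℝ) + 2 +
    m * log 9 with hreq
  set V : ℕ → ℕ → Set (ι → ℝ) := fun j q => {v | DifferentiableAt ℝ F v ∧
    ‖fderiv ℝ F v + t • I‖ ≤ j ∧ ∀ s ∈ C, req j q ≤ log (Fintype.card (ι → Fin (b ^ q))) -
      SS.hf (fun w : ι → Fin (b ^ q) => fl (xf (b ^ q) s (fderiv ℝ F v + t • I) (dv w)))} with hV
  have hcover : ∀ v, DifferentiableAt ℝ F v → log (Fintype.card (ι → Fin b)) ≤
      (hC.sys hb (fderiv ℝ F v + t • I)).alpha → ∃ j q : ℕ, 1 ≤ q ∧ v ∈ V j q := by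
    intro v hv hal
    obtain ⟨c, hc⟩ := hC.block_entropy hb (fderiv ℝ F v + t • I) hη0
    set j := ⌈‖fderiv ℝ F v + t • I‖⌉₊ with hj
    set const : ℝ := m * log (2 * K j + 1) + 2 + m * log 9 + c with hconst
    obtain ⟨q, hq⟩ := exists_nat_gt (const / η)
    rw [div_lt_iff₀ hη0] at hq
    refine ⟨j, q + 1, by omega, hv, Nat.le_ceil _, fun s hs => ?_⟩
    refine le_trans ?_ (hc (q + 1) ⟨s, hs⟩)
    have h1 : log (Fintype.card (ι → Fin b)) = m * log b := by
      have : (Fintype.card (ι → Fin b) : ℝ) = (b:ℝ) ^ Fintype.card ι := by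
        rw [Fintype.card_pi]; simp
      rw [this, Real.log_pow]
    rw [h1] at hal
    rw [hreq]
    simp only
    have h2 : log ((b ^ (q + 1) : ℕ) : ℝ) = ((q + 1 : ℕ) : ℝ) * log b := by
      push_cast
      rw [Real.log_pow]
      push_cast
      ring
    rw [h2]
    have h3 : (m - σ') * log b = 2 * η := by rw [hη]; ring
    have h4 : ((q + 1 : ℕ) : ℝ) * (m * log b - η) ≤
        ((q + 1 : ℕ) : ℝ) * ((hC.sys hb (fderiv ℝ F v + t • I)).alpha - η) :=
      mul_le_mul_of_nonneg_left (by linarith) (by positivity)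
    have h5 : ((q + 1 : ℕ) : ℝ) * (m * log b - η) = ((q + 1 : ℕ) : ℝ) * (σ' * log b) +
        ((q + 1 : ℕ) : ℝ) * η := by
      have : m * log b = σ' * log b + 2 * η := by linarith
      rw [this]; ring
    have h6 : const < ((q + 1 : ℕ) : ℝ) * η := by
      push_cast
      nlinarith
    rw [hconst] at h6
    nlinarith
  -- a set on which everything is uniform
  set V' : ℕ → ℕ → ℕ → Set (ι → ℝ) := fun j q n0 => {v | v ∈ V j q ∧
    ∀ x : St ι, n0 ≤ x.1 → v ∈ cell (b ^ q) x → ∀ u ∈ cell (b ^ q) x,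
      ‖F u - F (corner (b ^ q) x) - fderiv ℝ F v (u - corner (b ^ q) x)‖ ≤
        ((((b ^ q : ℕ) : ℝ)) ^ (x.1 + 1))⁻¹} with hV'
  obtain ⟨j, q, n0, hq1, hYV⟩ : ∃ j q n0 : ℕ, 1 ≤ q ∧ volume (Y ∩ V' j q n0) ≠ 0 := by
    by_contra hcon
    simp only [not_exists, not_and, not_not] at hcon
    apply hY
    have hnull : volume {v | ¬ (v ∈ cube ι → DifferentiableAt ℝ F v ∧
        log (Fintype.card (ι → Fin b)) ≤ (hC.sys hb (fderiv ℝ F v + t • I)).alpha)} = 0 := by
      have h1 := (ae_restrict_iff' cube_meas).1 (hF.and ht)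
      exact h1
    have hsub : Y ⊆ (⋃ j : ℕ, ⋃ q : ℕ, ⋃ n0 : ℕ, Y ∩ V' j (q + 1) n0) ∪
        {v | ¬ (v ∈ cube ι → DifferentiableAt ℝ F v ∧
        log (Fintype.card (ι → Fin b)) ≤ (hC.sys hb (fderiv ℝ F v + t • I)).alpha)} := by
      intro v hv
      by_cases hg : v ∈ cube ι → DifferentiableAt ℝ F v ∧
        log (Fintype.card (ι → Fin b)) ≤ (hC.sys hb (fderiv ℝ F v + t • I)).alpha
      · left
        obtain ⟨hg1, hg2⟩ := hg (hYc hv)
        obtain ⟨j, q, hq, hvV⟩ := hcover v hg1 hg2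
        obtain ⟨p, rfl⟩ : ∃ p, q = p + 1 := ⟨q - 1, by omega⟩
        have hβ2 : 2 ≤ b ^ (p + 1) := le_trans hb (Nat.le_self_pow (by omega) b)
        obtain ⟨n0, hn0⟩ := cell_diff hg1 hβ2
        exact Set.mem_iUnion.2 ⟨j, Set.mem_iUnion.2 ⟨p, Set.mem_iUnion.2 ⟨n0, hv, hvV, hn0⟩⟩⟩
      · right
        exact hg
    refine measure_mono_null hsub (measure_union_null ?_ hnull)
    rw [measure_iUnion_null_iff]
    intro j
    rw [measure_iUnion_null_iff]
    intro q
    rw [measure_iUnion_null_iff]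
    intro n0
    exact hcon j (q + 1) n0 (by omega)
  have hβ2 : 2 ≤ b ^ q := le_trans hb (Nat.le_self_pow (by omega) b)
  have h1 := frost hβ2 hXm (h := req j q - m * log 9) (R := R + 1 + j) (K := K j) (σ := σ)
    (σ' := σ') (by
      rw [hK]
      push_cast
      have := Nat.le_ceil R
      linarith) hσ0 hσσ' (by
      rw [hreq]
      simp only
      rw [← hm]
      linarith) (Y := Y ∩ V' j q n0) (Set.inter_subset_left.trans hYc) hYV (n0 := n0) (by
      rintro u ⟨huY, huV, hu2⟩ x hx hux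
      have h2 := alive_of hb hC hR hf (F := F) (M := fderiv ℝ F u) (t := t) (q := q)
        (h0 := req j q) huV.2.2 (x := x) (cell_lt (by omega) (hYc huY) hux) (hu2 x hx hux)
      exact h2.mono (by have := huV.2.1; linarith))
  intro h0
  apply h1
  exact measure_mono_null (Set.image_mono Set.inter_subset_left) h0

end Pool.Agent.V7H68.MS
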