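import Pool.Agent.V7H68.MS.Slice
import Pool.Agent.V7H68.SS.Cube

/-!
From images at almost all heights to lines.
-/

namespace Pool.Agent.V7H68.MS

open MeasureTheory Metric Filter SS
open scoped ENNReal Topology

variable {ι : Type} [Fintype ι]

/-- If for almost every height the images of sets of positive outer measure have positive
`σ`-dimensional measure, then almost all lines meet a set whose `σ+1`-dimensional measure is zero
in a null set. -/
theorem lines_of_images {a : (ι → ℝ) → ι → ℝ} (ha : AEMeasurable a (volume.restrict (cube ι)))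
    {σ : ℝ} (hσ : 0 < σ)
    (h : ∀ᵐ t : ℝ, ∀ Y : Set (ι → ℝ), Y ⊆ cube ι → volume Y ≠ 0 →
      μH[σ] ((fun u => a u + t • u) '' Y) ≠ 0)
    {K : Set ((ι → ℝ) × ℝ)} (hK : μH[σ + 1] K = 0) :
    ∀ᵐ v ∂(volume.restrict (cube ι)), volume {t : ℝ | (a v + t • v, t) ∈ K} = 0 := by
  obtain ⟨K', hK1, hK2, hK3⟩ := exists_measurable_superset μH[σ + 1] K
  rw [hK] at hK3
  set a' := ha.mk a with ha'
  have hE : MeasurableSet {p : (ι → ℝ) × ℝ | (a' p.1 + p.2 • p.1, p.2) ∉ K'} := by
    have hm : Measurable fun p : (ι → ℝ) × ℝ => (a' p.1 + p.2 • p.1, p.2) :=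
      ((ha.measurable_mk.comp measurable_fst).add
        (measurable_snd.smul measurable_fst)).prodMk measurable_snd
    exact hm hK2.compl
  have h1 : ∀ᵐ t : ℝ, ∀ᵐ v ∂(volume.restrict (cube ι)), (a' v + t • v, t) ∉ K' := by
    filter_upwards [h, slice hσ hK3] with t ht1 ht2
    have h2 : volume {v | v ∈ cube ι ∧ (a v + t • v, t) ∈ K'} = 0 := by
      by_contra hne
      refine ht1 _ (fun v hv => hv.1) hne (measure_mono_null ?_ ht2)
      rintro _ ⟨v, hv, rfl⟩
      exact hv.2
    have h3 : ∀ᵐ v ∂(volume.restrict (cube ι)), (a v + t • v, t) ∉ K' := by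
      rw [ae_restrict_iff' cube_meas]
      have : {v | ¬ (v ∈ cube ι → (a v + t • v, t) ∉ K')} =
          {v | v ∈ cube ι ∧ (a v + t • v, t) ∈ K'} := by
        ext v
        simp
      rw [ae_iff, this]
      exact h2
    filter_upwards [h3, ha.ae_eq_mk] with v hv1 hv2
    rw [ha', ← hv2]
    exact hv1
  have h2 := (Measure.ae_ae_comm (μ := volume.restrict (cube ι)) (ν := (volume : Measure ℝ))
    (p := fun v t => (a' v + t • v, t) ∉ K') hE).2 h1
  filter_upwards [h2, ha.ae_eq_mk] with v hv1 hv2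
  have h3 : volume {t : ℝ | ¬ (a' v + t • v, t) ∉ K'} = 0 := hv1
  refine measure_mono_null ?_ h3
  intro t ht
  simp only [Set.mem_ofPred_eq, not_not] at ht ⊢
  rw [ha', ← hv2]
  exact hK1 ht

end Pool.Agent.V7H68.MS
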