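import Pool.Agent.V7H68.MS.Never
import Pool.Agent.V7H68.MS.Lines

/-!
The theorem for functions with finitely many zooms plus almost everywhere differentiable ones.
-/

namespace Pool.Agent.V7H68.MS

open Finset Real MeasureTheory SS
open scoped ENNReal NNReal

set_option linter.unusedSectionVars false

variable {ι : Type} [Fintype ι] [DecidableEq ι]

/-- All zooms of a function. -/
def allz (b : ℕ) (g : (ι → ℝ) → ι → ℝ) : Set ((ι → ℝ) → ι → ℝ) :=
  {h | ∃ (k : ℕ) (z : ι → ℕ), (∀ i, z i < b ^ k) ∧ h = zm (b ^ k) z g}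

theorem pre_allz {b : ℕ} (hb : 0 < b) {g : (ι → ℝ) → ι → ℝ}
    (hbd : ∃ R, ∀ v ∈ cube ι, ‖g v‖ ≤ R) (hfin : (allz b g).Finite) : Pre b (allz b g) := by
  obtain ⟨R, hR⟩ := hbd
  refine ⟨hfin, ?_, ?_, ?_, ?_⟩
  · rintro _ ⟨k, z, _, rfl⟩ u hu
    exact zm_of_not_mem hu
  · rintro _ ⟨k, z, _, rfl⟩
    exact zm_zero _ _ _
  · have : Finite ↥(allz b g) := hfin
    have hex : ∀ h : ↥(allz b g), ∃ Rh : ℝ, ∀ u, ‖h.1 u‖ ≤ Rh := by
      rintro ⟨_, k, z, hz, rfl⟩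
      refine ⟨(b:ℝ) ^ k * (R + R), fun u => ?_⟩
      change ‖zm (b ^ k) z g u‖ ≤ _
      have hR0 : 0 ≤ R := (norm_nonneg _).trans (hR 0 zero_mem_cube)
      by_cases hu : u ∈ cube ι
      · rw [zm_of_mem hu, norm_smul]
        push_cast
        rw [Real.norm_of_nonneg (by positivity)]
        refine mul_le_mul_of_nonneg_left ?_ (by positivity)
        have h1 := affine_mem_cube hz hu
        have h2 := corner_mem_cube hz
        push_cast at h1 h2
        exact (norm_sub_le _ _).trans (add_le_add (hR _ h1) (hR _ h2))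
      · rw [zm_of_not_mem hu, norm_zero]
        positivity
    choose Rf hRf using hex
    obtain ⟨M, hM⟩ := Set.finite_range Rf |>.bddAbove
    exact ⟨M, fun h hh u => (hRf ⟨h, hh⟩ u).trans (hM ⟨⟨h, hh⟩, rfl⟩)⟩
  · rintro _ ⟨k, z, hz, rfl⟩ z' hz'
    refine ⟨k + 1, fun i => b * z i + z' i, fun i => ?_, ?_⟩
    · have h1 := hz i
      have h2 := hz' i
      have h3 : b * (z i + 1) ≤ b * b ^ k := Nat.mul_le_mul_left _ h1
      rw [pow_succ]
      nlinarith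
    · rw [zm_zm (by positivity) hb _ _ hz', ← pow_succ]

/-- One cell. -/
theorem images_cell [Nonempty ι] {b k : ℕ} (hb : 2 ≤ b) (hk : 1 ≤ k) {g F : (ι → ℝ) → ι → ℝ}
    (hF : ∀ᵐ v ∂(volume.restrict (cube ι)), DifferentiableAt ℝ F v) {x : St ι}
    (hx : ∀ i, x.2 i < b ^ x.1)
    (hC : ∃ C' : Set ((ι → ℝ) → ι → ℝ), Fam (b ^ k) C' ∧ zm (b ^ x.1) x.2 g ∈ C') :
    ∀ᵐ t : ℝ, ∀ σ : ℝ, 0 ≤ σ → σ < Fintype.card ι → ∀ Y : Set (ι → ℝ), Y ⊆ cube ι →
      Y ⊆ cell b x → volume Y ≠ 0 → μH[σ] ((fun u => g u + F u + t • u) '' Y) ≠ 0 := by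
  obtain ⟨C', hC', hf'⟩ := hC
  have hb' : 0 < b := by omega
  have hb0 : (0:ℝ) < b := by exact_mod_cast hb'
  have hB : 2 ≤ b ^ k := le_trans hb (Nat.le_self_pow (by omega) b)
  obtain ⟨n, z⟩ := x
  simp only at hx hf'
  set N : ℝ := (b:ℝ) ^ n with hN
  have hN0 : 0 < N := by positivity
  have hNc : ((b ^ n : ℕ) : ℝ) = N := by push_cast; rfl
  set A : (ι → ℝ) → ι → ℝ := fun y => N⁻¹ • (nv z + y) with hA
  set F' : (ι → ℝ) → ι → ℝ := fun y => N • F (A y) with hF'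
  have hAcube : ∀ y ∈ cube ι, A y ∈ cube ι := by
    intro y hy
    have := affine_mem_cube hx hy
    rwa [hNc] at this
  have hF'd : ∀ᵐ y ∂(volume.restrict (cube ι)), DifferentiableAt ℝ F' y := by
    rw [ae_restrict_iff' cube_meas] at hF ⊢
    have h1 : volume {v | ¬ (v ∈ cube ι → DifferentiableAt ℝ F v)} = 0 := hF
    have h2 := vol_affine (show 0 < N⁻¹ by positivity) (fun i => - (N⁻¹ * (z i : ℝ)))
      {v | ¬ (v ∈ cube ι → DifferentiableAt ℝ F v)}
    rw [h1, mul_zero] at h2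
    refine measure_mono_null ?_ h2
    intro y hy
    simp only [Set.mem_ofPred_eq, Classical.not_imp] at hy ⊢
    have hAy : (fun i => N⁻¹ * y i - -(N⁻¹ * (z i : ℝ))) = A y := by
      funext i
      simp only [hA, Pi.smul_apply, Pi.add_apply, nv, smul_eq_mul]
      ring
    have hy' := hy
    simp only [Set.mem_compl_iff, Set.mem_ofPred_eq, Classical.not_imp] at hy'
    rw [hAy]
    refine ⟨hAcube y hy'.1, fun hd => hy'.2 ?_⟩
    have hAd : DifferentiableAt ℝ A y := by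
      rw [hA]
      fun_prop
    exact (hd.comp y hAd).const_smul N
  filter_upwards [fam_main hB hC' hf' hF'd] with t ht
  intro σ hσ0 hσ Y hYc hYx hY h0
  set Y' : Set (ι → ℝ) := {y | A y ∈ Y} with hY'
  have hAT : ∀ v : ι → ℝ, A (fun i => N * v i - (z i : ℝ)) = v := by
    intro v
    funext i
    simp only [hA, Pi.smul_apply, Pi.add_apply, nv, smul_eq_mul]
    field_simp
    ring
  have hTA : ∀ y : ι → ℝ, (fun i => N * A y i - (z i : ℝ)) = y := by
    intro y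
    funext i
    simp only [hA, Pi.smul_apply, Pi.add_apply, nv, smul_eq_mul]
    field_simp
    ring
  have hY'c : Y' ⊆ cube ι := by
    intro y hy
    have h1 := hYx hy
    have h2 : (fun i => N * A y i - (z i : ℝ)) ∈ cube ι := h1
    rwa [hTA] at h2
  have hY'0 : volume Y' ≠ 0 := by
    intro h1
    apply hY
    have h2 := vol_affine hN0 (fun i => (z i : ℝ)) Y'
    rw [h1, mul_zero] at h2
    refine measure_mono_null ?_ h2
    intro v hv
    change A (fun i => N * v i - (z i : ℝ)) ∈ Y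
    rw [hAT]
    exact hv
  apply ht σ hσ0 hσ Y' hY'c hY'0
  set c : ι → ℝ := N • g (N⁻¹ • nv z) + t • nv z with hc
  have hsub : (fun u => zm (b ^ n) z g u + F' u + t • u) '' Y' ⊆
      (fun p : ι → ℝ => N • p - c) '' ((fun u => g u + F u + t • u) '' Y) := by
    rintro _ ⟨y, hy, rfl⟩
    refine ⟨_, ⟨A y, hy, rfl⟩, ?_⟩
    simp only
    rw [zm_of_mem (hY'c hy), hNc, hF', hc, smul_add N (g (A y) + F (A y)), smul_add N (g (A y)),
      smul_sub, smul_comm N t (A y)]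
    have h1 : N • A y = nv z + y := by rw [hA]; simp only; rw [smul_smul, mul_inv_cancel₀ hN0.ne', one_smul]
    have h2 : N⁻¹ • (nv z + y) = A y := rfl
    rw [h1, h2, smul_add t]
    abel
  refine measure_mono_null hsub ?_
  have hlip : LipschitzWith N.toNNReal (fun p : ι → ℝ => N • p - c) := by
    refine LipschitzWith.of_dist_le_mul fun p p' => ?_
    rw [dist_eq_norm, dist_eq_norm, Real.coe_toNNReal _ hN0.le]
    have : N • p - c - (N • p' - c) = N • (p - p') := by rw [smul_sub]; abel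
    rw [this, norm_smul, Real.norm_of_nonneg hN0.le]
  have h1 := hlip.hausdorffMeasure_image_le hσ0 ((fun u => g u + F u + t • u) '' Y)
  rw [h0, mul_zero] at h1
  exact le_antisymm h1 zero_le

theorem images_main [Nonempty ι] {b : ℕ} (hb : 2 ≤ b) {g F : (ι → ℝ) → ι → ℝ}
    (hbd : ∃ R, ∀ v ∈ cube ι, ‖g v‖ ≤ R) (hfin : (allz b g).Finite)
    (hF : ∀ᵐ v ∂(volume.restrict (cube ι)), DifferentiableAt ℝ F v) :
    ∀ᵐ t : ℝ, ∀ σ : ℝ, 0 ≤ σ → σ < Fintype.card ι → ∀ Y : Set (ι → ℝ), Y ⊆ cube ι →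
      volume Y ≠ 0 → μH[σ] ((fun u => g u + F u + t • u) '' Y) ≠ 0 := by
  have hb' : 0 < b := by omega
  have hpre := pre_allz hb' hbd hfin
  obtain ⟨k, hk1, hk⟩ := exists_fam hb hpre
  set g0 := zm (b ^ 0) (0 : ι → ℕ) g with hg0
  have hg0m : g0 ∈ allz b g := ⟨0, 0, fun i => by simp, rfl⟩
  have hnull := nev_null hb hpre hk hg0m
  have hzz : ∀ x : St ι, (∀ i, x.2 i < b ^ x.1) → zm (b ^ x.1) x.2 g0 = zm (b ^ x.1) x.2 g := by
    intro x hx
    rw [hg0, zm_zm (by positivity) (by positivity) _ _ hx]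
    congr 1
    · simp
    · funext i
      simp
  have hall : ∀ᵐ t : ℝ, ∀ x : St ι, ((∀ i, x.2 i < b ^ x.1) ∧
      ∃ C' : Set ((ι → ℝ) → ι → ℝ), Fam (b ^ k) C' ∧ zm (b ^ x.1) x.2 g ∈ C') →
      ∀ σ : ℝ, 0 ≤ σ → σ < Fintype.card ι → ∀ Y : Set (ι → ℝ), Y ⊆ cube ι →
      Y ⊆ cell b x → volume Y ≠ 0 → μH[σ] ((fun u => g u + F u + t • u) '' Y) ≠ 0 := by
    rw [ae_all_iff]
    intro x
    by_cases hx : (∀ i, x.2 i < b ^ x.1) ∧
      ∃ C' : Set ((ι → ℝ) → ι → ℝ), Fam (b ^ k) C' ∧ zm (b ^ x.1) x.2 g ∈ C'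
    · filter_upwards [images_cell hb hk1 hF hx.1 hx.2] with t ht _
      exact ht
    · exact Filter.Eventually.of_forall fun t hx' => absurd hx' hx
  filter_upwards [hall] with t ht
  intro σ hσ0 hσ Y hYc hY h0
  apply hY
  have hsub : Y ⊆ Nev b k g0 ∪ ⋃ x : St ι, {v | v ∈ Y ∧ v ∈ cell b x ∧ (∀ i, x.2 i < b ^ x.1) ∧
      ∃ C' : Set ((ι → ℝ) → ι → ℝ), Fam (b ^ k) C' ∧ zm (b ^ x.1) x.2 g ∈ C'} := by
    intro v hv
    by_cases hn : v ∈ Nev b k g0
    · exact Or.inl hn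
    · right
      have h1 : ∃ x : St ι, (∀ i, x.2 i < b ^ x.1) ∧ v ∈ cell b x ∧
          ∃ C' : Set ((ι → ℝ) → ι → ℝ), Fam (b ^ k) C' ∧ zm (b ^ x.1) x.2 g0 ∈ C' := by
        by_contra hcon
        apply hn
        refine ⟨hYc hv, fun x hx hvx hC => hcon ⟨x, hx, hvx, hC⟩⟩
      obtain ⟨x, hx, hvx, hC⟩ := h1
      rw [hzz x hx] at hC
      exact Set.mem_iUnion.2 ⟨x, hv, hvx, hx, hC⟩
  refine measure_mono_null hsub (measure_union_null hnull ?_)
  rw [measure_iUnion_null_iff]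
  intro x
  by_contra hne
  by_cases hx : (∀ i, x.2 i < b ^ x.1) ∧
      ∃ C' : Set ((ι → ℝ) → ι → ℝ), Fam (b ^ k) C' ∧ zm (b ^ x.1) x.2 g ∈ C'
  · refine ht x hx σ hσ0 hσ _ (fun v hv => hYc hv.1) (fun v hv => hv.2.1) hne ?_
    refine measure_mono_null (Set.image_mono ?_) h0
    exact fun v hv => hv.1
  · apply hne
    have : {v | v ∈ Y ∧ v ∈ cell b x ∧ (∀ i, x.2 i < b ^ x.1) ∧
      ∃ C' : Set ((ι → ℝ) → ι → ℝ), Fam (b ^ k) C' ∧ zm (b ^ x.1) x.2 g ∈ C'} = ∅ := by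
      ext v
      simp only [Set.mem_ofPred_eq, Set.mem_empty_iff_false, iff_false]
      exact fun hv => hx hv.2.2
    rw [this, measure_empty]

theorem lines_main [Nonempty ι] {b : ℕ} (hb : 2 ≤ b) {g F : (ι → ℝ) → ι → ℝ}
    (hbd : ∃ R, ∀ v ∈ cube ι, ‖g v‖ ≤ R) (hfin : (allz b g).Finite)
    (hF : ∀ᵐ v ∂(volume.restrict (cube ι)), DifferentiableAt ℝ F v)
    {K : Set ((ι → ℝ) × ℝ)} (hK : dimH K < (Fintype.card ι : ℝ≥0∞) + 1) :
    ∀ᵐ v ∂(volume.restrict (cube ι)), volume {t : ℝ | (g v + F v + t • v, t) ∈ K} = 0 := by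
  have hb' : 0 < b := by omega
  have hpre := pre_allz hb' hbd hfin
  have hgm : AEMeasurable g (volume.restrict (cube ι)) := by
    have h1 : zm (b ^ 0) (0 : ι → ℕ) g ∈ allz b g := ⟨0, 0, fun i => by simp, rfl⟩
    have h2 := (hpre.meas hb h1).add_const (g 0)
    refine ⟨_, h2, ?_⟩
    rw [Filter.EventuallyEq, ae_restrict_iff' cube_meas]
    refine Filter.Eventually.of_forall fun v hv => ?_
    rw [zm_of_mem hv]
    have : nv (0 : ι → ℕ) = 0 := by funext i; simp [nv]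
    rw [this]
    simp
  have ham : AEMeasurable (fun v => g v + F v) (volume.restrict (cube ι)) :=
    hgm.add (aemeasurable_of_diff hF)
  have hm1 : (1:ℝ≥0∞) ≤ (Fintype.card ι : ℝ≥0∞) := by
    exact_mod_cast Fintype.card_pos
  have h1 : max (dimH K) 1 < (Fintype.card ι : ℝ≥0∞) + 1 := by
    refine max_lt hK ?_
    calc (1:ℝ≥0∞) < 1 + 1 := by
          have : (1:ℝ≥0∞) + 1 = 2 := one_add_one_eq_two
          rw [this]; exact ENNReal.one_lt_two
      _ ≤ (Fintype.card ι : ℝ≥0∞) + 1 := by gcongr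
  obtain ⟨d, hd1, hd2⟩ := ENNReal.lt_iff_exists_nnreal_btwn.1 h1
  have hd3 : dimH K < d := (le_max_left _ _).trans_lt hd1
  have hd4 : (1:ℝ≥0) < d := by exact_mod_cast (le_max_right (dimH K) 1).trans_lt hd1
  have hd5 : (d:ℝ) < Fintype.card ι + 1 := by
    have : (d:ℝ≥0∞) < ((Fintype.card ι + 1 : ℕ) : ℝ≥0∞) := by push_cast; exact hd2
    have h2 : d < ((Fintype.card ι + 1 : ℕ) : ℝ≥0) := by exact_mod_cast this
    have h3 : (d:ℝ) < ((Fintype.card ι + 1 : ℕ) : ℝ) := by exact_mod_cast h2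
    push_cast at h3
    exact h3
  have hnull := hausdorffMeasure_of_dimH_lt hd3
  have hd6 : (1:ℝ) < d := by exact_mod_cast hd4
  set σ : ℝ := (d:ℝ) - 1 with hσ
  have hσ0 : 0 < σ := by rw [hσ]; linarith
  have h2 : μH[σ + 1] K = 0 := by
    rw [hσ, sub_add_cancel]
    exact hnull
  refine lines_of_images ham hσ0 ?_ h2
  filter_upwards [images_main hb hbd hfin hF] with t ht
  intro Y hYc hY
  exact ht σ hσ0.le (by rw [hσ]; linarith) Y hYc hY

end Pool.Agent.V7H68.MS
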