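import Pool.Agent.V7H68.MS.Trans
import Pool.Agent.V7H68.MS.Tang

/-!
For almost every pair (height, point) the digit system with the derivative at the point has full
entropy.
-/

namespace Pool.Agent.V7H68.MS

open Finset Real MeasureTheory SS

set_option linter.unusedSectionVars false

section meas

variable {D S : Type} [Fintype D] [Fintype S] [Nonempty D] [Nonempty S] {ι : Type} [Fintype ι]
  {Ω : Type*} [MeasurableSpace Ω]

theorem XW_meas (b : ℕ) (δ : S → D → S) {φ : Ω → S → D → ι → ℝ}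
    (hφ : ∀ s d i, Measurable fun ω => φ ω s d i) (k : ℕ) :
    ∀ (s : S) (w : Fin k → D) (i : ι), Measurable fun ω => XW b δ (φ ω) k s w i := by
  induction k with
  | zero => intro s w i; simp only [XW]; exact measurable_const
  | succ k ih =>
    intro s w i
    simp only [XW, Pi.add_apply, Pi.smul_apply, smul_eq_mul]
    exact ((hφ s (w 0) i).const_mul _).add (ih _ _ i)

theorem det_meas {l : ℕ} {A : Ω → Matrix (Fin l) (Fin l) ℝ}
    (hA : ∀ i j, Measurable fun ω => A ω i j) : Measurable fun ω => (A ω).det := by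
  simp only [Matrix.det_apply]
  refine Finset.measurable_fun_sum _ fun σ _ => ?_
  refine Measurable.const_smul ?_ _
  exact Finset.measurable_fun_prod _ fun i _ => hA _ _

theorem badk_meas (b : ℕ) (δ : S → D → S) {φ : Ω → S → D → ι → ℝ}
    (hφ : ∀ s d i, Measurable fun ω => φ ω s d i) (v : D → ι → ℕ) (s : S) (A k : ℕ) :
    MeasurableSet {p : Ω × ℝ | p.2 ∈ badk b δ (φ p.1) v s A k} := by
  have h1 : {p : Ω × ℝ | p.2 ∈ badk b δ (φ p.1) v s A k} =
      ⋃ l ∈ Finset.range (Fintype.card ι + 1),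
      ⋃ x : (Fin (l + 1) → Fin k → D) × (Fin k → D) × (Fin (l + 1) → ι),
        {p : Ω × ℝ | p.2 ∈ bad1 b δ (φ p.1) v s (((b:ℝ) ^ (A * k))⁻¹) x.1 x.2.1 x.2.2} := by
    ext p
    simp only [badk, Set.mem_ofPred_eq, Set.mem_iUnion]
  rw [h1]
  refine Finset.measurableSet_biUnion _ fun l _ => MeasurableSet.iUnion fun x => ?_
  by_cases hW : (mW b v x.1 x.2.1 x.2.2).det = 0
  · have h2 : {p : Ω × ℝ | p.2 ∈ bad1 b δ (φ p.1) v s (((b:ℝ) ^ (A * k))⁻¹) x.1 x.2.1 x.2.2} =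
        ∅ := by
      ext p
      simp [bad1, hW]
    rw [h2]
    exact MeasurableSet.empty
  · have h2 : {p : Ω × ℝ | p.2 ∈ bad1 b δ (φ p.1) v s (((b:ℝ) ^ (A * k))⁻¹) x.1 x.2.1 x.2.2} =
        {p : Ω × ℝ | |(mA b δ (φ p.1) s x.1 x.2.1 x.2.2 + p.2 • mW b v x.1 x.2.1 x.2.2).det| <
          (((b:ℝ) ^ (A * k))⁻¹) ^ (l + 1)} := by
      ext p
      simp [bad1, hW]
    rw [h2]
    refine measurableSet_lt ?_ measurable_const
    refine continuous_abs.measurable.comp (det_meas fun i j => ?_)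
    simp only [Matrix.add_apply, Matrix.smul_apply, mA, Matrix.of_apply, smul_eq_mul]
    have h3 : Measurable fun p : Ω × ℝ => XW b δ (φ p.1) k s (x.1 i) (x.2.2 j) :=
      (XW_meas b δ hφ k s (x.1 i) (x.2.2 j)).comp measurable_fst
    have h4 : Measurable fun p : Ω × ℝ => XW b δ (φ p.1) k s x.2.1 (x.2.2 j) :=
      (XW_meas b δ hφ k s x.2.1 (x.2.2 j)).comp measurable_fst
    exact (h3.sub h4).add (measurable_snd.mul_const _)

theorem ae_ae_not_bad {b : ℕ} (hb : 2 ≤ b) (δ : S → D → S) {φ : Ω → S → D → ι → ℝ}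
    (hφ : ∀ s d i, Measurable fun ω => φ ω s d i) (v : D → ι → ℕ)
    (s : S) {A : ℕ} (hA : 2 * Fintype.card D ^ (Fintype.card ι + 2) ≤ b ^ A) (μ : Measure Ω)
    [SFinite μ] :
    ∀ᵐ t : ℝ, ∀ᵐ ω ∂μ, ∀ᶠ k in Filter.atTop, t ∉ badk b δ (φ ω) v s A k := by
  have hm : MeasurableSet {p : Ω × ℝ | ∀ᶠ k in Filter.atTop,
      p.2 ∉ badk b δ (φ p.1) v s A k} := by
    have h1 : {p : Ω × ℝ | ∀ᶠ k in Filter.atTop, p.2 ∉ badk b δ (φ p.1) v s A k} =
        ⋃ n : ℕ, ⋂ k : ℕ, ⋂ _ : n ≤ k, {p : Ω × ℝ | p.2 ∈ badk b δ (φ p.1) v s A k}ᶜ := by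
      ext p
      simp [Filter.eventually_atTop]
    rw [h1]
    exact MeasurableSet.iUnion fun n => MeasurableSet.iInter fun k => MeasurableSet.iInter
      fun _ => (badk_meas b δ hφ v s A k).compl
  have h2 := (Measure.ae_ae_comm (μ := μ) (ν := (volume : Measure ℝ))
    (p := fun ω t => ∀ᶠ k in Filter.atTop, t ∉ badk b δ (φ ω) v s A k) hm).1
  exact h2 (Filter.Eventually.of_forall fun ω => ae_not_bad hb δ (φ ω) v s hA)

end meas

variable {ι : Type} [Fintype ι] [DecidableEq ι] {b : ℕ} {C : Set ((ι → ℝ) → ι → ℝ)}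

theorem dv_inj {N : ℕ} : Function.Injective (dv : (ι → Fin N) → ι → ℕ) := by
  intro d d' h
  funext i
  exact Fin.ext (congrFun h i)

theorem ae_alpha_fam [NeZero b] [Fintype ↥C] [Nonempty ↥C] (hb : 2 ≤ b) (h : Fam b C)
    {M : (ι → ℝ) → (ι → ℝ) →L[ℝ] (ι → ℝ)} (hM : Measurable M) :
    ∀ᵐ t : ℝ, ∀ᵐ v ∂(volume.restrict (cube ι)), log (Fintype.card (ι → Fin b)) ≤
      (h.sys hb (M v + t • ContinuousLinearMap.id ℝ (ι → ℝ))).alpha := by
  obtain ⟨A, hA⟩ := exists_A hb (ι → Fin b) ι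
  set φ : (ι → ℝ) → ↥C → (ι → Fin b) → ι → ℝ := fun v s d i =>
    ((b:ℝ) • s.1 ((b:ℝ)⁻¹ • nv (dv d))) i + M v (nv (dv d)) i with hφ
  have hφm : ∀ s d i, Measurable fun ω => φ ω s d i := by
    intro s d i
    rw [hφ]
    simp only
    refine measurable_const.add ?_
    have h1 : Measurable fun v => M v (nv (dv d)) := by
      have h2 : Continuous fun T : (ι → ℝ) →L[ℝ] (ι → ℝ) => T (nv (dv d)) := by fun_prop
      exact h2.measurable.comp hM
    exact (measurable_pi_apply i).comp h1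
  set δ : ↥C → (ι → Fin b) → ↥C := fun s d => ⟨zm b (dv d) s.1, h.closed _ s.2 _ (dv_lt d)⟩
    with hδ
  have h1 := ae_ae_not_bad hb δ hφm (dv : (ι → Fin b) → ι → ℕ) (Classical.arbitrary ↥C) hA
    (volume.restrict (cube ι))
  filter_upwards [h1] with t ht
  filter_upwards [ht] with v hv
  refine not_bad hb (h.sys hb (M v + t • ContinuousLinearMap.id ℝ (ι → ℝ))) (φ v) t ?_
    (fun d i => dv_lt d i) dv_inj (Classical.arbitrary ↥C) A hv
  intro s d i
  change xf b s.1 (M v + t • ContinuousLinearMap.id ℝ (ι → ℝ)) (dv d) i = _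
  unfold xf
  rw [hφ]
  simp [nv, add_assoc]

end Pool.Agent.V7H68.MS
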