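import Pool.Agent.V7H68.MS.Key
import Pool.Agent.V7H68.MS.Bridge
import Pool.Agent.V7H68.SS.Inv

/-!
Invariant directions of Markov systems.
-/

namespace Pool.Agent.V7H68.MS

open Finset Real MeasureTheory SS

set_option linter.unusedSectionVars false

variable {b : ℕ} {D S : Type} [Fintype D] [Fintype S] [Nonempty D] [Nonempty S] {Θ : Type}
  [MeasurableSpace Θ] {ι : Type} [Fintype ι] (G : Sys b D S Θ ι)

/-- Image of a system under a linear map. -/
noncomputable def Sys.map {κ : Type} [Fintype κ] (P : (ι → ℝ) →ₗ[ℝ] (κ → ℝ)) :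
    Sys b D S Θ κ where
  μ := G.μ
  prob := G.prob
  τ := G.τ
  inv := G.inv
  δ := G.δ
  x := fun s d => P (G.x s d)
  Z := fun s θ => P (G.Z s θ)
  meas_Z := fun s => P.continuous_of_finiteDimensional.measurable.comp (G.meas_Z s)
  R := ‖LinearMap.toContinuousLinearMap P‖ * G.R
  bdd := fun s θ => ((LinearMap.toContinuousLinearMap P).le_opNorm (G.Z s θ)).trans
    (mul_le_mul_of_nonneg_left (G.bdd s θ) (norm_nonneg _))
  eqn := fun s d => by
    filter_upwards [G.eqn s d] with θ hθ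
    rw [hθ, map_smul, map_add]
  irr := G.irr

theorem XW_map {κ : Type*} (P : (ι → ℝ) →ₗ[ℝ] (κ → ℝ)) (δ : S → D → S) (x : S → D → ι → ℝ)
    (k : ℕ) : ∀ (s : S) (w : Fin k → D),
    XW b δ (fun s d => P (x s d)) k s w = P (XW b δ x k s w) := by
  induction k with
  | zero => intro s w; simp [XW]
  | succ k ih =>
    intro s w
    simp only [XW, map_add, map_smul, ih]

theorem avg_mixT2 {Ξ Ω : Type*} [Fintype Ξ] [Fintype Ω] (T : Ξ → ι → ℝ)
    (p : Ω → (ι → ℝ) → ℝ) (Y : Ω → ι → ℝ) :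
    avg Finset.univ T (mixT p Y) =
      mixT (fun z : Ξ × Ω => p z.2) (fun z => T z.1 + Y z.2) := by
  funext u
  unfold avg mixT
  rw [Fintype.sum_prod_type]
  refine Finset.sum_congr rfl fun t _ => ?_
  rw [Finset.mul_sum]
  refine Finset.sum_congr rfl fun w _ => ?_
  rw [← mul_assoc]
  congr 1
  · simp only [Finset.card_univ, Fintype.card_prod]
    push_cast
    rw [mul_inv]
  · rw [sub_sub]

theorem Sys.coarse_avg_P (hb : 0 < b) {Ξ : Type*} [Fintype Ξ] (T : Ξ → ι → ℝ)
    (s : S) (k : ℤ) (i : ℕ) :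
    coarse b (avg Finset.univ (fun t => ((b:ℝ) ^ i)⁻¹ • T t) (G.P s (k - i))) =
      avg Finset.univ (fun t => ((b:ℝ) ^ (i + 1))⁻¹ • T t) (G.P s (k - (i + 1 : ℕ))) := by
  rw [coarse_avg hb, G.coarse_P hb]
  congr 1
  · funext t
    rw [smul_smul]
    congr 1
    rw [pow_succ, mul_inv]
    ring
  · congr 1
    push_cast
    ring

theorem Sys.ent_avg_shifts (hb : 0 < b) {Ξ : Type*} [Fintype Ξ] (T : Ξ → ι → ℝ)
    (s : S) (k : ℤ) (r : ℕ) :
    ent (avg Finset.univ T (G.P s k)) =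
      ent (avg Finset.univ (fun t => ((b:ℝ) ^ r)⁻¹ • T t) (G.P s (k - r))) +
      ∑ i ∈ Finset.range r,
        inc b (avg Finset.univ (fun t => ((b:ℝ) ^ i)⁻¹ • T t) (G.P s (k - i))) := by
  induction r with
  | zero => simp
  | succ r ih =>
    rw [ih, Finset.sum_range_succ]
    have : inc b (avg Finset.univ (fun t => ((b:ℝ) ^ r)⁻¹ • T t) (G.P s (k - r))) =
        ent (avg Finset.univ (fun t => ((b:ℝ) ^ r)⁻¹ • T t) (G.P s (k - r))) -
        ent (avg Finset.univ (fun t => ((b:ℝ) ^ (r + 1))⁻¹ • T t)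
          (G.P s (k - (r + 1 : ℕ)))) := by
      unfold inc
      rw [G.coarse_avg_P hb]
    rw [this]
    ring

theorem Sys.inv_upper (hb : 2 ≤ b) {u : ι → ℝ} (hu : G.nn u = 0) : ∃ C : ℝ, ∀ q : ℕ, ∃ s : S,
    ent (avg Finset.univ (fun j : Fin (b ^ q) => ((j : ℕ) : ℝ) • u) (G.P s q)) ≤
      q * G.alpha + C := by
  have hbp : 0 < b := by omega
  have hb0 : (0:ℝ) < b := by exact_mod_cast hbp
  refine ⟨2 + volume.real (Metric.closedBall (0 : ι → ℝ) (1 + G.R + ‖u‖)), fun q => ?_⟩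
  set T : Fin (b ^ q) → ι → ℝ := fun j => ((j : ℕ) : ℝ) • u with hT
  have : Nonempty (Fin (b ^ q)) := ⟨⟨0, pow_pos hbp q⟩⟩
  have hTne : (Finset.univ : Finset (Fin (b ^ q))).Nonempty := Finset.univ_nonempty
  have hlB : 0 ≤ log ((Finset.univ : Finset (Fin (b ^ q))).card : ℝ) :=
    Real.log_nonneg (by exact_mod_cast Finset.card_pos.2 hTne)
  set ε : ℝ := (1 + log ((Finset.univ : Finset (Fin (b ^ q))).card : ℝ))⁻¹ with hε
  have hε0 : 0 < ε := by positivity
  have hnn : ∀ j j', G.nn (T j - T j') = 0 := by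
    intro j j'
    refine le_antisymm ?_ (G.nn_nonneg _)
    have h1 := G.nn_add hbp (T j) (-(T j'))
    rw [← sub_eq_add_neg, G.nn_neg, G.nn_nsmul hbp hu, G.nn_nsmul hbp hu] at h1
    linarith
  have hex : ∀ z : Fin (b ^ q) × Fin (b ^ q), ∃ k0 : ℕ, ∀ (k : ℕ) (s : S),
      k0 ≤ k → nrm (G.P s k) (T z.1 - T z.2) ≤ ε := by
    intro z
    obtain ⟨k0, h⟩ := G.nn_window hbp (T z.1 - T z.2) hε0
    refine ⟨k0, fun k s h1 => ?_⟩
    have := h k s h1
    rw [hnn] at this
    linarith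
  choose K hK using hex
  obtain ⟨k1, hk1⟩ := G.inc_le_alpha hbp (show (0:ℝ) < 1 / (q + 1) by positivity)
  set n := k1 + ∑ z, K z with hn
  set M := q + n with hM
  have hKM : ∀ z, K z ≤ M := fun z => by
    have := Finset.single_le_sum (f := K) (fun _ _ => Nat.zero_le _) (Finset.mem_univ z)
    omega
  set s0 : S := Classical.arbitrary S with hs0
  have hgap : gap Finset.univ T (G.P s0 M) ≤ 1 := by
    refine (gap_le_pair hTne T (G.P_dens hbp _ _).cs (G.P_dens hbp _ _).nonneg).trans ?_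
    have h1 : pairN Finset.univ T (nrm (G.P s0 M)) ≤ ε := by
      unfold pairN
      have hc : (0:ℝ) < ((Finset.univ : Finset (Fin (b ^ q))).card : ℝ) := by
        exact_mod_cast Finset.card_pos.2 hTne
      calc _ ≤ ∑ w ∈ (Finset.univ : Finset (Fin (b ^ q))),
            ((Finset.univ : Finset (Fin (b ^ q))).card : ℝ)⁻¹ *
            ∑ w' ∈ (Finset.univ : Finset (Fin (b ^ q))),
              ((Finset.univ : Finset (Fin (b ^ q))).card : ℝ)⁻¹ * ε := by
            refine Finset.sum_le_sum fun w _ => mul_le_mul_of_nonneg_left ?_ (by positivity)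
            refine Finset.sum_le_sum fun w' _ => mul_le_mul_of_nonneg_left ?_ (by positivity)
            exact hK (w, w') _ _ (hKM _)
        _ = ε := by
            simp only [Finset.sum_const, nsmul_eq_mul]
            field_simp
    calc _ ≤ (1 + log ((Finset.univ : Finset (Fin (b ^ q))).card : ℝ)) * ε :=
          mul_le_mul_of_nonneg_left h1 (by positivity)
      _ = 1 := by rw [hε]; field_simp
  -- big window
  have h1 := G.ent_avg_shifts hbp T s0 M q
  have h2 := G.ent_shifts hbp s0 M q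
  have h3 : ∑ i ∈ Finset.range q, inc b (G.P s0 (M - i)) ≤ q * G.alpha + 1 := by
    have e1 : ∀ i ∈ Finset.range q, inc b (G.P s0 ((M:ℤ) - i)) ≤ G.alpha + 1 / (q + 1) := by
      intro i hi
      rw [Finset.mem_range] at hi
      exact hk1 _ _ (by omega)
    refine (Finset.sum_le_sum e1).trans ?_
    rw [Finset.sum_const, Finset.card_range, nsmul_eq_mul, mul_add]
    have : (q:ℝ) * (1 / (q + 1)) ≤ 1 := by
      rw [mul_one_div, div_le_one (by positivity)]
      linarith
    linarith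
  have h4 : 0 ≤ gap Finset.univ (fun t => ((b:ℝ) ^ q)⁻¹ • T t) (G.P s0 ((M:ℤ) - q)) :=
    gap_nonneg hTne _ (G.P_dens hbp _ _).cs (G.P_dens hbp _ _).nonneg
  -- decomposition along words
  set N : ℝ := (Fintype.card (Fin n → D) : ℝ) with hN
  have hNpos : 0 < N := by rw [hN]; exact_mod_cast Fintype.card_pos
  have h5 : ∀ i ∈ Finset.range q,
      ∑ z : Fin n → D, N⁻¹ * inc b (avg Finset.univ (fun t => ((b:ℝ) ^ i)⁻¹ • T t)
        (G.P (run G.δ n s0 z) ((q:ℤ) - i))) ≤
      inc b (avg Finset.univ (fun t => ((b:ℝ) ^ i)⁻¹ • T t) (G.P s0 ((M:ℤ) - i))) := by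
    intro i _
    have e1 : (M:ℤ) - i = ((q:ℤ) - i) + n := by rw [hM]; push_cast; ring
    rw [e1, G.P_words hbp ((q:ℤ) - i) n s0, avg_mixT]
    exact inc_mixT hbp (fun z => (G.P_dens hbp _ _).avg hTne _) _
  have h6 := Finset.sum_le_sum h5
  rw [Finset.sum_comm] at h6
  have h7 : ∀ z : Fin n → D, ∑ i ∈ Finset.range q,
      N⁻¹ * inc b (avg Finset.univ (fun t => ((b:ℝ) ^ i)⁻¹ • T t)
        (G.P (run G.δ n s0 z) ((q:ℤ) - i))) =
      N⁻¹ * (ent (avg Finset.univ T (G.P (run G.δ n s0 z) q)) -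
        ent (avg Finset.univ (fun t => ((b:ℝ) ^ q)⁻¹ • T t)
          (G.P (run G.δ n s0 z) ((q:ℤ) - q)))) := by
    intro z
    rw [← Finset.mul_sum, G.ent_avg_shifts hbp T (run G.δ n s0 z) q q]
    ring
  rw [Finset.sum_congr rfl fun z _ => h7 z] at h6
  have h8 : ∀ s, ent (avg Finset.univ (fun t => ((b:ℝ) ^ q)⁻¹ • T t) (G.P s ((q:ℤ) - q))) ≤
      volume.real (Metric.closedBall (0 : ι → ℝ) (1 + G.R + ‖u‖)) := by
    intro s
    refine ent_le_vol ((G.P_dens hbp _ _).avg hTne _) ?_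
    refine avg_supp _ _ ?_ ?_
    · rw [sub_self]
      exact fun v hv => G.P_supp s 0 hbp (by simpa using hv)
    · intro t _
      rw [hT]
      simp only
      rw [smul_smul, norm_smul]
      have ht : ((t : ℕ) : ℝ) ≤ (b:ℝ) ^ q := by exact_mod_cast t.2.le
      have : ‖((b:ℝ) ^ q)⁻¹ * ((t:ℕ):ℝ)‖ ≤ 1 := by
        rw [Real.norm_of_nonneg (by positivity), inv_mul_le_iff₀ (by positivity), mul_one]
        exact ht
      nlinarith [norm_nonneg u]
  by_contra hcon
  push Not at hcon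
  have h9 : ∀ z ∈ (Finset.univ : Finset (Fin n → D)),
      N⁻¹ * (q * G.alpha + 2) < N⁻¹ * (ent (avg Finset.univ T (G.P (run G.δ n s0 z) q)) -
        ent (avg Finset.univ (fun t => ((b:ℝ) ^ q)⁻¹ • T t)
          (G.P (run G.δ n s0 z) ((q:ℤ) - q)))) := by
    intro z _
    refine mul_lt_mul_of_pos_left ?_ (by positivity)
    have e1 := h8 (run G.δ n s0 z)
    have e2 := hcon (run G.δ n s0 z)
    linarith
  have h10 := Finset.sum_lt_sum_of_nonempty (Finset.univ_nonempty) h9
  rw [sum_inv_card] at h10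
  unfold gap at hgap h4
  linarith

theorem Sys.inv_lower (hb : 2 ≤ b) [DecidableEq ι] {u : ι → ℝ} {p : ι} (hp : 1 ≤ |u p|) :
    ∃ C : ℝ, ∀ (q : ℕ) (s : S),
    q * log b + ent ((G.map (prj u p)).P s q) ≤
    ent (avg Finset.univ (fun j : Fin (b ^ q) => ((j : ℕ) : ℝ) • u) (G.P s q)) + C := by
  classical
  have hbp : 0 < b := by omega
  have hb0 : (0:ℝ) < b := by exact_mod_cast hbp
  have hup : u p ≠ 0 := by
    intro h
    rw [h] at hp
    norm_num at hp
  set G' := G.map (prj u p) with hG'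
  have hR := G.R0
  have hR' := G'.R0
  obtain ⟨K, hK⟩ := exists_nat_ge ((1 + ‖u‖) * 1 + 1)
  obtain ⟨K1, hK1⟩ := exists_nat_ge (1 + G.R + 1)
  set M : ℝ := (2 * K + 1) ^ Fintype.card {i // i ≠ p} with hM
  have hM0 : 0 < M := by positivity
  refine ⟨(2 * (1 + G'.R + 2)) ^ Fintype.card {i // i ≠ p} + log M +
    Fintype.card ι * log (2 * K1 + 1), fun q s => ?_⟩
  have hbq : 0 < b ^ q := pow_pos hbp q
  have : Nonempty (Fin (b ^ q)) := ⟨⟨0, hbq⟩⟩
  set T : Fin (b ^ q) → ι → ℝ := fun j => ((j : ℕ) : ℝ) • u with hT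
  have e1 := G.P_words hbp 0 q s
  simp only [zpow_zero, one_smul, zero_add] at e1
  have e1' := G'.P_words hbp 0 q s
  simp only [zpow_zero, one_smul, zero_add] at e1'
  rw [e1, avg_mixT2, e1']
  set Y : Fin (b ^ q) × (Fin q → D) → ι → ℝ := fun z => T z.1 + XW b G.δ G.x q s z.2 with hY
  have h1 := mix_lower (fun z : Fin (b ^ q) × (Fin q → D) => G.P_dens hbp (run G.δ q s z.2) 0)
    (R := 1 + G.R) (fun z u hu => G.P_supp _ 0 hbp (by simpa using hu)) hK1 Y
  have h2 := mix_upper (fun w : Fin q → D => G'.P_dens hbp (run G'.δ q s w) 0)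
    (R := 1 + G'.R) (by linarith) (fun w u hu => G'.P_supp _ 0 hbp (by simpa using hu))
    (fun w => XW b G'.δ G'.x q s w)
  set N : ℝ := (Fintype.card (Fin q → D) : ℝ) with hN
  have hNpos : 0 < N := by rw [hN]; exact_mod_cast Fintype.card_pos
  set F' : (Fin q → D) → {i // i ≠ p} → ℤ := fun w => fl (XW b G'.δ G'.x q s w) with hF'
  set Rl : (Fin q → D) → (Fin q → D) → Prop := fun v w => ∀ j, |F' w j - F' v j| ≤ K with hRl
  set nr : (Fin q → D) → ℝ := fun w => ((Finset.univ.filter (fun v => Rl v w)).card : ℝ) with hnr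
  have hnrpos : ∀ w, 0 < nr w := by
    intro w
    rw [hnr]
    simp only
    have : 0 < (Finset.univ.filter (fun v => Rl v w)).card := by
      rw [Finset.card_pos]
      exact ⟨w, by simp [hRl]⟩
    exact_mod_cast this
  have hsum : ∑ w, nr w / (cls F' w).card ≤ N * M := by
    refine sum_rel_le F' Rl (fun v => Fintype.piFinset fun j =>
      Finset.Icc (F' v j - K) (F' v j + K)) (fun v w hvw => ?_) (fun v => ?_)
    · rw [Fintype.mem_piFinset]
      intro j
      rw [Finset.mem_Icc]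
      have := abs_le.1 (hvw j)
      constructor <;> omega
    · rw [hM, card_box]
  have hlog := mean_log_le F' hnrpos hM0 hsum
  -- class sizes in the product
  have hcls : ∀ z : Fin (b ^ q) × (Fin q → D),
      ((cls (fun z => fl (Y z)) z).card : ℝ) ≤ nr z.2 := by
    intro z
    rw [hnr]
    simp only
    refine Nat.cast_le.2 ?_
    refine Finset.card_le_card_of_injOn (fun z => z.2) ?_ ?_
    · intro z' hz'
      have hz1 : fl (Y z') = fl (Y z) :=
        (mem_cls (F := fun z => fl (Y z))).1 (Finset.mem_coe.1 hz')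
      have h3 := norm_sub_le_of_fl2 hz1.symm
      simp only [Finset.coe_filter, Finset.mem_univ, true_and, Set.mem_ofPred_eq, hRl]
      intro j
      have h4 : ‖XW b G'.δ G'.x q s z.2 - XW b G'.δ G'.x q s z'.2‖ ≤ (1 + ‖u‖) * 1 := by
        have e2 : ∀ w, XW b G'.δ G'.x q s w = prj u p (XW b G.δ G.x q s w) := fun w =>
          XW_map (prj u p) G.δ G.x q s w
        rw [e2, e2, ← map_sub]
        have h5 : prj u p (XW b G.δ G.x q s z.2 - XW b G.δ G.x q s z'.2) =
            prj u p (Y z - Y z') := by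
          rw [hY]
          simp only [hT, map_sub, map_add, prj_self hup]
          abel
        rw [h5]
        refine (prj_norm hp _).trans (mul_le_mul_of_nonneg_left h3 (by positivity))
      refine fl_near (K := K) ?_ j
      linarith
    · intro z1 hz1 z2 hz2 h12
      have e1 : fl (Y z1) = fl (Y z) := (mem_cls (F := fun z => fl (Y z))).1 (Finset.mem_coe.1 hz1)
      have e2 : fl (Y z2) = fl (Y z) := (mem_cls (F := fun z => fl (Y z))).1 (Finset.mem_coe.1 hz2)
      have e3 : ⌊Y z1 p⌋ = ⌊Y z2 p⌋ := congrFun (e1.trans e2.symm) p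
      have e4 := Int.abs_sub_lt_one_of_floor_eq_floor e3
      have e5 : Y z1 p - Y z2 p = (((z1.1 : ℕ) : ℝ) - ((z2.1 : ℕ) : ℝ)) * u p := by
        rw [hY]
        simp only [hT, Pi.add_apply, Pi.smul_apply, smul_eq_mul]
        simp only at h12
        rw [h12]
        ring
      rw [e5, abs_mul] at e4
      have e6 : |((z1.1 : ℕ) : ℝ) - ((z2.1 : ℕ) : ℝ)| < 1 := by
        by_contra hcon
        rw [not_lt] at hcon
        nlinarith [abs_nonneg (u p)]
      have e7 : (z1.1 : ℕ) = (z2.1 : ℕ) := by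
        have e8 : |(((z1.1 : ℕ) : ℤ) - ((z2.1 : ℕ) : ℤ) : ℤ)| < 1 := by exact_mod_cast e6
        rw [Int.abs_lt_one_iff] at e8
        omega
      exact Prod.ext (Fin.ext e7) h12
  have hhf : hf (fun z => fl (Y z)) ≤ ∑ w, N⁻¹ * log (nr w) := by
    unfold hf
    have h3 : ∀ z : Fin (b ^ q) × (Fin q → D), z ∈ (Finset.univ : Finset _) →
        (Fintype.card (Fin (b ^ q) × (Fin q → D)) : ℝ)⁻¹ *
          log ((cls (fun z => fl (Y z)) z).card) ≤
        (Fintype.card (Fin (b ^ q) × (Fin q → D)) : ℝ)⁻¹ * log (nr z.2) := fun z _ =>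
      mul_le_mul_of_nonneg_left (Real.log_le_log (cls_pos _ z) (hcls z)) (by positivity)
    refine (Finset.sum_le_sum h3).trans (le_of_eq ?_)
    rw [Fintype.sum_prod_type]
    simp only [Finset.sum_const, Finset.card_univ, Fintype.card_fin, nsmul_eq_mul]
    rw [Finset.mul_sum]
    refine Finset.sum_congr rfl fun w _ => ?_
    rw [Fintype.card_prod, Fintype.card_fin]
    push_cast
    rw [← hN, mul_inv]
    field_simp
  have hcard : log (Fintype.card (Fin (b ^ q) × (Fin q → D))) = q * log b + log N := by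
    rw [Fintype.card_prod, Fintype.card_fin]
    push_cast
    rw [Real.log_mul (by positivity) (by rw [← hN]; exact hNpos.ne'), Real.log_pow]
  rw [hcard] at h1
  linarith

/-- The entropy rate splits along an asymptotically invariant direction. -/
theorem Sys.alpha_split (hb : 2 ≤ b) [DecidableEq ι] {u : ι → ℝ} {p : ι} (hp : 1 ≤ |u p|)
    (hu : G.nn u = 0) : log b + (G.map (prj u p)).alpha ≤ G.alpha := by
  obtain ⟨C1, h1⟩ := G.inv_upper hb hu
  obtain ⟨C2, h2⟩ := G.inv_lower hb hp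
  refine le_of_forall_pos_le_add fun η hη => ?_
  obtain ⟨C3, -, h3⟩ := (G.map (prj u p)).ent_lower (by omega) (half_pos hη)
  obtain ⟨q, hq⟩ := exists_nat_ge ((|C1| + |C2| + |C3|) * 2 / η + 1)
  have hq0 : (0:ℝ) < q := by
    have : 0 ≤ (|C1| + |C2| + |C3|) * 2 / η := by positivity
    linarith
  obtain ⟨s, h4⟩ := h1 q
  have h5 := h2 q s
  have h6 := h3 q s
  have h7 : C1 + C2 + C3 ≤ q * (η / 2) := by
    have h8 : (|C1| + |C2| + |C3|) * 2 / η ≤ q := by linarith
    rw [div_le_iff₀ hη] at h8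
    have := le_abs_self C1
    have := le_abs_self C2
    have := le_abs_self C3
    linarith
  have h8 : q * (log b + (G.map (prj u p)).alpha) ≤ q * (G.alpha + η) := by
    linarith
  exact le_of_mul_le_mul_left h8 hq0

end Pool.Agent.V7H68.MS
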