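import Pool.Agent.V7H68.MS.Alpha

/-!
The key lemma for Markov systems.
-/

namespace Pool.Agent.V7H68.MS

open Finset Real MeasureTheory SS

set_option linter.unusedSectionVars false

variable {b : ℕ} {D S : Type} [Fintype D] [Fintype S] [Nonempty D] [Nonempty S] {Θ : Type}
  [MeasurableSpace Θ] {ι : Type} [Fintype ι] (G : Sys b D S Θ ι)

/-- Infimum of the translation norms. -/
noncomputable def Sys.ns (y : ι → ℝ) : ℝ := ⨅ z : ℕ × S, nrm (G.P z.2 z.1) y

theorem Sys.ns_bdd (y : ι → ℝ) : BddBelow (Set.range fun z : ℕ × S => nrm (G.P z.2 z.1) y) :=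
  ⟨0, by rintro _ ⟨z, rfl⟩; exact nrm_nonneg _ _⟩

theorem Sys.ns_nonneg (y : ι → ℝ) : 0 ≤ G.ns y := le_ciInf fun _ => nrm_nonneg _ _

theorem Sys.ns_le (k : ℕ) (s : S) (y : ι → ℝ) : G.ns y ≤ nrm (G.P s k) y :=
  ciInf_le (G.ns_bdd y) (k, s)

theorem nrm_sub_le {p : (ι → ℝ) → ℝ} (hp : CS p) (x y : ι → ℝ) :
    nrm p x ≤ nrm p y + nrm p (x - y) := by
  have h := nrm_add hp (x - y) y
  rw [sub_add_cancel] at h
  linarith

theorem Sys.ns_cont (hb : 2 ≤ b) : Continuous G.ns := by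
  have key : ∀ x y : ι → ℝ, ‖x - y‖ < 1 → G.ns x ≤ G.ns y + KK ι * ‖x - y‖ := by
    intro x y hxy
    have h1 : ∀ z : ℕ × S, G.ns x - KK ι * ‖x - y‖ ≤ nrm (G.P z.2 z.1) y := by
      intro z
      have h2 := G.ns_le z.1 z.2 x
      have h3 := nrm_sub_le (G.P_dens (by omega) z.2 z.1).cs x y
      have h4 := G.nrm_small hb z.2 z.1 hxy
      linarith
    have h2 : G.ns x - KK ι * ‖x - y‖ ≤ G.ns y := le_ciInf h1
    linarith
  rw [Metric.continuous_iff]
  intro x ε hε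
  have hK := KK_nonneg ι
  refine ⟨min 1 (ε / (KK ι + 1)), by positivity, fun y hy => ?_⟩
  rw [dist_eq_norm] at hy
  have h1 : ‖y - x‖ < 1 := hy.trans_le (min_le_left _ _)
  have h2 : ‖y - x‖ < ε / (KK ι + 1) := hy.trans_le (min_le_right _ _)
  have h3 : KK ι * ‖y - x‖ < ε := by
    rw [lt_div_iff₀ (by linarith)] at h2
    nlinarith [norm_nonneg (y - x)]
  rw [Real.dist_eq, abs_lt]
  have h4 := key y x h1
  have h5 := key x y (by rw [norm_sub_rev]; exact h1)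
  rw [norm_sub_rev] at h5
  constructor <;> linarith

/-- Largest translation norm over the states. -/
noncomputable def Sys.amx (k : ℕ) (y : ι → ℝ) : ℝ := ⨆ s : S, nrm (G.P s k) y

theorem Sys.le_amx (k : ℕ) (s : S) (y : ι → ℝ) : nrm (G.P s k) y ≤ G.amx k y :=
  le_ciSup (Set.finite_range fun s => nrm (G.P s k) y).bddAbove s

theorem Sys.amx_step (hb : 0 < b) (k : ℕ) (s : S) (y : ι → ℝ) :
    G.amx (k + 1) y ≤ (1 - (Fintype.card D : ℝ)⁻¹) * G.amx k y +
      (Fintype.card D : ℝ)⁻¹ * nrm (G.P s k) y := by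
  classical
  refine ciSup_le fun s' => ?_
  obtain ⟨d0, hd0⟩ := G.irr s' s
  have hN : (0:ℝ) < Fintype.card D := by exact_mod_cast Fintype.card_pos
  have h1 : ((k + 1 : ℕ) : ℤ) = (k : ℤ) + 1 := by push_cast; ring
  rw [h1, G.P_succ hb]
  refine (nrm_mixT (fun d => G.P_dens hb _ _) _ y).trans ?_
  rw [← Finset.add_sum_erase _ _ (Finset.mem_univ d0), hd0, add_comm]
  refine add_le_add ?_ le_rfl
  have h2 : ∀ d ∈ Finset.univ.erase d0, (Fintype.card D : ℝ)⁻¹ * nrm (G.P (G.δ s' d) k) y ≤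
      (Fintype.card D : ℝ)⁻¹ * G.amx k y := fun d _ =>
    mul_le_mul_of_nonneg_left (G.le_amx k _ y) (by positivity)
  refine (Finset.sum_le_sum h2).trans (le_of_eq ?_)
  rw [Finset.sum_const, Finset.card_erase_of_mem (Finset.mem_univ _), Finset.card_univ,
    nsmul_eq_mul, Nat.cast_sub (Fintype.card_pos)]
  field_simp
  push_cast
  ring

theorem Sys.amx_nonneg (k : ℕ) (y : ι → ℝ) : 0 ≤ G.amx k y :=
  (nrm_nonneg _ _).trans (G.le_amx k (Classical.arbitrary S) y)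

theorem Sys.amx_anti (hb : 0 < b) (y : ι → ℝ) : Antitone fun k => G.amx k y := by
  refine antitone_nat_of_succ_le fun k => ?_
  obtain ⟨s⟩ := (inferInstance : Nonempty S)
  refine (G.amx_step hb k s y).trans ?_
  have h1 := G.le_amx k s y
  have h2 : (0:ℝ) ≤ (Fintype.card D : ℝ)⁻¹ := by positivity
  nlinarith

/-- Limit of the largest translation norm. -/
noncomputable def Sys.nn (y : ι → ℝ) : ℝ := ⨅ k : ℕ, G.amx k y

theorem Sys.nn_bdd (y : ι → ℝ) : BddBelow (Set.range fun k : ℕ => G.amx k y) :=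
  ⟨0, by rintro _ ⟨k, rfl⟩; exact G.amx_nonneg k y⟩

theorem Sys.nn_nonneg (y : ι → ℝ) : 0 ≤ G.nn y := le_ciInf fun _ => G.amx_nonneg _ _

theorem Sys.nn_window (hb : 0 < b) (y : ι → ℝ) {ε : ℝ} (hε : 0 < ε) : ∃ k0 : ℕ, ∀ (k : ℕ) (s : S),
    k0 ≤ k → nrm (G.P s k) y ≤ G.nn y + ε := by
  obtain ⟨k0, hk0⟩ := exists_lt_of_ciInf_lt (show G.nn y < G.nn y + ε by linarith)
  exact ⟨k0, fun k s h => (G.le_amx k s y).trans ((G.amx_anti hb y h).trans hk0.le)⟩

theorem Sys.nn_le (k : ℕ) (y : ι → ℝ) : G.nn y ≤ G.amx k y := ciInf_le (G.nn_bdd y) k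

theorem Sys.nn_add (hb : 0 < b) (x y : ι → ℝ) : G.nn (x + y) ≤ G.nn x + G.nn y := by
  refine le_of_forall_pos_le_add fun ε hε => ?_
  obtain ⟨k1, h1⟩ := G.nn_window hb x (half_pos hε)
  obtain ⟨k2, h2⟩ := G.nn_window hb y (half_pos hε)
  refine (G.nn_le (max k1 k2) (x + y)).trans ?_
  refine ciSup_le fun s => ?_
  have e1 := h1 (max k1 k2) s (le_max_left _ _)
  have e2 := h2 (max k1 k2) s (le_max_right _ _)
  have e3 := nrm_add (G.P_dens hb s (max k1 k2 : ℕ)).cs x y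
  linarith

theorem Sys.nn_neg (y : ι → ℝ) : G.nn (-y) = G.nn y := by
  unfold Sys.nn Sys.amx
  simp only [nrm_neg]

theorem Sys.nn_nsmul (hb : 0 < b) {u : ι → ℝ} (hu : G.nn u = 0) (j : ℕ) :
    G.nn ((j:ℝ) • u) = 0 := by
  induction j with
  | zero =>
    refine le_antisymm ?_ (G.nn_nonneg _)
    refine (G.nn_le 0 _).trans (ciSup_le fun s => le_of_eq ?_)
    simp [nrm_zero]
  | succ j ih =>
    refine le_antisymm ?_ (G.nn_nonneg _)
    have : ((j + 1 : ℕ) : ℝ) • u = (j:ℝ) • u + u := by push_cast; rw [add_smul, one_smul]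
    rw [this]
    have := G.nn_add hb ((j:ℝ) • u) u
    linarith

/-- A density is not invariant under a nonzero translation. -/
theorem nrm_ne_zero {p : (ι → ℝ) → ℝ} (hp : Dens p) {u : ι → ℝ} (hu : u ≠ 0) : nrm p u ≠ 0 := by
  intro h
  have h1 : ∀ j : ℕ, nrm p ((j:ℝ) • u) = 0 := by
    intro j
    induction j with
    | zero => simp [nrm_zero]
    | succ j ih =>
      refine le_antisymm ?_ (nrm_nonneg _ _)
      have : ((j + 1 : ℕ) : ℝ) • u = (j:ℝ) • u + u := by push_cast; rw [add_smul, one_smul]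
      rw [this]
      have := nrm_add hp.cs ((j:ℝ) • u) u
      linarith
  obtain ⟨R, hR⟩ := hp.cs.supp
  have hun : 0 < ‖u‖ := norm_pos_iff.2 hu
  obtain ⟨j, hj⟩ := exists_nat_gt (2 * R / ‖u‖)
  rw [div_lt_iff₀ hun] at hj
  have h2 := h1 j
  have h3 : ∀ v, |p (v - (j:ℝ) • u) - p v| = p (v - (j:ℝ) • u) + p v := by
    intro v
    have h4 := hp.nonneg v
    have h5 := hp.nonneg (v - (j:ℝ) • u)
    by_cases hv : R < ‖v‖
    · rw [hR v hv, sub_zero, add_zero, abs_of_nonneg h5]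
    · have : R < ‖v - (j:ℝ) • u‖ := by
        have h6 := norm_sub_norm_le ((j:ℝ) • u) v
        rw [norm_smul, Real.norm_of_nonneg (by positivity), norm_sub_rev] at h6
        linarith
      rw [hR _ this, zero_sub, zero_add, abs_neg, abs_of_nonneg h4]
  unfold nrm at h2
  simp only [h3] at h2
  rw [integral_add (hp.cs.comp_sub _).integrable hp.cs.integrable, integral_comp_sub,
    hp.mass] at h2
  norm_num at h2

/-- If the infimum vanishes at a nonzero vector, so does the limit. -/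
theorem Sys.nn_of_ns (hb : 0 < b) {u : ι → ℝ} (hu : u ≠ 0) (h : G.ns u = 0) : G.nn u = 0 := by
  by_contra hne
  have hpos : 0 < G.nn u := lt_of_le_of_ne (G.nn_nonneg u) (Ne.symm hne)
  have hN : (1:ℝ) ≤ Fintype.card D := by exact_mod_cast Fintype.card_pos
  set c0 : ℝ := (Fintype.card D : ℝ)⁻¹ with hc0
  have hc0p : 0 < c0 := by positivity
  have hc01 : c0 ≤ 1 := inv_le_one_of_one_le₀ hN
  obtain ⟨k1, hk1⟩ := exists_lt_of_ciInf_lt
    (show G.nn u < G.nn u + c0 * (G.nn u / 2) by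
      have : 0 < c0 * (G.nn u / 2) := by positivity
      linarith)
  have hlarge : ∀ k s, k1 ≤ k → G.nn u / 2 ≤ nrm (G.P s k) u := by
    intro k s hk
    have e1 := G.amx_step hb k s u
    have e2 := G.nn_le (k + 1) u
    have e3 : G.amx k u ≤ G.nn u + c0 * (G.nn u / 2) := (G.amx_anti hb u hk).trans hk1.le
    have e4 : (1 - c0) * G.amx k u ≤ (1 - c0) * (G.nn u + c0 * (G.nn u / 2)) :=
      mul_le_mul_of_nonneg_left e3 (by linarith)
    have e5 : c0 * (G.nn u / 2) ≤ c0 * nrm (G.P s k) u := by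
      have e6 : 0 ≤ c0 * c0 * (G.nn u / 2) := by positivity
      nlinarith
    exact le_of_mul_le_mul_left e5 hc0p
  -- finitely many small scales
  obtain ⟨m0, hm0, hm⟩ : ∃ m0 : ℝ, 0 < m0 ∧ ∀ (k : ℕ) (s : S), k < k1 →
      m0 ≤ nrm (G.P s k) u := by
    rcases (Nat.eq_zero_or_pos k1) with h0 | h0
    · exact ⟨1, one_pos, fun k s hk => by omega⟩
    · have hfin : (Set.univ : Set (Fin k1 × S)).Finite := Set.toFinite _
      have hne' : (Finset.univ : Finset (Fin k1 × S)).Nonempty :=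
        ⟨(⟨0, h0⟩, Classical.arbitrary S), Finset.mem_univ _⟩
      obtain ⟨z, -, hz⟩ := Finset.exists_min_image Finset.univ
        (fun z : Fin k1 × S => nrm (G.P z.2 (z.1 : ℕ)) u) hne'
      refine ⟨nrm (G.P z.2 (z.1 : ℕ)) u, lt_of_le_of_ne (nrm_nonneg _ _)
        (Ne.symm (nrm_ne_zero (G.P_dens hb _ _) hu)), fun k s hk => ?_⟩
      exact hz (⟨k, hk⟩, s) (Finset.mem_univ _)
  have hlow : min m0 (G.nn u / 2) ≤ G.ns u := by
    refine le_ciInf fun z => ?_
    rcases lt_or_ge z.1 k1 with hz | hz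
    · exact (min_le_left _ _).trans (hm z.1 z.2 hz)
    · exact (min_le_right _ _).trans (hlarge z.1 z.2 hz)
  rw [h] at hlow
  have : 0 < min m0 (G.nn u / 2) := lt_min hm0 (by linarith)
  linarith

theorem Sys.key_step (hb : 0 < b) {η : ℝ} {k0 k : ℕ} {i : ℤ} (s : S) (hi : (k0 : ℤ) ≤ i)
    (h1 : ∀ (k : ℤ) (s : S), (k0 : ℤ) ≤ k → G.alpha - η ≤ inc b (G.P s k))
    (h2 : ∀ (k : ℤ) (s : S), (k0 : ℤ) ≤ k → inc b (G.P s k) ≤ G.alpha + η)
    {κ : Type*} [DecidableEq κ] (F : (Fin k → D) → κ)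
    (hF : ∀ w w', F w = F w' → run G.δ k s w = run G.δ k s w') :
    ∑ w, (Fintype.card (Fin k → D) : ℝ)⁻¹ * gap (cls F w)
        (fun v => (b:ℝ) ^ i • XW b G.δ G.x k s v) (G.P (run G.δ k s w) i) ≤
      ∑ w, (Fintype.card (Fin k → D) : ℝ)⁻¹ * gap (cls F w)
        (fun v => (b:ℝ) ^ (i - 1) • XW b G.δ G.x k s v) (G.P (run G.δ k s w) (i - 1))
      + 2 * η := by
  have hb' : (b:ℝ) ≠ 0 := by exact_mod_cast hb.ne'
  set N : ℝ := (Fintype.card (Fin k → D) : ℝ) with hN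
  have hNpos : 0 < N := by rw [hN]; exact_mod_cast Fintype.card_pos
  set Y : (Fin k → D) → ι → ℝ := fun v => (b:ℝ) ^ i • XW b G.δ G.x k s v with hY
  have e1 : ∀ w, gap (cls F w) Y (G.P (run G.δ k s w) i) -
      gap (cls F w) (fun v => (b:ℝ) ^ (i - 1) • XW b G.δ G.x k s v)
        (G.P (run G.δ k s w) (i - 1)) =
      inc b (avg (cls F w) Y (G.P (run G.δ k s w) i)) - inc b (G.P (run G.δ k s w) i) := by
    intro w
    rw [inc_gap hb, G.coarse_P hb]
    congr 2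
    funext v
    rw [hY]
    simp only
    rw [smul_smul]
    congr 1
    rw [zpow_sub_one₀ hb']
    ring
  have e2 : ∑ w ∈ (Finset.univ : Finset (Fin k → D)),
      N⁻¹ * inc b (avg (cls F w) Y (G.P (run G.δ k s w) i)) ≤ inc b (G.P s (i + k)) := by
    rw [G.P_words hb i k s, mixT_cls F (fun w w' h => by rw [hF w w' h])]
    exact inc_mix hb _ (fun _ _ => by positivity) (fun w _ => (G.P_dens hb _ _).cs.avg _ _)
      (fun w _ => avg_nonneg _ _ (G.P_dens hb _ _).nonneg)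
  have e3 := h2 (i + k) s (by omega)
  have e4 : G.alpha - η ≤ ∑ w ∈ (Finset.univ : Finset (Fin k → D)),
      N⁻¹ * inc b (G.P (run G.δ k s w) i) := by
    have := sum_inv_card (Ω := Fin k → D) (G.alpha - η)
    rw [← this]
    exact Finset.sum_le_sum fun w _ => mul_le_mul_of_nonneg_left (h1 _ _ hi) (by positivity)
  have h6 : ∑ w, N⁻¹ * gap (cls F w) Y (G.P (run G.δ k s w) i) - ∑ w, N⁻¹ * gap (cls F w)
        (fun v => (b:ℝ) ^ (i - 1) • XW b G.δ G.x k s v) (G.P (run G.δ k s w) (i - 1)) =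
      ∑ w ∈ (Finset.univ : Finset (Fin k → D)),
        N⁻¹ * inc b (avg (cls F w) Y (G.P (run G.δ k s w) i)) -
        ∑ w ∈ (Finset.univ : Finset (Fin k → D)), N⁻¹ * inc b (G.P (run G.δ k s w) i) := by
    rw [← Finset.sum_sub_distrib, ← Finset.sum_sub_distrib]
    refine Finset.sum_congr rfl fun w _ => ?_
    rw [← mul_sub, ← mul_sub, e1 w]
  linarith

/-- The key lemma. -/
theorem Sys.key (hb : 2 ≤ b) {ε : ℝ} (hε : 0 < ε) : ∃ i0 : ℕ, ∀ (k i : ℕ), i0 ≤ i → ∀ s : S,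
    ∀ (κ : Type) [DecidableEq κ] (F : (Fin k → D) → κ),
    (∀ w w', F w = F w' → run G.δ k s w = run G.δ k s w' ∧
      ‖(b:ℝ) ^ i • (XW b G.δ G.x k s w - XW b G.δ G.x k s w')‖ ≤ 1) →
    ∑ w, (Fintype.card (Fin k → D) : ℝ)⁻¹ *
      pairN (cls F w) (fun v => (b:ℝ) ^ i • XW b G.δ G.x k s v) G.ns ≤ ε := by
  have hb0 : 0 < b := by omega
  have hb1 : (1:ℝ) < b := by exact_mod_cast (by omega : 1 < b)
  have hb' : (b:ℝ) ≠ 0 := by positivity
  have hK := KK_nonneg ι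
  set lam := ε / 8 with hlam
  have hl : 0 < lam := by positivity
  obtain ⟨r, hr1, hr⟩ : ∃ r : ℕ, 2 * ((b:ℝ) ^ r)⁻¹ ≤ 1 ∧
      KK ι * (2 * ((b:ℝ) ^ r)⁻¹) ≤ lam * (ε / 4) := by
    obtain ⟨r, hr⟩ := exists_pow_lt_of_lt_one
      (show 0 < min (1 / 2) (lam * (ε / 4) / (2 * (KK ι + 1))) by positivity)
      (show (b:ℝ)⁻¹ < 1 by exact inv_lt_one_of_one_lt₀ hb1)
    rw [inv_pow] at hr
    have e1 := hr.le.trans (min_le_left _ _)
    have e2 := hr.le.trans (min_le_right _ _)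
    refine ⟨r, by linarith, ?_⟩
    rw [le_div_iff₀ (by linarith)] at e2
    nlinarith [show (0:ℝ) < ((b:ℝ) ^ r)⁻¹ by positivity]
  set η := lam * (ε / 4) / (2 * (r + 1)) with hη
  have hη0 : 0 < η := by positivity
  have hrη : r * (2 * η) ≤ lam * (ε / 4) := by
    rw [hη]
    have : (r:ℝ) * (2 * (lam * (ε / 4) / (2 * (r + 1)))) = lam * (ε / 4) * (r / (r + 1)) := by
      field_simp
    rw [this]
    have h2 : (r:ℝ) / (r + 1) ≤ 1 := by rw [div_le_one (by positivity)]; linarith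
    nlinarith [show 0 < lam * (ε / 4) by positivity]
  obtain ⟨k1, hk1⟩ := G.inc_ge hb0 hη0
  obtain ⟨k2, hk2⟩ := G.inc_le_alpha hb0 hη0
  set k0 := max k1 k2 with hk0
  refine ⟨k0 + r, fun k i hi s κ _ F hF => ?_⟩
  set N : ℝ := (Fintype.card (Fin k → D) : ℝ) with hN
  have hNpos : 0 < N := by rw [hN]; exact_mod_cast Fintype.card_pos
  set g : ℕ → ℝ := fun j => ∑ w, N⁻¹ * gap (cls F w)
        (fun v => (b:ℝ) ^ ((i:ℤ) - j) • XW b G.δ G.x k s v)
        (G.P (run G.δ k s w) ((i:ℤ) - j)) with hg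
  have h1 : ∀ j, j ≤ r → g 0 ≤ g j + j * (2 * η) := by
    intro j hj
    induction j with
    | zero => simp
    | succ j ih =>
      have h2 := G.key_step hb0 (k0 := k0) (k := k) (i := (i:ℤ) - j) s (by omega)
        (fun k s hk => hk1 k s (le_trans (by exact_mod_cast le_max_left k1 k2) hk))
        (fun k s hk => hk2 k s (le_trans (by exact_mod_cast le_max_right k1 k2) hk)) F
        (fun w w' h => (hF w w' h).1)
      have h3 := ih (by omega)
      have h4 : g j ≤ g (j + 1) + 2 * η := by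
        rw [hg]
        simp only
        have h5 : (i:ℤ) - ((j + 1 : ℕ) : ℤ) = (i:ℤ) - j - 1 := by push_cast; ring
        rw [h5]
        exact h2
      push_cast
      linarith
  have h2 : g r ≤ KK ι * (2 * ((b:ℝ) ^ r)⁻¹) := by
    have h3 : ∀ w ∈ (Finset.univ : Finset (Fin k → D)), N⁻¹ * gap (cls F w)
        (fun v => (b:ℝ) ^ ((i:ℤ) - r) • XW b G.δ G.x k s v)
        (G.P (run G.δ k s w) ((i:ℤ) - r)) ≤
        N⁻¹ * (KK ι * (2 * ((b:ℝ) ^ r)⁻¹)) := by
      intro w _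
      refine mul_le_mul_of_nonneg_left ?_ (by positivity)
      refine G.gap_small hb _ _ (cls_ne F w) _ hr1 (by positivity) ?_
      intro v hv v' hv'
      rw [mem_cls] at hv hv'
      have h4 := (hF v v' (hv.trans hv'.symm)).2
      rw [← smul_sub]
      have h5 : (b:ℝ) ^ ((i:ℤ) - r) • (XW b G.δ G.x k s v - XW b G.δ G.x k s v') =
          ((b:ℝ) ^ r)⁻¹ • ((b:ℝ) ^ i • (XW b G.δ G.x k s v - XW b G.δ G.x k s v')) := by
        rw [smul_smul]
        congr 1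
        rw [zpow_sub₀ hb', zpow_natCast, zpow_natCast]
        field_simp
      rw [h5, norm_smul, Real.norm_of_nonneg (by positivity)]
      have : (0:ℝ) < ((b:ℝ) ^ r)⁻¹ := by positivity
      nlinarith
    refine (Finset.sum_le_sum h3).trans (le_of_eq ?_)
    exact sum_inv_card _
  have h3 : g 0 ≤ 2 * (lam * (ε / 4)) := by
    have := h1 r le_rfl
    linarith
  have h4 : ∀ w ∈ (Finset.univ : Finset (Fin k → D)),
      N⁻¹ * pairN (cls F w) (fun v => (b:ℝ) ^ i • XW b G.δ G.x k s v) G.ns ≤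
      N⁻¹ * (gap (cls F w) (fun v => (b:ℝ) ^ ((i:ℤ) - (0:ℕ)) • XW b G.δ G.x k s v)
        (G.P (run G.δ k s w) ((i:ℤ) - (0:ℕ))) / lam + 4 * lam) := by
    intro w _
    refine mul_le_mul_of_nonneg_left ?_ (by positivity)
    have h5 := pair_le_gap (cls_ne F w) (fun v => (b:ℝ) ^ i • XW b G.δ G.x k s v)
      (G.P_dens hb0 (run G.δ k s w) ((i:ℤ) - (0:ℕ))) hl
    have h6 : (fun v => (b:ℝ) ^ ((i:ℤ) - (0:ℕ)) • XW b G.δ G.x k s v) =
        fun v => (b:ℝ) ^ i • XW b G.δ G.x k s v := by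
      funext v
      simp
    rw [h6]
    refine le_trans ?_ h5
    unfold pairN
    refine Finset.sum_le_sum fun v _ => mul_le_mul_of_nonneg_left ?_ (by positivity)
    refine Finset.sum_le_sum fun v' _ => mul_le_mul_of_nonneg_left ?_ (by positivity)
    have h7 : (i:ℤ) - ((0:ℕ):ℤ) = (i:ℤ) := by simp
    rw [h7]
    exact G.ns_le i _ _
  refine (Finset.sum_le_sum h4).trans ?_
  have h5 : ∑ w ∈ (Finset.univ : Finset (Fin k → D)),
      N⁻¹ * (gap (cls F w) (fun v => (b:ℝ) ^ ((i:ℤ) - (0:ℕ)) • XW b G.δ G.x k s v)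
        (G.P (run G.δ k s w) ((i:ℤ) - (0:ℕ))) / lam + 4 * lam) = g 0 / lam + 4 * lam := by
    simp only [mul_add, Finset.sum_add_distrib]
    congr 1
    · rw [hg]
      simp only
      rw [Finset.sum_div]
      refine Finset.sum_congr rfl fun w _ => by rw [mul_div_assoc]
    · exact sum_inv_card _
  rw [h5]
  have h6 : g 0 / lam ≤ ε / 2 := by
    rw [div_le_iff₀ hl]
    linarith
  have h7 : 4 * lam = ε / 2 := by rw [hlam]; ring
  linarith

end Pool.Agent.V7H68.MS
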