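import Pool.Agent.V7H68.SS.Bridge

/-!
Label paths of a random word: high moments of the probability of the path, and the number of
words whose path has a large probability.
-/

namespace Pool.Agent.V7H68.MS

open Finset Real SS

set_option linter.unusedSectionVars false

section lea

variable {W : Type*} [Fintype W] [Nonempty W] {X : Type*} {Λ : Type*} [DecidableEq Λ]

open Classical in
/-- The probability of a label path. -/
noncomputable def PP (T : X → W → X) (lab : X → W → Λ) (alive : X → Prop) :
    (n : ℕ) → X → (Fin n → Λ) → ℝ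
  | 0, _, _ => 1
  | n + 1, x, p => if alive x then
      ∑ d, if lab x d = p 0 then (Fintype.card W : ℝ)⁻¹ * PP T lab alive n (T x d)
        (fun j => p j.succ) else 0 else 0

/-- The label path of a word. -/
def pth (T : X → W → X) (lab : X → W → Λ) : (n : ℕ) → X → (Fin n → W) → Fin n → Λ
  | 0, _, _ => fun j => j.elim0
  | n + 1, x, w => Fin.cons (lab x (w 0)) (pth T lab n (T x (w 0)) fun j => w j.succ)

/-- All states on the way are alive. -/
def alv (T : X → W → X) (alive : X → Prop) : (n : ℕ) → X → (Fin n → W) → Prop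
  | 0, _, _ => True
  | n + 1, x, w => alive x ∧ alv T alive n (T x (w 0)) fun j => w j.succ

variable (T : X → W → X) (lab : X → W → Λ) (alive : X → Prop)

theorem PP_nonneg (n : ℕ) : ∀ (x : X) (p : Fin n → Λ), 0 ≤ PP T lab alive n x p := by
  induction n with
  | zero => intro x p; simp [PP]
  | succ n ih =>
    intro x p
    simp only [PP]
    split
    · refine Finset.sum_nonneg fun d _ => ?_
      split
      · exact mul_nonneg (by positivity) (ih _ _)
      · exact le_rfl
    · exact le_rfl

/-- The probability of a label. -/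
noncomputable def cc (x : X) (d : W) : ℝ := (cls (lab x) d).card / Fintype.card W

theorem cc_pos (x : X) (d : W) : 0 < cc lab x d :=
  div_pos (cls_pos _ d) (by exact_mod_cast Fintype.card_pos)

theorem moment_step {lam : ℝ} (hlam : 0 ≤ lam) {n : ℕ} (x : X) (hx : alive x)
    (p : Fin (n + 1) → Λ) :
    PP T lab alive (n + 1) x p ^ (1 + lam) ≤ ∑ d, if lab x d = p 0 then
      (Fintype.card W : ℝ)⁻¹ * cc lab x d ^ lam *
        PP T lab alive n (T x d) (fun j => p j.succ) ^ (1 + lam) else 0 := by
  classical
  set N : ℝ := (Fintype.card W : ℝ) with hN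
  have hN0 : 0 < N := by rw [hN]; exact_mod_cast Fintype.card_pos
  simp only [PP, if_pos hx]
  set A : Finset W := Finset.univ.filter fun d => lab x d = p 0 with hA
  rw [← Finset.sum_filter, ← Finset.sum_filter]
  rcases A.eq_empty_or_nonempty with h | h
  · rw [← hA, h, Finset.sum_empty, Finset.sum_empty, Real.zero_rpow (by linarith)]
  · have hc : (0:ℝ) < A.card := by exact_mod_cast Finset.card_pos.2 h
    have hcc : ∀ d ∈ A, cc lab x d = A.card / N := by
      intro d hd
      unfold cc
      congr 2
      rw [hA, Finset.mem_filter] at hd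
      unfold cls
      rw [hd.2]
    have h1 : ∑ d ∈ A, N⁻¹ * PP T lab alive n (T x d) (fun j => p j.succ) =
        (A.card / N) * ∑ d ∈ A, (A.card : ℝ)⁻¹ * PP T lab alive n (T x d)
          (fun j => p j.succ) := by
      rw [Finset.mul_sum]
      refine Finset.sum_congr rfl fun d _ => ?_
      field_simp
    have hs0 : 0 ≤ ∑ d ∈ A, (A.card : ℝ)⁻¹ * PP T lab alive n (T x d) (fun j => p j.succ) :=
      Finset.sum_nonneg fun d _ => mul_nonneg (by positivity) (PP_nonneg _ _ _ _ _ _)
    rw [← hA, h1, Real.mul_rpow (by positivity) hs0]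
    have h2 := Real.rpow_arith_mean_le_arith_mean_rpow A (fun _ => (A.card : ℝ)⁻¹)
      (fun d => PP T lab alive n (T x d) (fun j => p j.succ)) (fun _ _ => by positivity)
      (by rw [Finset.sum_const, nsmul_eq_mul, mul_inv_cancel₀ hc.ne'])
      (fun d _ => PP_nonneg _ _ _ _ _ _) (show (1:ℝ) ≤ 1 + lam by linarith)
    refine (mul_le_mul_of_nonneg_left h2 (by positivity)).trans (le_of_eq ?_)
    rw [Finset.mul_sum]
    refine Finset.sum_congr rfl fun d hd => ?_
    rw [hcc d hd, Real.rpow_add (by positivity), Real.rpow_one]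
    field_simp

theorem moment {lam rho : ℝ} (hlam : 0 ≤ lam) (hrho : 0 ≤ rho)
    (h : ∀ x, alive x → ∑ d, (Fintype.card W : ℝ)⁻¹ * cc lab x d ^ lam ≤ rho) (n : ℕ) :
    ∀ (x : X) (Q : Finset (Fin n → Λ)),
      ∑ p ∈ Q, PP T lab alive n x p ^ (1 + lam) ≤ rho ^ n := by
  classical
  induction n with
  | zero =>
    intro x Q
    simp only [PP, Real.one_rpow, Finset.sum_const, nsmul_eq_mul, mul_one, pow_zero]
    have : Q.card ≤ 1 := Finset.card_le_one_of_subsingleton Q
    exact_mod_cast this
  | succ n ih =>
    intro x Q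
    by_cases hx : alive x
    · refine (Finset.sum_le_sum fun p _ => moment_step T lab alive hlam x hx p).trans ?_
      rw [Finset.sum_comm]
      have h1 : ∀ d : W, ∑ p ∈ Q, (if lab x d = p 0 then
          (Fintype.card W : ℝ)⁻¹ * cc lab x d ^ lam *
            PP T lab alive n (T x d) (fun j => p j.succ) ^ (1 + lam) else 0) ≤
          ((Fintype.card W : ℝ)⁻¹ * cc lab x d ^ lam) * rho ^ n := by
        intro d
        rw [← Finset.sum_filter, ← Finset.mul_sum]
        refine mul_le_mul_of_nonneg_left ?_
          (mul_nonneg (by positivity) (Real.rpow_nonneg (cc_pos lab x d).le _))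
        set Q' := Q.filter fun p => lab x d = p 0 with hQ'
        have hinj : Set.InjOn (fun (p : Fin (n + 1) → Λ) (j : Fin n) => p j.succ) Q' := by
          intro p hp p' hp' he
          rw [hQ', Finset.mem_coe, Finset.mem_filter] at hp hp'
          funext j
          refine Fin.cases ?_ (fun j => ?_) j
          · rw [← hp.2, ← hp'.2]
          · exact congrFun he j
        have h2 := ih (T x d) (Q'.image fun (p : Fin (n + 1) → Λ) (j : Fin n) => p j.succ)
        rw [Finset.sum_image hinj] at h2
        exact h2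
      refine (Finset.sum_le_sum fun d _ => h1 d).trans ?_
      rw [← Finset.sum_mul, pow_succ, mul_comm]
      exact mul_le_mul_of_nonneg_left (h x hx) (by positivity)
    · have : ∀ p ∈ Q, PP T lab alive (n + 1) x p ^ (1 + lam) = 0 := by
        intro p _
        simp only [PP, if_neg hx]
        exact Real.zero_rpow (by linarith)
      rw [Finset.sum_eq_zero this]
      positivity

open Classical in
/-- The path probability counts words. -/
theorem PP_eq (n : ℕ) : ∀ (x : X) (p : Fin n → Λ), PP T lab alive n x p =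
    ((Fintype.card W : ℝ) ^ n)⁻¹ *
      (Finset.univ.filter fun w => alv T alive n x w ∧ pth T lab n x w = p).card := by
  induction n with
  | zero =>
    intro x p
    simp only [PP, pow_zero, inv_one, one_mul]
    have : (Finset.univ.filter fun w : Fin 0 → W => alv T alive 0 x w ∧ pth T lab 0 x w = p) =
        Finset.univ := by
      refine Finset.filter_true_of_mem fun w _ => ⟨trivial, Subsingleton.elim _ _⟩
    rw [this]
    simp
  | succ n ih =>
    intro x p
    by_cases hx : alive x
    · simp only [PP, if_pos hx]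
      have h1 : (((Finset.univ.filter fun w : Fin (n + 1) → W =>
          alv T alive (n + 1) x w ∧ pth T lab (n + 1) x w = p).card : ℕ) : ℝ) =
          ∑ d : W, if lab x d = p 0 then
            (((Finset.univ.filter fun w : Fin n → W =>
              alv T alive n (T x d) w ∧ pth T lab n (T x d) w = fun j => p j.succ).card : ℕ) : ℝ)
            else 0 := by
        have h2 : (((Finset.univ.filter fun w : Fin (n + 1) → W =>
          alv T alive (n + 1) x w ∧ pth T lab (n + 1) x w = p).card : ℕ) : ℝ) =
          ∑ w : Fin (n + 1) → W, if alv T alive (n + 1) x w ∧ pth T lab (n + 1) x w = p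
            then (1:ℝ) else 0 := by
          rw [← Finset.sum_filter]
          simp
        rw [h2, ← (Fin.consEquiv fun _ : Fin (n+1) => W).sum_comp, Fintype.sum_prod_type]
        refine Finset.sum_congr rfl fun d _ => ?_
        have h3 : ∀ w : Fin n → W, (alv T alive (n + 1) x
            ((Fin.consEquiv fun _ : Fin (n+1) => W) (d, w)) ∧
            pth T lab (n + 1) x ((Fin.consEquiv fun _ : Fin (n+1) => W) (d, w)) = p) ↔
            (lab x d = p 0 ∧ (alv T alive n (T x d) w ∧
              pth T lab n (T x d) w = fun j => p j.succ)) := by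
          intro w
          have h4 : (Fin.consEquiv fun _ : Fin (n+1) => W) (d, w) = Fin.cons d w := rfl
          rw [h4]
          simp only [alv, pth, Fin.cons_zero, Fin.cons_succ]
          constructor
          · rintro ⟨⟨-, h5⟩, h6⟩
            refine ⟨?_, h5, ?_⟩
            · rw [← h6]; rfl
            · rw [← h6]; rfl
          · rintro ⟨h5, h6, h7⟩
            refine ⟨⟨hx, h6⟩, ?_⟩
            funext j
            refine Fin.cases ?_ (fun j => ?_) j
            · exact h5
            · rw [Fin.cons_succ]; exact congrFun h7 j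
        simp only [h3]
        by_cases h5 : lab x d = p 0
        · simp [h5]
        · simp [h5]
      rw [h1, Finset.mul_sum]
      refine Finset.sum_congr rfl fun d _ => ?_
      split
      · rw [ih, pow_succ, mul_inv]
        ring
      · simp
    · simp only [PP, if_neg hx]
      have : (Finset.univ.filter fun w : Fin (n + 1) → W =>
          alv T alive (n + 1) x w ∧ pth T lab (n + 1) x w = p) = ∅ := by
        refine Finset.filter_false_of_mem fun w _ h => hx ?_
        exact h.1.1
      rw [this]
      simp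

/-- The entropy of the labels of a state. -/
noncomputable def HH (x : X) : ℝ := ∑ d, (Fintype.card W : ℝ)⁻¹ * (- log (cc lab x d))

theorem moment_of_entropy {h lam : ℝ} (hlam : 0 < lam)
    (hl1 : lam * log (Fintype.card W) ≤ 1) (x : X) (hx : h ≤ HH lab x) :
    ∑ d, (Fintype.card W : ℝ)⁻¹ * cc lab x d ^ lam ≤
      exp (- lam * h + lam ^ 2 * log (Fintype.card W) ^ 2) := by
  set N : ℝ := (Fintype.card W : ℝ) with hN
  have hN0 : 0 < N := by rw [hN]; exact_mod_cast Fintype.card_pos
  have hN1 : 1 ≤ N := by rw [hN]; exact_mod_cast Fintype.card_pos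
  set L := log N with hL
  have hL0 : 0 ≤ L := Real.log_nonneg hN1
  have key : ∀ d, cc lab x d ^ lam ≤ 1 + lam * log (cc lab x d) + lam ^ 2 * L ^ 2 := by
    intro d
    have hc := cc_pos lab x d
    have h1 : cc lab x d ≤ 1 := by
      unfold cc
      rw [div_le_one hN0, hN]
      exact_mod_cast Finset.card_le_univ _
    have h2 : N⁻¹ ≤ cc lab x d := by
      unfold cc
      rw [inv_eq_one_div]
      refine div_le_div_of_nonneg_right ?_ hN0.le
      exact_mod_cast Finset.card_pos.2 (cls_ne _ d)
    have h3 : log (cc lab x d) ≤ 0 := Real.log_nonpos hc.le h1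
    have h4 : -L ≤ log (cc lab x d) := by
      rw [hL, ← Real.log_inv]
      exact Real.log_le_log (by positivity) h2
    rw [Real.rpow_def_of_pos hc, mul_comm]
    have h5 : |lam * log (cc lab x d)| ≤ lam * L := by
      rw [abs_of_nonpos (mul_nonpos_of_nonneg_of_nonpos hlam.le h3)]
      nlinarith
    have h6 := Real.abs_exp_sub_one_sub_id_le (h5.trans hl1)
    have h7 := (abs_le.1 h6).2
    have h8 : (lam * log (cc lab x d)) ^ 2 ≤ (lam * L) ^ 2 := by
      rw [← sq_abs]
      exact pow_le_pow_left₀ (abs_nonneg _) h5 2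
    nlinarith
  have h1 := Finset.sum_le_sum fun d (_ : d ∈ (Finset.univ : Finset W)) =>
    mul_le_mul_of_nonneg_left (key d) (show 0 ≤ N⁻¹ by positivity)
  refine h1.trans ?_
  have h2 : ∑ d, N⁻¹ * (1 + lam * log (cc lab x d) + lam ^ 2 * L ^ 2) =
      1 - lam * HH lab x + lam ^ 2 * L ^ 2 := by
    unfold HH
    rw [Finset.mul_sum]
    have h3 : ∀ d, N⁻¹ * (1 + lam * log (cc lab x d) + lam ^ 2 * L ^ 2) =
        N⁻¹ * (1 + lam ^ 2 * L ^ 2) - lam * (N⁻¹ * (- log (cc lab x d))) := fun d => by ring
    rw [Finset.sum_congr rfl fun d _ => h3 d, Finset.sum_sub_distrib, Finset.sum_const,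
      nsmul_eq_mul, Finset.card_univ, ← mul_assoc, ← hN, mul_inv_cancel₀ hN0.ne']
    ring
  rw [h2]
  have h3 := Real.add_one_le_exp (- lam * h + lam ^ 2 * L ^ 2)
  nlinarith

open Classical in
/-- The number of words whose path has a large probability. -/
theorem card_heavy {lam rho θ : ℝ} (hlam : 0 ≤ lam) (hrho : 0 ≤ rho) (hθ : 0 < θ)
    (h : ∀ x, alive x → ∑ d, (Fintype.card W : ℝ)⁻¹ * cc lab x d ^ lam ≤ rho) (n : ℕ) (x : X) :
    ((Finset.univ.filter fun w : Fin n → W => alv T alive n x w ∧
      θ ≤ PP T lab alive n x (pth T lab n x w)).card : ℝ) * θ ^ lam ≤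
      (Fintype.card W : ℝ) ^ n * rho ^ n := by
  set N : ℝ := (Fintype.card W : ℝ) with hN
  have hN0 : 0 < N := by rw [hN]; exact_mod_cast Fintype.card_pos
  set Bd := Finset.univ.filter fun w : Fin n → W => alv T alive n x w ∧
      θ ≤ PP T lab alive n x (pth T lab n x w) with hBd
  set Al := Finset.univ.filter fun w : Fin n → W => alv T alive n x w with hAl
  have h1 : (Bd.card : ℝ) * θ ^ lam ≤ ∑ w ∈ Al, PP T lab alive n x (pth T lab n x w) ^ lam := by
    calc (Bd.card : ℝ) * θ ^ lam = ∑ _w ∈ Bd, θ ^ lam := by rw [Finset.sum_const, nsmul_eq_mul]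
      _ ≤ ∑ w ∈ Bd, PP T lab alive n x (pth T lab n x w) ^ lam := by
          refine Finset.sum_le_sum fun w hw => ?_
          rw [hBd, Finset.mem_filter] at hw
          exact Real.rpow_le_rpow hθ.le hw.2.2 hlam
      _ ≤ ∑ w ∈ Al, PP T lab alive n x (pth T lab n x w) ^ lam := by
          refine Finset.sum_le_sum_of_subset_of_nonneg ?_ fun w _ _ =>
            Real.rpow_nonneg (PP_nonneg _ _ _ _ _ _) _
          intro w hw
          rw [hBd, Finset.mem_filter] at hw
          rw [hAl, Finset.mem_filter]
          exact ⟨hw.1, hw.2.1⟩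
  have h2 : ∑ w ∈ Al, PP T lab alive n x (pth T lab n x w) ^ lam =
      N ^ n * ∑ p ∈ Al.image (pth T lab n x), PP T lab alive n x p ^ (1 + lam) := by
    rw [Finset.mul_sum, ← Finset.sum_fiberwise_of_maps_to (t := Al.image (pth T lab n x))
      (g := pth T lab n x) fun w hw => Finset.mem_image_of_mem _ hw]
    refine Finset.sum_congr rfl fun p hp => ?_
    have h3 : ∑ w ∈ Al.filter (fun w => pth T lab n x w = p),
        PP T lab alive n x (pth T lab n x w) ^ lam =
        ∑ _w ∈ Al.filter (fun w => pth T lab n x w = p), PP T lab alive n x p ^ lam := by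
      refine Finset.sum_congr rfl fun w hw => ?_
      rw [Finset.mem_filter] at hw
      rw [hw.2]
    rw [h3, Finset.sum_const, nsmul_eq_mul]
    have h4 : ((Al.filter (fun w => pth T lab n x w = p)).card : ℝ) =
        N ^ n * PP T lab alive n x p := by
      rw [PP_eq, ← mul_assoc, mul_inv_cancel₀ (by positivity), one_mul, hAl, Finset.filter_filter]
    rw [h4]
    have h5 : 0 < PP T lab alive n x p := by
      obtain ⟨w, hw, rfl⟩ := Finset.mem_image.1 hp
      have h6 : w ∈ Al.filter (fun w' => pth T lab n x w' = pth T lab n x w) :=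
        Finset.mem_filter.2 ⟨hw, rfl⟩
      have : (0:ℝ) < (Al.filter (fun w' => pth T lab n x w' = pth T lab n x w)).card := by
        exact_mod_cast Finset.card_pos.2 ⟨w, h6⟩
      rw [h4] at this
      exact (mul_pos_iff_of_pos_left (by positivity)).1 this
    rw [Real.rpow_add h5, Real.rpow_one]
    ring
  rw [h2] at h1
  refine h1.trans ?_
  exact mul_le_mul_of_nonneg_left (moment T lab alive hlam hrho h n x _) (by positivity)

theorem exists_rate {L ε : ℝ} (hL : 0 ≤ L) (hε : 0 < ε) : ∃ lam : ℝ, 0 < lam ∧ lam * L ≤ 1 ∧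
    lam * L ^ 2 ≤ ε := by
  refine ⟨min (ε / (L ^ 2 + 1)) (1 / (L + 1)), lt_min (by positivity) (by positivity), ?_, ?_⟩
  · have h1 : min (ε / (L ^ 2 + 1)) (1 / (L + 1)) ≤ 1 / (L + 1) := min_le_right _ _
    have h2 := mul_le_mul_of_nonneg_right h1 hL
    refine h2.trans ?_
    rw [div_mul_eq_mul_div, div_le_one (by positivity)]
    linarith
  · have h1 : min (ε / (L ^ 2 + 1)) (1 / (L + 1)) ≤ ε / (L ^ 2 + 1) := min_le_left _ _
    have h2 := mul_le_mul_of_nonneg_right h1 (show 0 ≤ L ^ 2 by positivity)
    refine h2.trans ?_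
    rw [div_mul_eq_mul_div, div_le_iff₀ (by positivity)]
    nlinarith

open Classical in
/-- Few words have a path of large probability. -/
theorem few_heavy {ε : ℝ} (hε : 0 < ε) : ∃ c : ℝ, 0 < c ∧ ∀ (h : ℝ) (X : Type _) (T : X → W → X)
    (lab : X → W → Λ) (alive : X → Prop), (∀ x, alive x → h ≤ HH lab x) → ∀ (n : ℕ) (x : X),
    ((Finset.univ.filter fun w : Fin n → W => alv T alive n x w ∧
      exp (- ((h - 2 * ε) * n)) ≤ PP T lab alive n x (pth T lab n x w)).card : ℝ) ≤
      (Fintype.card W : ℝ) ^ n * exp (- (c * n)) := by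
  have hN1 : (1:ℝ) ≤ Fintype.card W := by exact_mod_cast Fintype.card_pos
  obtain ⟨lam, hlam, hl1, hl2⟩ := exists_rate (Real.log_nonneg hN1) hε
  refine ⟨lam * ε, by positivity, fun h X T lab alive hal n x => ?_⟩
  have h1 := card_heavy T lab alive hlam.le (Real.exp_pos _).le (Real.exp_pos (- ((h - 2 * ε) * n)))
    (fun x hx => moment_of_entropy lab hlam hl1 x (hal x hx)) n x
  rw [← Real.exp_mul] at h1
  have h2 : 0 < exp (- ((h - 2 * ε) * n) * lam) := Real.exp_pos _
  rw [← le_div_iff₀ h2] at h1
  refine h1.trans ?_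
  rw [mul_div_assoc]
  refine mul_le_mul_of_nonneg_left ?_ (by positivity)
  rw [← Real.exp_nat_mul, ← Real.exp_sub]
  refine Real.exp_le_exp.2 ?_
  have h3 : lam ^ 2 * log (Fintype.card W) ^ 2 ≤ lam * ε := by nlinarith
  have hn : (0:ℝ) ≤ n := Nat.cast_nonneg n
  nlinarith [mul_le_mul_of_nonneg_left h3 hn]

end lea

end Pool.Agent.V7H68.MS
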