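import Pool.Agent.V7H68.MS.Cell

/-!
The mass distribution principle for images of sets of positive outer measure.
-/

namespace Pool.Agent.V7H68.MS

open Finset Real MeasureTheory SS Metric
open scoped ENNReal

set_option linter.unusedSectionVars false

variable {ι : Type} [Fintype ι]

theorem restrict_mass {Y : Set (ι → ℝ)} {X : (ι → ℝ) → ι → ℝ} (hX : Measurable X)
    (y : ι → ℝ) (r : ℝ) :
    ((volume.restrict Y).map X) (closedBall y r) = volume {u | u ∈ Y ∧ ‖X u - y‖ ≤ r} := by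
  rw [Measure.map_apply hX measurableSet_closedBall,
    Measure.restrict_apply (hX measurableSet_closedBall)]
  congr 1
  ext u
  simp only [Set.mem_inter_iff, Set.mem_preimage, mem_closedBall_iff_norm, Set.mem_ofPred_eq]
  tauto

theorem mass_pos_meas {β : ℕ} (hβ : 2 ≤ β) {Y : Set (ι → ℝ)} (hY : volume Y ≠ 0)
    {X : (ι → ℝ) → ι → ℝ} (hX : Measurable X) {σ σ' C : ℝ} (hσ0 : 0 ≤ σ) (hσ : σ < σ')
    (hC : 0 ≤ C) {k : ℕ}
    (h : ∀ n : ℕ, k ≤ n → ∀ y : ι → ℝ, volume {u | u ∈ Y ∧ ‖X u - y‖ ≤ ((β:ℝ) ^ n)⁻¹} ≤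
      ENNReal.ofReal (C * (((β:ℝ) ^ n)⁻¹) ^ σ')) :
    μH[σ] (X '' Y) ≠ 0 := by
  have hβ0 : (0:ℝ) < β := by exact_mod_cast (by omega : 0 < β)
  have hβ1 : (1:ℝ) < β := by exact_mod_cast (by omega : 1 < β)
  set ν := (volume.restrict Y).map X with hν
  -- the level from which the estimate is good
  have hlim : Filter.Tendsto (fun n : ℕ => C * (((β:ℝ) ^ n)⁻¹) ^ (σ' - σ)) Filter.atTop
      (nhds 0) := by
    have h1 : Filter.Tendsto (fun n : ℕ => (((β:ℝ) ^ n)⁻¹)) Filter.atTop (nhds 0) :=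
      tendsto_inv_atTop_zero.comp (tendsto_pow_atTop_atTop_of_one_lt hβ1)
    have h2 := (h1.rpow_const (p := σ' - σ) (Or.inr (by linarith))).const_mul C
    rwa [Real.zero_rpow (by linarith), mul_zero] at h2
  have hev := hlim.eventually (gt_mem_nhds (show (0:ℝ) < ((β:ℝ)⁻¹) ^ σ by positivity))
  obtain ⟨n1, hn1⟩ := (hev.and (Filter.eventually_ge_atTop k)).exists_forall_of_atTop
  have hball : ∀ n, n1 ≤ n → ∀ y, ν (closedBall y ((β:ℝ) ^ n)⁻¹) ≤
      ENNReal.ofReal (((((β:ℝ) ^ (n + 1))⁻¹)) ^ σ) := by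
    intro n hn y
    rw [hν, restrict_mass hX]
    refine (h n (hn1 n hn).2 y).trans (ENNReal.ofReal_le_ofReal ?_)
    have h1 := (hn1 n hn).1
    have h2 : (((β:ℝ) ^ n)⁻¹) ^ σ' = (((β:ℝ) ^ n)⁻¹) ^ (σ' - σ) * (((β:ℝ) ^ n)⁻¹) ^ σ := by
      rw [← Real.rpow_add (by positivity)]
      congr 1
      ring
    have h3 : (((β:ℝ) ^ (n + 1))⁻¹) ^ σ = ((β:ℝ)⁻¹) ^ σ * (((β:ℝ) ^ n)⁻¹) ^ σ := by
      rw [← Real.mul_rpow (by positivity) (by positivity), ← mul_inv, pow_succ, mul_comm]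
    rw [h2, h3, ← mul_assoc]
    exact mul_le_mul_of_nonneg_right h1.le (by positivity)
  have hle : ν ≤ μH[σ] := by
    refine Measure.le_hausdorffMeasure σ ν (ENNReal.ofReal (((β:ℝ) ^ n1)⁻¹))
      (ENNReal.ofReal_pos.2 (by positivity)) ?_
    intro s hs
    rcases s.eq_empty_or_nonempty with rfl | ⟨y, hy⟩
    · simp
    have hsub : ∀ r : ℝ, 0 ≤ r → ediam s ≤ ENNReal.ofReal r → s ⊆ closedBall y r := by
      intro r hr hsr x hx
      rw [mem_closedBall, dist_edist]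
      refine ENNReal.toReal_le_of_le_ofReal hr ?_
      exact (Metric.edist_le_ediam_of_mem hx hy).trans hsr
    by_cases hall : ∀ n, n1 ≤ n → ediam s ≤ ENNReal.ofReal (((β:ℝ) ^ n)⁻¹)
    · -- a point
      have h1 : ν s = 0 := by
        by_contra hne
        have h2 : ∀ n, n1 ≤ n → ν s ≤ ENNReal.ofReal (C * (((β:ℝ) ^ n)⁻¹) ^ σ') := by
          intro n hn
          have h3 := measure_mono (μ := ν) (hsub _ (by positivity) (hall n hn))
          refine h3.trans ?_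
          rw [hν, restrict_mass hX]
          exact h n (hn1 n hn).2 y
        have h4 : Filter.Tendsto (fun n : ℕ => ENNReal.ofReal (C * (((β:ℝ) ^ n)⁻¹) ^ σ'))
            Filter.atTop (nhds (ENNReal.ofReal 0)) := by
          refine ENNReal.tendsto_ofReal ?_
          have h1 : Filter.Tendsto (fun n : ℕ => (((β:ℝ) ^ n)⁻¹)) Filter.atTop (nhds 0) :=
            tendsto_inv_atTop_zero.comp (tendsto_pow_atTop_atTop_of_one_lt hβ1)
          have h2 := (h1.rpow_const (p := σ') (Or.inr (by linarith))).const_mul C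
          rwa [Real.zero_rpow (by linarith), mul_zero] at h2
        have h5 : ν s ≤ ENNReal.ofReal 0 :=
          ge_of_tendsto h4 (Filter.eventually_atTop.2 ⟨n1, h2⟩)
        rw [ENNReal.ofReal_zero] at h5
        exact hne (le_antisymm h5 zero_le)
      rw [h1]
      exact zero_le
    · simp only [not_forall, not_le, exists_prop] at hall
      classical
      have hex : ∃ n, n1 ≤ n ∧ ENNReal.ofReal (((β:ℝ) ^ n)⁻¹) < ediam s := by
        obtain ⟨n, hn⟩ := hall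
        exact ⟨n, hn.1, hn.2⟩
      set n := Nat.find hex with hn
      obtain ⟨hn1', hn2⟩ := Nat.find_spec hex
      rw [← hn] at hn1' hn2
      have hne : n ≠ n1 := by
        rintro he
        rw [he] at hn2
        exact absurd hs (not_le.2 hn2)
      obtain ⟨p, hp⟩ : ∃ p, n = p + 1 := ⟨n - 1, by omega⟩
      have hp1 : n1 ≤ p := by omega
      have hp2 : ediam s ≤ ENNReal.ofReal (((β:ℝ) ^ p)⁻¹) := by
        by_contra hc
        rw [not_le] at hc
        have := Nat.find_min' hex ⟨hp1, hc⟩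
        omega
      have h1 := measure_mono (μ := ν) (hsub _ (by positivity) hp2)
      refine h1.trans ((hball p hp1 y).trans ?_)
      rw [hp] at hn2
      rw [← ENNReal.ofReal_rpow_of_pos (by positivity)]
      exact ENNReal.rpow_le_rpow hn2.le hσ0
  intro h0
  have h1 : ν (X '' Y) ≤ 0 := by
    calc ν (X '' Y) ≤ μH[σ] (X '' Y) := hle _
      _ = 0 := h0
  obtain ⟨A, hA1, hA2, hA3⟩ := exists_measurable_superset ν (X '' Y)
  have h2 : ν A = 0 := by rw [hA3]; exact le_antisymm h1 zero_le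
  rw [hν, Measure.map_apply hX hA2, Measure.restrict_apply (hX hA2)] at h2
  apply hY
  refine measure_mono_null ?_ h2
  intro u hu
  exact ⟨hA1 (Set.mem_image_of_mem _ hu), hu⟩

theorem mass_pos {β : ℕ} (hβ : 2 ≤ β) {Y : Set (ι → ℝ)} (hY : volume Y ≠ 0)
    {X : (ι → ℝ) → ι → ℝ} (hX : AEMeasurable X (volume.restrict (cube ι))) (hYc : Y ⊆ cube ι)
    {σ σ' C : ℝ} (hσ0 : 0 ≤ σ) (hσ : σ < σ')
    (hC : 0 ≤ C) {k : ℕ}
    (h : ∀ n : ℕ, k ≤ n → ∀ y : ι → ℝ, volume {u | u ∈ Y ∧ ‖X u - y‖ ≤ ((β:ℝ) ^ n)⁻¹} ≤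
      ENNReal.ofReal (C * (((β:ℝ) ^ n)⁻¹) ^ σ')) :
    μH[σ] (X '' Y) ≠ 0 := by
  set X' := hX.mk X with hX'
  have hae := hX.ae_eq_mk
  have hnull : volume {u | u ∈ cube ι ∧ X u ≠ X' u} = 0 := by
    have h1 := (ae_restrict_iff' cube_meas).1 hae
    have h2 : {u | u ∈ cube ι ∧ X u ≠ X' u} = {u | ¬ (u ∈ cube ι → X u = X' u)} := by
      ext u
      simp
    rw [h2]
    exact h1
  set Y' := {u | u ∈ Y ∧ X u = X' u} with hY'
  have hY0 : volume Y' ≠ 0 := by
    intro h0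
    apply hY
    refine measure_mono_null (t := Y' ∪ {u | u ∈ cube ι ∧ X u ≠ X' u}) ?_
      (measure_union_null h0 hnull)
    intro u hu
    by_cases hh : X u = X' u
    · exact Or.inl ⟨hu, hh⟩
    · exact Or.inr ⟨hYc hu, hh⟩
  have h1 := mass_pos_meas hβ hY0 hX.measurable_mk hσ0 hσ hC (k := k) (fun n hn y => by
    refine le_trans (measure_mono ?_) (h n hn y)
    rintro u ⟨⟨hu1, hu2⟩, hu3⟩
    refine ⟨hu1, ?_⟩
    rw [hu2]
    exact hu3)
  intro h0
  apply h1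
  refine measure_mono_null ?_ h0
  rintro _ ⟨u, hu, rfl⟩
  exact ⟨u, hu.1, hu.2⟩

end Pool.Agent.V7H68.MS
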