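import Pool.Agent.V7H68.SS.Cube
import Pool.Agent.V7H68.SS.Cls

/-!
Averages of translates of different densities.
-/

namespace Pool.Agent.V7H68.MS

open Finset Real MeasureTheory SS

set_option linter.unusedSectionVars false

variable {ι : Type*} [Fintype ι] {Ω : Type*} [Fintype Ω]

/-- Average of translates of different functions. -/
noncomputable def mixT (p : Ω → (ι → ℝ) → ℝ) (Y : Ω → ι → ℝ) : (ι → ℝ) → ℝ :=
  fun u => ∑ w ∈ (Finset.univ : Finset Ω), (Fintype.card Ω : ℝ)⁻¹ * p w (u - Y w)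

theorem sum_inv_card [Nonempty Ω] (a : ℝ) :
    ∑ _w ∈ (Finset.univ : Finset Ω), (Fintype.card Ω : ℝ)⁻¹ * a = a := by
  have hN : (Fintype.card Ω : ℝ) ≠ 0 := by exact_mod_cast Fintype.card_ne_zero
  rw [Finset.sum_const, nsmul_eq_mul, Finset.card_univ]
  field_simp

theorem mixT_cs {p : Ω → (ι → ℝ) → ℝ} (hp : ∀ w, CS (p w)) (Y : Ω → ι → ℝ) :
    CS (mixT p Y) :=
  CS.sum _ fun w _ => ((hp w).comp_sub (Y w)).const_mul _

theorem mixT_dens [Nonempty Ω] {p : Ω → (ι → ℝ) → ℝ} (hp : ∀ w, Dens (p w)) (Y : Ω → ι → ℝ) :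
    Dens (mixT p Y) := by
  refine ⟨mixT_cs (fun w => (hp w).cs) Y, fun u => ?_, fun u => ?_, ?_⟩
  · exact Finset.sum_nonneg fun w _ => mul_nonneg (by positivity) ((hp w).nonneg _)
  · refine (Finset.sum_le_sum fun w _ => mul_le_mul_of_nonneg_left ((hp w).le_one _)
      (show (0:ℝ) ≤ (Fintype.card Ω : ℝ)⁻¹ by positivity)).trans (le_of_eq ?_)
    exact sum_inv_card 1
  · unfold mixT
    rw [integral_finsetSum _ fun w _ => (((hp w).cs.comp_sub _).const_mul _).integrable]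
    have : ∀ w, ∫ u, (Fintype.card Ω : ℝ)⁻¹ * p w (u - Y w) = (Fintype.card Ω : ℝ)⁻¹ * 1 := by
      intro w
      rw [integral_const_mul, integral_comp_sub, (hp w).mass]
    rw [Finset.sum_congr rfl fun w _ => this w]
    exact sum_inv_card 1

theorem inc_mixT [Nonempty Ω] {b : ℕ} (hb : 0 < b) {p : Ω → (ι → ℝ) → ℝ} (hp : ∀ w, Dens (p w))
    (Y : Ω → ι → ℝ) :
    ∑ w, (Fintype.card Ω : ℝ)⁻¹ * inc b (p w) ≤ inc b (mixT p Y) := by
  have h := inc_mix hb (Finset.univ : Finset Ω) (w := fun _ => (Fintype.card Ω : ℝ)⁻¹)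
    (p := fun w u => p w (u - Y w)) (fun _ _ => by positivity)
    (fun w _ => (hp w).cs.comp_sub _) (fun w _ u => (hp w).nonneg _)
  refine le_trans (le_of_eq ?_) h
  refine Finset.sum_congr rfl fun w _ => ?_
  rw [inc_translate hb (hp w).cs]

theorem gap_translate {Ξ : Type*} {s : Finset Ξ} (hs : s.Nonempty) (Y : Ξ → ι → ℝ)
    {p : (ι → ℝ) → ℝ} (hp : CS p) (y : ι → ℝ) :
    gap s Y (fun u => p (u - y)) = gap s Y p := by
  rw [gap_eq hs Y hp, gap_eq hs Y (hp.comp_sub y), FF_translate one_pos, integral_comp_sub]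

theorem gap_mixT [Nonempty Ω] {Ξ : Type*} {s : Finset Ξ} (hs : s.Nonempty) (Z : Ξ → ι → ℝ)
    {p : Ω → (ι → ℝ) → ℝ} (hp : ∀ w, Dens (p w)) (Y : Ω → ι → ℝ) :
    gap s Z (mixT p Y) ≤ ∑ w, (Fintype.card Ω : ℝ)⁻¹ * gap s Z (p w) := by
  rw [gap_eq hs Z (mixT_cs (fun w => (hp w).cs) Y), (mixT_dens hp Y).mass]
  have h1 : ∀ w, gap s Z (p w) = log s.card * 1 -
      FF (κ := s) 1 (s.card : ℝ)⁻¹ (fun w => - Z w.1) (p w) := fun w => by
    rw [gap_eq hs Z (hp w).cs, (hp w).mass]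
  have h2 := FF_mix (κ := s) (Finset.univ : Finset Ω) (lam := 1) (a := (s.card : ℝ)⁻¹) one_pos
    (by positivity) (fun w => - Z w.1) (w := fun _ => (Fintype.card Ω : ℝ)⁻¹)
    (p := fun w u => p w (u - Y w))
    (fun _ _ => by positivity) (fun w _ => (hp w).cs.comp_sub _) (fun w _ u => (hp w).nonneg _)
  simp only [FF_translate one_pos] at h2
  have h3 : ∑ w ∈ (Finset.univ : Finset Ω), (Fintype.card Ω : ℝ)⁻¹ * gap s Z (p w) =
      log s.card * 1 - ∑ w ∈ (Finset.univ : Finset Ω), (Fintype.card Ω : ℝ)⁻¹ *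
        FF (κ := s) 1 (s.card : ℝ)⁻¹ (fun w => - Z w.1) (p w) := by
    simp only [h1, mul_sub, Finset.sum_sub_distrib]
    congr 1
    exact sum_inv_card _
  rw [h3]
  unfold mixT
  linarith

theorem nrm_mixT [Nonempty Ω] {p : Ω → (ι → ℝ) → ℝ} (hp : ∀ w, Dens (p w)) (Y : Ω → ι → ℝ)
    (y : ι → ℝ) :
    nrm (mixT p Y) y ≤ ∑ w, (Fintype.card Ω : ℝ)⁻¹ * nrm (p w) y := by
  refine (nrm_mix (Finset.univ : Finset Ω) (w := fun _ => (Fintype.card Ω : ℝ)⁻¹)
    (p := fun w u => p w (u - Y w)) (fun _ _ => by positivity)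
    (fun w _ => (hp w).cs.comp_sub _) y).trans (le_of_eq ?_)
  refine Finset.sum_congr rfl fun w _ => ?_
  rw [nrm_translate]

/-- Averages of translates pass through mixtures. -/
theorem avg_mixT {Ξ : Type*} (s : Finset Ξ) (Z : Ξ → ι → ℝ)
    (p : Ω → (ι → ℝ) → ℝ) (Y : Ω → ι → ℝ) :
    avg s Z (mixT p Y) = mixT (fun w => avg s Z (p w)) Y := by
  funext u
  unfold avg mixT
  simp only [Finset.mul_sum]
  rw [Finset.sum_comm]
  refine Finset.sum_congr rfl fun w _ => Finset.sum_congr rfl fun z _ => ?_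
  rw [mul_left_comm]
  congr 3
  abel

/-- Grouping a mixture into the classes of a function. -/
theorem mixT_cls {κ : Type*} [DecidableEq κ] (F : Ω → κ) {p : Ω → (ι → ℝ) → ℝ}
    (hp : ∀ w w', F w = F w' → p w = p w') (Y : Ω → ι → ℝ) :
    mixT p Y = fun u => ∑ w ∈ (Finset.univ : Finset Ω),
      (Fintype.card Ω : ℝ)⁻¹ * avg (cls F w) Y (p w) u := by
  funext u
  have h := sum_cls F (fun v => p v (u - Y v))
  unfold mixT
  rw [← Finset.mul_sum, ← Finset.mul_sum, ← h]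
  congr 1
  refine Finset.sum_congr rfl fun w _ => ?_
  unfold avg
  refine Finset.sum_congr rfl fun v hv => ?_
  rw [hp v w (mem_cls.1 hv)]

end Pool.Agent.V7H68.MS
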