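import Pool.Agent.V7H68.MS.Doeb
import Pool.Agent.V7H68.MS.FamMain

/-!
Almost every point reaches an irreducible class.
-/

namespace Pool.Agent.V7H68.MS

open Finset Real MeasureTheory SS

set_option linter.unusedSectionVars false

variable {ι : Type} [Fintype ι] [DecidableEq ι]

theorem vol_affine {N : ℝ} (hN : 0 < N) (z : ι → ℝ) (A : Set (ι → ℝ)) :
    volume {v : ι → ℝ | (fun i => N * v i - z i) ∈ A} =
      ENNReal.ofReal ((N ^ Fintype.card ι)⁻¹) * volume A := by
  have h1 : {v : ι → ℝ | (fun i => N * v i - z i) ∈ A} =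
      (fun v : ι → ℝ => N • v) ⁻¹' ((fun v : ι → ℝ => -z + v) ⁻¹' A) := by
    ext v
    simp only [Set.mem_ofPred_eq, Set.mem_preimage]
    have : (fun i => N * v i - z i) = -z + N • v := by
      funext i
      simp only [Pi.add_apply, Pi.neg_apply, Pi.smul_apply, smul_eq_mul]
      ring
    rw [this]
  rw [h1, Measure.addHaar_preimage_smul volume hN.ne', measure_preimage_add]
  congr 2
  rw [Module.finrank_fintype_fun_eq_card, abs_of_pos (by positivity)]

/-- The points which never reach an irreducible class. -/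
def Nev (b k : ℕ) (h : (ι → ℝ) → ι → ℝ) : Set (ι → ℝ) :=
  {v | v ∈ cube ι ∧ ∀ x : St ι, (∀ i, x.2 i < b ^ x.1) → v ∈ cell b x →
    ¬ ∃ C' : Set ((ι → ℝ) → ι → ℝ), Fam (b ^ k) C' ∧ zm (b ^ x.1) x.2 h ∈ C'}

theorem cell_comp {b : ℕ} (hb : 0 < b) {k l : ℕ} {z z' : ι → ℕ} {v : ι → ℝ}
    (h : (fun i => (b:ℝ) ^ k * v i - z i) ∈ cell b (l, z')) :
    v ∈ cell b (k + l, fun i => b ^ l * z i + z' i) := by
  intro i
  have h1 := h i
  simp only at h1 ⊢
  push_cast
  rw [pow_add]
  have e : (b:ℝ) ^ k * (b:ℝ) ^ l * v i - ((b:ℝ) ^ l * z i + z' i) =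
      (b:ℝ) ^ l * ((b:ℝ) ^ k * v i - z i) - z' i := by ring
  rw [e]
  exact h1

theorem nev_step {b k : ℕ} (hb : 0 < b) (h : (ι → ℝ) → ι → ℝ) {z : ι → ℕ}
    (hz : ∀ i, z i < b ^ k) : Nev b k h ∩ cell b (k, z) ⊆
      {v | (fun i => (b:ℝ) ^ k * v i - (z i : ℝ)) ∈ Nev b k (zm (b ^ k) z h)} := by
  rintro v ⟨hv, hvc⟩
  refine ⟨hvc, ?_⟩
  rintro ⟨l, z'⟩ hz' hvl ⟨C', hC', hmem⟩
  refine hv.2 (k + l, fun i => b ^ l * z i + z' i) (fun i => ?_) (cell_comp hb hvl) ⟨C', hC', ?_⟩
  · have h1 := hz i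
    have h2 : z' i < b ^ l := hz' i
    have h3 : b ^ l * (z i + 1) ≤ b ^ l * b ^ k := Nat.mul_le_mul_left _ h1
    simp only
    rw [pow_add]
    nlinarith
  · simp only at hmem ⊢
    rw [zm_zm (by positivity) (by positivity) _ _ hz', ← pow_add] at hmem
    exact hmem

theorem nev_null [Nonempty ι] {b : ℕ} (hb : 2 ≤ b) {C : Set ((ι → ℝ) → ι → ℝ)} (hC : Pre b C)
    {k : ℕ} (hk : ∀ h ∈ C, ∃ z : ι → ℕ, (∀ i, z i < b ^ k) ∧
      ∃ C' : Set ((ι → ℝ) → ι → ℝ), Fam (b ^ k) C' ∧ zm (b ^ k) z h ∈ C')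
    {h : (ι → ℝ) → ι → ℝ} (hh : h ∈ C) : volume (Nev b k h) = 0 := by
  classical
  have hb' : 0 < b := by omega
  have hb0 : (0:ℝ) < b := by exact_mod_cast hb'
  have hb1 : (1:ℝ) ≤ b := by exact_mod_cast hb'
  set N : ℝ := ((b:ℝ) ^ k) ^ Fintype.card ι with hN
  have hN1 : 1 ≤ N := one_le_pow₀ (one_le_pow₀ hb1)
  set ρ : ℝ := 1 - N⁻¹ with hρ
  have hρ0 : 0 ≤ ρ := by rw [hρ, sub_nonneg]; exact inv_le_one_of_one_le₀ hN1
  have hρ1 : ρ < 1 := by rw [hρ]; have : 0 < N⁻¹ := by positivity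
                         linarith
  have hcube : volume (cube ι) = 1 := by
    have := (cube_prob (ι := ι)).measure_univ
    rwa [Measure.restrict_apply_univ] at this
  have key : ∀ n : ℕ, ∀ h ∈ C, volume (Nev b k h) ≤ ENNReal.ofReal (ρ ^ n) := by
    intro n
    induction n with
    | zero =>
      intro h _
      rw [pow_zero, ENNReal.ofReal_one, ← hcube]
      exact measure_mono fun v hv => hv.1
    | succ n ih =>
      intro h hh
      obtain ⟨zs, hzs, C', hC', hmem⟩ := hk h hh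
      set ws : ι → Fin (b ^ k) := fun i => ⟨zs i, hzs i⟩ with hws
      have hdvws : dv ws = zs := rfl
      have hsub : Nev b k h ⊆ ⋃ w ∈ (Finset.univ.erase ws : Finset (ι → Fin (b ^ k))),
          (Nev b k h ∩ cell b (k, dv w)) := by
        intro v hv
        have hv0 : v ∈ cell b ((0, 0) : St ι) := by
          intro i
          simpa using hv.1 i
        -- the cell of level k
        have hfl : ∀ i, ⌊(b:ℝ) ^ k * v i⌋₊ < b ^ k := by
          intro i
          rw [Nat.floor_lt (mul_nonneg (by positivity) (hv.1 i).1)]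
          push_cast
          exact mul_lt_of_lt_one_right (by positivity) (hv.1 i).2
        set w : ι → Fin (b ^ k) := fun i => ⟨_, hfl i⟩ with hw
        have hvw : v ∈ cell b (k, dv w) := by
          intro i
          simp only [dv, hw]
          have h0 : 0 ≤ (b:ℝ) ^ k * v i := mul_nonneg (by positivity) (hv.1 i).1
          have h4 := Nat.floor_le h0
          have h5 := Nat.lt_floor_add_one ((b:ℝ) ^ k * v i)
          constructor <;> linarith
        refine Set.mem_biUnion (x := w) ?_ ⟨hv, hvw⟩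
        rw [Finset.mem_coe, Finset.mem_erase]
        refine ⟨?_, Finset.mem_univ _⟩
        intro he
        rw [he] at hvw
        exact hv.2 (k, dv ws) (by rw [hdvws]; exact hzs) hvw ⟨C', hC', by rw [hdvws]; exact hmem⟩
      refine (measure_mono hsub).trans ((measure_biUnion_finset_le _ _).trans ?_)
      have h1 : ∀ w ∈ (Finset.univ.erase ws : Finset (ι → Fin (b ^ k))),
          volume (Nev b k h ∩ cell b (k, dv w)) ≤
            ENNReal.ofReal (N⁻¹) * ENNReal.ofReal (ρ ^ n) := by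
        intro w _
        refine (measure_mono (nev_step hb' h (dv_lt w))).trans ?_
        rw [vol_affine (by positivity) (fun i => ((dv w i : ℕ) : ℝ))]
        exact mul_le_mul_right (ih _ (hC.closed_pow hb' k h hh _ (dv_lt w))) _
      refine (Finset.sum_le_sum h1).trans (le_of_eq ?_)
      rw [Finset.sum_const, nsmul_eq_mul, Finset.card_erase_of_mem (Finset.mem_univ _),
        Finset.card_univ, ← ENNReal.ofReal_mul (by positivity), ← ENNReal.ofReal_natCast,
        ← ENNReal.ofReal_mul (by positivity)]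
      congr 1
      have h2 : ((Fintype.card (ι → Fin (b ^ k)) - 1 : ℕ) : ℝ) = N - 1 := by
        have h3 : 1 ≤ Fintype.card (ι → Fin (b ^ k)) := Fintype.card_pos_iff.2 ⟨ws⟩
        rw [Nat.cast_sub h3, Fintype.card_pi]
        simp [hN]
      rw [h2, pow_succ, hρ]
      have hNne : N ≠ 0 := by positivity
      field_simp
  have hlim : Filter.Tendsto (fun n : ℕ => ENNReal.ofReal (ρ ^ n)) Filter.atTop
      (nhds (ENNReal.ofReal 0)) :=
    ENNReal.tendsto_ofReal (tendsto_pow_atTop_nhds_zero_of_lt_one hρ0 hρ1)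
  have h1 : volume (Nev b k h) ≤ ENNReal.ofReal 0 :=
    ge_of_tendsto' hlim fun n => key n h hh
  rw [ENNReal.ofReal_zero] at h1
  exact le_antisymm h1 zero_le

end Pool.Agent.V7H68.MS
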