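import Mathlib

/-!
Slices of sets of Hausdorff measure zero.
-/

namespace Pool.Agent.V7H68.MS

open MeasureTheory Metric Filter
open scoped ENNReal Topology

variable {ι : Type} [Fintype ι]

theorem exists_cover {X : Type*} [EMetricSpace X] [MeasurableSpace X] [BorelSpace X] {d : ℝ}
    {K : Set X} (hK : μH[d] K = 0) {r ε : ℝ≥0∞} (hr : 0 < r) (hε : 0 < ε) :
    ∃ U : ℕ → Set X, K ⊆ ⋃ n, U n ∧ (∀ n, ediam (U n) ≤ r) ∧
      ∑' n, ⨆ _ : (U n).Nonempty, ediam (U n) ^ d < ε := by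
  rw [Measure.hausdorffMeasure_apply] at hK
  simp only [ENNReal.iSup_eq_zero] at hK
  have h2 := hK r hr
  have h3 : (⨅ (t : ℕ → Set X) (_ : K ⊆ ⋃ n, t n) (_ : ∀ n, ediam (t n) ≤ r),
      ∑' n, ⨆ _ : (t n).Nonempty, ediam (t n) ^ d) < ε := lt_of_eq_of_lt h2 hε
  simp only [iInf_lt_iff, exists_prop] at h3
  exact h3

/-- Almost all slices of a null set are null. -/
theorem slice {σ : ℝ} (hσ : 0 < σ) {K : Set ((ι → ℝ) × ℝ)} (hK : μH[σ + 1] K = 0) :
    ∀ᵐ t : ℝ, μH[σ] {x : ι → ℝ | (x, t) ∈ K} = 0 := by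
  have hε : ∀ n : ℕ, (0:ℝ≥0∞) < (2:ℝ≥0∞)⁻¹ ^ n := fun n => by
    apply ENNReal.pow_pos
    simp
  choose U hU1 hU2 hU3 using fun n => exists_cover hK (hε n) (hε n)
  set J : ℕ → ℕ → Set ℝ := fun n i => closure (Prod.snd '' U n i) with hJ
  set g : ℕ → ℝ → ℝ≥0∞ := fun n t => ∑' i, (J n i).indicator (fun _ => ediam (U n i) ^ σ) t
    with hg
  have hJm : ∀ n i, MeasurableSet (J n i) := fun n i => isClosed_closure.measurableSet
  have hgm : ∀ n, Measurable (g n) := fun n =>
    Measurable.tsum fun i => measurable_const.indicator (hJm n i)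
  have hJv : ∀ n i, volume (J n i) ≤ ediam (U n i) := by
    intro n i
    refine (Real.volume_le_diam _).trans ?_
    rw [hJ]
    simp only
    rw [Metric.ediam_closure]
    have := (LipschitzWith.prod_snd (α := ι → ℝ) (β := ℝ)).ediam_image_le (U n i)
    simpa using this
  have hint : ∀ n, ∫⁻ t, g n t ≤ (2:ℝ≥0∞)⁻¹ ^ n := by
    intro n
    rw [hg]
    simp only
    rw [lintegral_tsum fun i => (measurable_const.indicator (hJm n i)).aemeasurable]
    refine le_trans (ENNReal.tsum_le_tsum fun i => ?_) (hU3 n).le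
    rw [lintegral_indicator_const (hJm n i)]
    rcases (U n i).eq_empty_or_nonempty with h | h
    · have : J n i = ∅ := by rw [hJ]; simp [h]
      rw [this]
      simp
    · refine le_trans ?_ (le_iSup_of_le h le_rfl)
      rw [ENNReal.rpow_add_of_nonneg _ _ hσ.le zero_le_one, ENNReal.rpow_one]
      exact mul_le_mul_right (hJv n i) _
  have hsum : ∫⁻ t, ∑' n, g n t ≠ ⊤ := by
    rw [lintegral_tsum fun n => (hgm n).aemeasurable]
    refine ne_top_of_le_ne_top ?_ (ENNReal.tsum_le_tsum hint)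
    rw [ENNReal.tsum_geometric, ENNReal.one_sub_inv_two, inv_inv]
    exact ENNReal.ofNat_ne_top
  have hae := ae_lt_top (Measurable.tsum fun n => hgm n) hsum
  filter_upwards [hae] with t ht
  have hlim : Tendsto (fun n => g n t) atTop (𝓝 0) := ENNReal.tendsto_atTop_zero_of_tsum_ne_top ht.ne
  have hr : Tendsto (fun n : ℕ => (2:ℝ≥0∞)⁻¹ ^ n) atTop (𝓝 0) :=
    ENNReal.tendsto_pow_atTop_nhds_zero_of_lt_one (by simp)
  set S : ℕ → ℕ → Set (ι → ℝ) := fun n i => {x | (x, t) ∈ U n i} with hS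
  have hdS : ∀ n i, ediam (S n i) ≤ ediam (U n i) := by
    intro n i
    refine Metric.ediam_le fun x hx y hy => ?_
    have h1 := Metric.edist_le_ediam_of_mem (show (x, t) ∈ U n i from hx)
      (show (y, t) ∈ U n i from hy)
    refine le_trans ?_ h1
    rw [Prod.edist_eq]
    exact le_max_left _ _
  have h1 := Measure.hausdorffMeasure_le_liminf_tsum σ {x : ι → ℝ | (x, t) ∈ K}
    (fun n : ℕ => (2:ℝ≥0∞)⁻¹ ^ n) hr S
    (Eventually.of_forall fun n i => (hdS n i).trans (hU2 n i))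
    (Eventually.of_forall fun n x hx => by
      have := hU1 n (show (x, t) ∈ K from hx)
      rw [Set.mem_iUnion] at this ⊢
      exact this)
  have h2 : ∀ n, ∑' i, ediam (S n i) ^ σ ≤ g n t := by
    intro n
    refine ENNReal.tsum_le_tsum fun i => ?_
    rcases (S n i).eq_empty_or_nonempty with h | ⟨x, hx⟩
    · rw [h]
      simp [ENNReal.zero_rpow_of_pos hσ]
    · have hmem : t ∈ J n i := subset_closure ⟨(x, t), hx, rfl⟩
      rw [Set.indicator_of_mem hmem]
      exact ENNReal.rpow_le_rpow (hdS n i) hσ.le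
  have h3 : liminf (fun n => ∑' i, ediam (S n i) ^ σ) atTop ≤ 0 := by
    have h5 : Tendsto (fun n => ∑' i, ediam (S n i) ^ σ) atTop (𝓝 0) :=
      tendsto_of_tendsto_of_tendsto_of_le_of_le tendsto_const_nhds hlim (fun _ => zero_le) h2
    exact h5.liminf_eq.le
  exact le_antisymm (h1.trans h3) zero_le

end Pool.Agent.V7H68.MS
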