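import Pool.Agent.V7H68.MS.Conc
import Pool.Agent.V7H68.MS.Inv
import Pool.Agent.V7H68.SS.Struct

/-!
Structure theorem for Markov systems.
-/

namespace Pool.Agent.V7H68.MS

open Finset Real MeasureTheory SS

set_option linter.unusedSectionVars false

variable {b : ℕ} {D S : Type} [Fintype D] [Fintype S] [Nonempty D] [Nonempty S] {Θ : Type}
  [MeasurableSpace Θ]

theorem structure_aux (hb : 2 ≤ b) (n : ℕ) : ∀ (ι : Type) [Fintype ι] [DecidableEq ι]
    (G : Sys b D S Θ ι), Fintype.card ι = n →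
    ∃ (l : ℕ) (κ : Type) (_ : Fintype κ) (P : (ι → ℝ) →ₗ[ℝ] (κ → ℝ)),
      Fintype.card κ + l = Fintype.card ι ∧ Function.Surjective P ∧
      ∀ (A : ℕ) (η : ℝ), 0 < η → ∃ k0 : ℕ, ∀ (k : ℕ) (s : S), k0 ≤ k → ∃ w0 : Fin k → D,
        (Fintype.card (Fin k → D) : ℝ) * exp (- ((G.alpha - l * log b + η) * k)) ≤
        (Nat.card {w : Fin k → D //
          ‖(b:ℝ) ^ (A * k) • (P (XW b G.δ G.x k s w) - P (XW b G.δ G.x k s w0))‖ ≤ 1} : ℝ) := by
  induction n with
  | zero =>
    intro ι _ _ G hcard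
    have hemp : IsEmpty ι := Fintype.card_eq_zero_iff.1 hcard
    refine ⟨0, ι, inferInstance, LinearMap.id, by simp, Function.surjective_id, ?_⟩
    intro A η hη
    refine ⟨0, fun k s _ => ⟨Classical.arbitrary _, ?_⟩⟩
    have ha : G.alpha = 0 := by
      have h1 := G.alpha_le (by omega)
      rw [hcard] at h1
      have h2 := G.alpha_nonneg (by omega)
      simp at h1
      linarith
    have h1 : Nat.card {w : Fin k → D //
          ‖(b:ℝ) ^ (A * k) • (LinearMap.id (R := ℝ) (XW b G.δ G.x k s w) -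
            LinearMap.id (R := ℝ) (XW b G.δ G.x k s (Classical.arbitrary _)))‖ ≤ 1} =
        Fintype.card (Fin k → D) := by
      have h2 : ∀ w : Fin k → D, ‖(b:ℝ) ^ (A * k) • (LinearMap.id (R := ℝ)
            (XW b G.δ G.x k s w) -
            LinearMap.id (R := ℝ) (XW b G.δ G.x k s (Classical.arbitrary _)))‖ ≤ 1 := by
        intro w
        have : (b:ℝ) ^ (A * k) • (LinearMap.id (R := ℝ) (XW b G.δ G.x k s w) -
            LinearMap.id (R := ℝ) (XW b G.δ G.x k s (Classical.arbitrary _))) = 0 :=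
          Subsingleton.elim _ _
        rw [this]
        simp
      rw [← Nat.card_eq_fintype_card]
      exact Nat.card_congr (Equiv.subtypeUnivEquiv h2)
    rw [h1, ha]
    have h3 : exp (-((0 - ((0:ℕ):ℝ) * log b + η) * k)) ≤ 1 := by
      rw [Real.exp_le_one_iff]
      push_cast
      have : 0 ≤ η * k := by positivity
      linarith
    have h4 : (0:ℝ) ≤ Fintype.card (Fin k → D) := by positivity
    nlinarith
  | succ n ih =>
    intro ι _ _ G hcard
    have hbp : 0 < b := by omega
    by_cases hne : ∀ y, y ≠ 0 → G.ns y ≠ 0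
    · refine ⟨0, ι, inferInstance, LinearMap.id, by simp, Function.surjective_id, ?_⟩
      intro A η hη
      obtain ⟨k0, hk0⟩ := G.conc hb hne A hη
      refine ⟨k0, fun k s hk => ?_⟩
      obtain ⟨w0, hw0⟩ := hk0 k s hk
      refine ⟨w0, ?_⟩
      simpa using hw0
    · push Not at hne
      obtain ⟨u, hu0, hu'⟩ := hne
      have hu := G.nn_of_ns hbp hu0 hu'
      obtain ⟨p, hp⟩ : ∃ p, u p ≠ 0 := by
        by_contra hcon
        push Not at hcon
        exact hu0 (funext hcon)
      obtain ⟨N, hN⟩ := exists_nat_ge (1 / |u p|)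
      set u' : ι → ℝ := (N:ℝ) • u with hu'
      have hp' : 1 ≤ |u' p| := by
        rw [hu']
        simp only [Pi.smul_apply, smul_eq_mul, abs_mul]
        rw [div_le_iff₀ (abs_pos.2 hp)] at hN
        rw [abs_of_nonneg (show (0:ℝ) ≤ N by positivity)]
        exact hN
      have hnu' : G.nn u' = 0 := G.nn_nsmul hbp hu N
      have hsplit := G.alpha_split hb hp' hnu'
      have hcard' : Fintype.card {i // i ≠ p} = n := by
        rw [Fintype.card_subtype_compl, hcard]
        simp
      obtain ⟨l, κ, hκ, P, h1, h2, h3⟩ := ih {i // i ≠ p} (G.map (prj u' p)) hcard'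
      refine ⟨l + 1, κ, hκ, P.comp (prj u' p), ?_, ?_, ?_⟩
      · rw [hcard, ← add_assoc, h1, hcard']
      · exact h2.comp prj_surj
      · intro A η hη
        obtain ⟨k0, hk0⟩ := h3 A η hη
        refine ⟨k0, fun k s hk => ?_⟩
        obtain ⟨w0, hw0⟩ := hk0 k s hk
        refine ⟨w0, ?_⟩
        have h4 : ∀ w, P (XW b (G.map (prj u' p)).δ (G.map (prj u' p)).x k s w) =
            (P.comp (prj u' p)) (XW b G.δ G.x k s w) := by
          intro w
          have : XW b (G.map (prj u' p)).δ (G.map (prj u' p)).x k s w =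
              prj u' p (XW b G.δ G.x k s w) := XW_map (prj u' p) G.δ G.x k s w
          rw [this]
          rfl
        simp only [h4] at hw0
        refine le_trans ?_ hw0
        refine mul_le_mul_of_nonneg_left ?_ (by positivity)
        apply Real.exp_le_exp.2
        have hk : (0:ℝ) ≤ k := by positivity
        push_cast
        nlinarith

/-- Structure theorem. -/
theorem structure_thm (hb : 2 ≤ b) {ι : Type} [Fintype ι] (G : Sys b D S Θ ι) :
    ∃ (l : ℕ) (κ : Type) (_ : Fintype κ) (P : (ι → ℝ) →ₗ[ℝ] (κ → ℝ)),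
      Fintype.card κ + l = Fintype.card ι ∧ Function.Surjective P ∧
      ∀ (A : ℕ) (η : ℝ), 0 < η → ∃ k0 : ℕ, ∀ (k : ℕ) (s : S), k0 ≤ k → ∃ w0 : Fin k → D,
        (Fintype.card (Fin k → D) : ℝ) * exp (- ((G.alpha - l * log b + η) * k)) ≤
        (Nat.card {w : Fin k → D //
          ‖(b:ℝ) ^ (A * k) • (P (XW b G.δ G.x k s w) - P (XW b G.δ G.x k s w0))‖ ≤ 1} : ℝ) := by
  classical
  exact structure_aux hb _ ι G rfl

end Pool.Agent.V7H68.MS
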