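import Pool.Agent.V7H68.MS.Mix
import Pool.Agent.V7H68.SS.Win

/-!
Markov systems of digits: the law of the point depends on a finite state.
-/

namespace Pool.Agent.V7H68.MS

open Finset Real MeasureTheory SS

set_option linter.unusedSectionVars false

/-- A finite-state digit system. -/
structure Sys (b : ℕ) (D S : Type) [Fintype D] [Fintype S] (Θ : Type) [MeasurableSpace Θ]
    (ι : Type) [Fintype ι] where
  /-- the law of the parameter -/
  μ : Measure Θ
  prob : IsProbabilityMeasure μ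
  /-- insertion of a first digit -/
  τ : D → Θ → Θ
  inv : ∀ f : Θ → ℝ, Measurable f → (∃ M, ∀ θ, |f θ| ≤ M) →
    ∫ θ, f θ ∂μ = ∑ d, (Fintype.card D : ℝ)⁻¹ * ∫ θ, f (τ d θ) ∂μ
  /-- the transitions -/
  δ : S → D → S
  /-- the digit vectors -/
  x : S → D → ι → ℝ
  /-- the points -/
  Z : S → Θ → ι → ℝ
  meas_Z : ∀ s, Measurable (Z s)
  /-- a bound -/
  R : ℝ
  bdd : ∀ s θ, ‖Z s θ‖ ≤ R
  eqn : ∀ s d, ∀ᵐ θ ∂μ, Z s (τ d θ) = (b:ℝ)⁻¹ • (x s d + Z (δ s d) θ)
  irr : ∀ s s', ∃ d, δ s d = s'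

section words

variable {D S : Type} {ι : Type*}

/-- The state after a word. -/
def run (δ : S → D → S) : (n : ℕ) → S → (Fin n → D) → S
  | 0, s, _ => s
  | n + 1, s, w => run δ n (δ s (w 0)) (fun j => w j.succ)

/-- The sum of the digits of a word, the first digit being the coarsest. -/
noncomputable def XW (b : ℕ) (δ : S → D → S) (x : S → D → ι → ℝ) :
    (n : ℕ) → S → (Fin n → D) → ι → ℝ
  | 0, _, _ => 0
  | n + 1, s, w => (b:ℝ) ^ n • x s (w 0) + XW b δ x n (δ s (w 0)) (fun j => w j.succ)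

end words

variable {b : ℕ} {D S : Type} [Fintype D] [Fintype S] [Nonempty D] [Nonempty S] {Θ : Type}
  [MeasurableSpace Θ] {ι : Type} [Fintype ι] (G : Sys b D S Θ ι)

/-- The density of the point at scale `b^(-k)`. -/
noncomputable def Sys.P (s : S) (k : ℤ) (u : ι → ℝ) : ℝ :=
  ∫ θ, q0 (u - (b:ℝ) ^ k • G.Z s θ) ∂G.μ

theorem Sys.R_nonneg [Nonempty Θ] : 0 ≤ G.R :=
  (norm_nonneg _).trans (G.bdd (Classical.arbitrary S) (Classical.arbitrary Θ))

theorem q0_meas : Measurable (q0 : (ι → ℝ) → ℝ) := measurable_one.indicator cube_meas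

theorem q0_abs_le (u : ι → ℝ) : |q0 u| ≤ 1 := by
  rcases q0_zero_or_one u with h | h <;> simp [h]

theorem Sys.meas_int (s : S) (k : ℤ) (u : ι → ℝ) :
    Measurable (fun θ => q0 (u - (b:ℝ) ^ k • G.Z s θ)) := by
  have h : Measurable (fun θ => (b:ℝ) ^ k • G.Z s θ) := (G.meas_Z s).const_smul ((b:ℝ) ^ k)
  exact q0_meas.comp (measurable_const.sub h)

theorem integrable_of_bdd {Θ : Type*} [MeasurableSpace Θ] {μ : Measure Θ} [IsFiniteMeasure μ]
    {f : Θ → ℝ} (hf : Measurable f) {M : ℝ} (hM : ∀ θ, |f θ| ≤ M) : Integrable f μ :=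
  Integrable.of_bound hf.aestronglyMeasurable M
    (Filter.Eventually.of_forall fun θ => by simpa using hM θ)

theorem Sys.integrable_int (s : S) (k : ℤ) (u : ι → ℝ) :
    Integrable (fun θ => q0 (u - (b:ℝ) ^ k • G.Z s θ)) G.μ := by
  have := G.prob
  exact integrable_of_bdd (G.meas_int s k u) (fun _ => q0_abs_le _)

theorem Sys.P_nonneg (s : S) (k : ℤ) (u : ι → ℝ) : 0 ≤ G.P s k u :=
  integral_nonneg fun θ => q0_dens.nonneg _

theorem Sys.P_le_one (s : S) (k : ℤ) (u : ι → ℝ) : G.P s k u ≤ 1 := by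
  have := G.prob
  unfold Sys.P
  calc ∫ θ, q0 (u - (b:ℝ) ^ k • G.Z s θ) ∂G.μ ≤ ∫ _, (1:ℝ) ∂G.μ :=
        integral_mono (G.integrable_int s k u) (integrable_const 1) fun _ => q0_dens.le_one _
    _ = 1 := by simp

theorem Sys.P_supp (s : S) (k : ℤ) (hb : 0 < b) {u : ι → ℝ} (hu : 1 + (b:ℝ) ^ k * G.R < ‖u‖) :
    G.P s k u = 0 := by
  have hb0 : (0:ℝ) < b := by exact_mod_cast hb
  unfold Sys.P
  have : ∀ θ, q0 (u - (b:ℝ) ^ k • G.Z s θ) = 0 := by
    intro θ
    apply q0_supp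
    have h1 := norm_sub_norm_le u ((b:ℝ) ^ k • G.Z s θ)
    rw [norm_smul, Real.norm_of_nonneg (by positivity)] at h1
    have h2 : (b:ℝ) ^ k * ‖G.Z s θ‖ ≤ (b:ℝ) ^ k * G.R :=
      mul_le_mul_of_nonneg_left (G.bdd s θ) (by positivity)
    linarith
  simp [this]

theorem Sys.P_dens (hb : 0 < b) (s : S) (k : ℤ) : Dens (G.P s k) := by
  have := G.prob
  have hjm : Measurable (fun z : (ι → ℝ) × Θ => q0 (z.1 - (b:ℝ) ^ k • G.Z s z.2)) := by
    have h : Measurable (fun z : (ι → ℝ) × Θ => (b:ℝ) ^ k • G.Z s z.2) :=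
      ((G.meas_Z s).comp measurable_snd).const_smul ((b:ℝ) ^ k)
    exact q0_meas.comp (measurable_fst.sub h)
  refine ⟨⟨?_, ⟨1, fun u => ?_⟩, ⟨1 + (b:ℝ) ^ k * G.R, fun u hu => G.P_supp s k hb hu⟩⟩,
    G.P_nonneg s k, G.P_le_one s k, ?_⟩
  · exact (hjm.stronglyMeasurable.integral_prod_right (f := fun (u : ι → ℝ) (θ : Θ) =>
      q0 (u - (b:ℝ) ^ k • G.Z s θ))).measurable
  · rw [abs_of_nonneg (G.P_nonneg s k u)]
    exact G.P_le_one s k u
  · unfold Sys.P
    have hint : Integrable (Function.uncurry fun (u : ι → ℝ) (θ : Θ) =>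
        q0 (u - (b:ℝ) ^ k • G.Z s θ)) (volume.prod G.μ) := by
      have hasm : AEStronglyMeasurable (Function.uncurry fun (u : ι → ℝ) (θ : Θ) =>
        q0 (u - (b:ℝ) ^ k • G.Z s θ)) (volume.prod G.μ) := hjm.aestronglyMeasurable
      rw [integrable_prod_iff' hasm]
      refine ⟨Filter.Eventually.of_forall fun θ => ?_, ?_⟩
      · exact (q0_dens.cs.comp_sub ((b:ℝ) ^ k • G.Z s θ)).integrable
      have : ∀ θ, ∫ u : ι → ℝ, ‖Function.uncurry (fun (u : ι → ℝ) (θ : Θ) =>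
        q0 (u - (b:ℝ) ^ k • G.Z s θ)) (u, θ)‖ = 1 := by
        intro θ
        simp only [Function.uncurry]
        have h1 : ∀ u : ι → ℝ, ‖q0 (u - (b:ℝ) ^ k • G.Z s θ)‖ = q0 (u - (b:ℝ) ^ k • G.Z s θ) :=
          fun u => Real.norm_of_nonneg (q0_dens.nonneg _)
        simp only [h1]
        rw [integral_comp_sub, q0_dens.mass]
      simp only [this]
      exact integrable_const 1
    rw [integral_integral_swap hint]
    have : ∀ θ, ∫ u : ι → ℝ, q0 (u - (b:ℝ) ^ k • G.Z s θ) = 1 := fun θ => by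
      rw [integral_comp_sub, q0_dens.mass]
    simp [this]

/-- First digit decomposition. -/
theorem Sys.P_succ (hb : 0 < b) (s : S) (k : ℤ) :
    G.P s (k + 1) = mixT (fun d => G.P (G.δ s d) k) (fun d => (b:ℝ) ^ k • G.x s d) := by
  have hb0 : (b:ℝ) ≠ 0 := by exact_mod_cast hb.ne'
  funext u
  unfold Sys.P mixT
  rw [G.inv _ (G.meas_int s (k + 1) u) ⟨1, fun θ => q0_abs_le _⟩]
  refine Finset.sum_congr rfl fun d _ => ?_
  congr 1
  refine integral_congr_ae ?_
  filter_upwards [G.eqn s d] with θ hθ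
  rw [hθ]
  congr 1
  rw [smul_smul, zpow_add_one₀ hb0, mul_assoc, mul_inv_cancel₀ hb0, mul_one, smul_add]
  abel

/-- Coarse-graining shifts the scale. -/
theorem Sys.coarse_P (hb : 0 < b) (s : S) (k : ℤ) : coarse b (G.P s k) = G.P s (k - 1) := by
  classical
  have hb0 : (b:ℝ) ≠ 0 := by exact_mod_cast hb.ne'
  funext u
  rw [coarse_apply]
  unfold Sys.P
  rw [← integral_finsetSum _ fun e _ => G.integrable_int s k _]
  congr 1
  funext θ
  have h1 : q0 (u - (b:ℝ) ^ (k - 1) • G.Z s θ) =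
      coarse b q0 (u - (b:ℝ) ^ (k - 1) • G.Z s θ) := by rw [coarse_q0 hb]
  rw [h1, coarse_apply]
  refine Finset.sum_congr rfl fun e _ => ?_
  congr 1
  rw [smul_sub, smul_smul, zpow_sub_one₀ hb0]
  have : (b:ℝ) * ((b:ℝ) ^ k * (b:ℝ)⁻¹) = (b:ℝ) ^ k := by field_simp
  rw [this]
  abel

/-- Decomposition along words. -/
theorem Sys.P_words (hb : 0 < b) (k : ℤ) (n : ℕ) : ∀ s : S,
    G.P s (k + n) = mixT (fun w : Fin n → D => G.P (run G.δ n s w) k)
      (fun w => (b:ℝ) ^ k • XW b G.δ G.x n s w) := by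
  induction n with
  | zero =>
    intro s
    funext u
    unfold mixT
    simp [run, XW]
  | succ n ih =>
    intro s
    have h1 : k + ((n + 1 : ℕ) : ℤ) = (k + n) + 1 := by push_cast; ring
    rw [h1, G.P_succ hb]
    funext u
    unfold mixT
    rw [← (Fin.consEquiv fun _ : Fin (n+1) => D).sum_comp, Fintype.sum_prod_type]
    refine Finset.sum_congr rfl fun d _ => ?_
    change (Fintype.card D : ℝ)⁻¹ * G.P (G.δ s d) (k + n) (u - (b:ℝ) ^ (k + (n:ℤ)) • G.x s d) = _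
    rw [ih (G.δ s d)]
    unfold mixT
    rw [Finset.mul_sum]
    refine Finset.sum_congr rfl fun w _ => ?_
    have h2 : (Fin.consEquiv fun _ : Fin (n+1) => D) (d, w) = Fin.cons d w := rfl
    have h3 : run G.δ (n + 1) s (Fin.cons d w) = run G.δ n (G.δ s d) w := by
      simp [run]
    have h4 : XW b G.δ G.x (n + 1) s (Fin.cons d w) =
        (b:ℝ) ^ n • G.x s d + XW b G.δ G.x n (G.δ s d) w := by
      simp [XW]
    simp only [h2, h3, h4]
    rw [← mul_assoc]
    have hb0 : (b:ℝ) ≠ 0 := by exact_mod_cast hb.ne'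
    congr 1
    · simp only [Fintype.card_pi, Finset.prod_const, Finset.card_univ, Fintype.card_fin]
      push_cast
      rw [pow_succ, mul_inv]
      ring
    · congr 1
      rw [smul_add, smul_smul, zpow_add₀ hb0, zpow_natCast]
      abel

/-- A bound for the digits. -/
noncomputable def xn (x : S → D → ι → ℝ) : ℝ := ∑ s, ∑ d, ‖x s d‖

theorem norm_le_xn (x : S → D → ι → ℝ) (s : S) (d : D) : ‖x s d‖ ≤ xn x :=
  (Finset.single_le_sum (f := fun d => ‖x s d‖) (fun _ _ => norm_nonneg _)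
    (Finset.mem_univ d)).trans
  (Finset.single_le_sum (f := fun s => ∑ d, ‖x s d‖)
    (fun _ _ => Finset.sum_nonneg fun _ _ => norm_nonneg _) (Finset.mem_univ s))

theorem xn_nonneg (x : S → D → ι → ℝ) : 0 ≤ xn x :=
  Finset.sum_nonneg fun _ _ => Finset.sum_nonneg fun _ _ => norm_nonneg _

theorem norm_XW_le (hb : 2 ≤ b) (δ : S → D → S) (x : S → D → ι → ℝ) (n : ℕ) :
    ∀ (s : S) (w : Fin n → D), ‖XW b δ x n s w‖ ≤ (b:ℝ) ^ n * xn x := by
  have hb2 : (2:ℝ) ≤ b := by exact_mod_cast hb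
  have h0 := xn_nonneg x
  induction n with
  | zero => intro s w; simp [XW, h0]
  | succ n ih =>
    intro s w
    simp only [XW]
    refine (norm_add_le _ _).trans ?_
    rw [norm_smul, Real.norm_of_nonneg (by positivity)]
    have h1 := ih (δ s (w 0)) (fun j => w j.succ)
    have h2 := norm_le_xn x s (w 0)
    have h3 : (0:ℝ) < (b:ℝ) ^ n := by positivity
    rw [pow_succ]
    nlinarith [mul_nonneg h3.le h0, mul_le_mul_of_nonneg_left h2 h3.le]

/-- Fine scales: the density agrees with the indicator of the cube off the boundary. -/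
theorem Sys.P_eq_q0 (s : S) (hb : 0 < b) {k : ℤ} {u y : ι → ℝ} {ρ : ℝ} (hρ : ρ ≤ 1)
    (hy : ‖y‖ + (b:ℝ) ^ k * G.R ≤ ρ) (h : bump ρ u < 1) : G.P s k (u - y) = q0 u := by
  have := G.prob
  have hb0 : (0:ℝ) < b := by exact_mod_cast hb
  unfold Sys.P
  have h1 : ∀ θ, q0 (u - y - (b:ℝ) ^ k • G.Z s θ) = q0 u := by
    intro θ
    rw [sub_sub]
    refine q0_eq_of_bump hρ ?_ h
    refine (norm_add_le _ _).trans (le_trans ?_ hy)
    rw [norm_smul, Real.norm_of_nonneg (by positivity)]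
    have h2 : (b:ℝ) ^ k * ‖G.Z s θ‖ ≤ (b:ℝ) ^ k * G.R :=
      mul_le_mul_of_nonneg_left (G.bdd s θ) (by positivity)
    linarith
  simp [h1]

theorem Sys.gap_fine (s : S) (hb : 0 < b) {k : ℤ} {Ξ : Type*} {t : Finset Ξ} (ht : t.Nonempty)
    (Y : Ξ → ι → ℝ) {ρ : ℝ} (hρ : ρ ≤ 1)
    (hY : ∀ w ∈ t, ∀ w' ∈ t, ‖Y w - Y w'‖ + (b:ℝ) ^ k * G.R ≤ ρ) :
    gap t Y (G.P s k) ≤ KK ι * ρ := by
  obtain ⟨w0, hw0⟩ := ht
  have hc : (0:ℝ) < t.card := by exact_mod_cast Finset.card_pos.2 ⟨w0, hw0⟩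
  have hd := (G.P_dens hb s k).avg ⟨w0, hw0⟩ Y
  have hR : 0 ≤ (b:ℝ) ^ k * G.R := by
    have hb0 : (0:ℝ) < b := by exact_mod_cast hb
    have := G.prob
    have hne : Nonempty Θ := by
      by_contra hcon
      rw [not_nonempty_iff] at hcon
      have h1 : G.μ Set.univ = 1 := measure_univ
      rw [Set.eq_empty_of_isEmpty Set.univ, measure_empty] at h1
      exact zero_ne_one h1
    exact mul_nonneg (by positivity) G.R_nonneg
  have hρ0 : 0 ≤ ρ := by
    have h1 := hY w0 hw0 w0 hw0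
    have h2 := norm_nonneg (Y w0 - Y w0)
    linarith
  have h0 := (G.P_dens hb s k).ent_nonneg
  unfold gap
  refine le_trans (show _ ≤ ent (avg t Y (G.P s k)) by linarith) ?_
  refine le_trans ?_ (bump_integral hρ0)
  rw [← integral_comp_sub (f := bump ρ) (Y w0)]
  unfold ent
  refine integral_mono hd.cs.negMulLog.integrable ((bump_cs ρ).comp_sub _).integrable ?_
  intro u
  simp only
  rcases lt_or_ge (bump ρ (u - Y w0)) 1 with h | h
  · have h1 : avg t Y (G.P s k) u = q0 (u - Y w0) := by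
      unfold avg
      have : ∀ w ∈ t, (t.card : ℝ)⁻¹ * G.P s k (u - Y w) = (t.card : ℝ)⁻¹ * q0 (u - Y w0) := by
        intro w hw
        congr 1
        rw [← G.P_eq_q0 s hb hρ (hY w hw w0 hw0) h]
        congr 1
        abel
      rw [Finset.sum_congr rfl this]
      simp only [Finset.sum_const, nsmul_eq_mul]
      field_simp
    rw [h1]
    refine le_trans (le_of_eq ?_) (bump_nonneg ρ _)
    rcases q0_zero_or_one (u - Y w0) with h2 | h2 <;> simp [h2]
  · exact (negMulLog_le_one (hd.nonneg u)).trans h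

theorem Sys.nrm_fine (s : S) (hb : 0 < b) {k : ℤ} {y : ι → ℝ} {ρ : ℝ} (hρ : ρ ≤ 1)
    (hy : ‖y‖ + (b:ℝ) ^ k * G.R ≤ ρ) (hR : 0 ≤ G.R) : nrm (G.P s k) y ≤ KK ι * ρ := by
  have hb0 : (0:ℝ) < b := by exact_mod_cast hb
  have hRk : 0 ≤ (b:ℝ) ^ k * G.R := mul_nonneg (by positivity) hR
  have hρ0 : 0 ≤ ρ := by have := norm_nonneg y; linarith
  have hd := G.P_dens hb s k
  refine le_trans ?_ (bump_integral hρ0)
  unfold nrm
  refine integral_mono ((hd.cs.comp_sub y).sub hd.cs).abs.integrable (bump_cs _).integrable ?_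
  intro u
  simp only
  rcases lt_or_ge (bump ρ u) 1 with h | h
  · have h1 := G.P_eq_q0 s hb hρ hy h
    have h2 : G.P s k (u - 0) = q0 u := G.P_eq_q0 s hb hρ (by
      rw [norm_zero]
      have := norm_nonneg y
      linarith) h
    rw [sub_zero] at h2
    rw [h1, h2]
    simp [bump_nonneg]
  · refine le_trans ?_ h
    have h1 := hd.nonneg u
    have h2 := hd.le_one u
    have h3 := hd.nonneg (u - y)
    have h4 := hd.le_one (u - y)
    rw [abs_le]
    constructor <;> linarith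

theorem nonempty_of_sys (G : Sys b D S Θ ι) : Nonempty Θ := by
  have := G.prob
  by_contra hcon
  rw [not_nonempty_iff] at hcon
  have h1 : G.μ Set.univ = 1 := measure_univ
  rw [Set.eq_empty_of_isEmpty Set.univ, measure_empty] at h1
  exact zero_ne_one h1

theorem Sys.R0 : 0 ≤ G.R := by
  have := nonempty_of_sys G
  exact G.R_nonneg

end Pool.Agent.V7H68.MS
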