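import Pool.Agent.V7H68.MS.Sys

/-!
Zooms of a function into the cells of a grid.
-/

namespace Pool.Agent.V7H68.MS

open Finset Real MeasureTheory SS

set_option linter.unusedSectionVars false

variable {ι : Type} [Fintype ι]

/-- A vector of natural numbers as a real vector. -/
def nv (z : ι → ℕ) : ι → ℝ := fun i => (z i : ℝ)

/-- The zoom of a function into a cell. -/
noncomputable def zm (N : ℕ) (z : ι → ℕ) (f : (ι → ℝ) → ι → ℝ) : (ι → ℝ) → ι → ℝ :=
  (cube ι).indicator fun v => (N:ℝ) • (f ((N:ℝ)⁻¹ • (nv z + v)) - f ((N:ℝ)⁻¹ • nv z))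

theorem zero_mem_cube : (0 : ι → ℝ) ∈ cube ι := fun _ => ⟨le_rfl, one_pos⟩

theorem affine_mem_cube {N : ℕ} {z : ι → ℕ} (hz : ∀ i, z i < N) {v : ι → ℝ} (hv : v ∈ cube ι) :
    (N:ℝ)⁻¹ • (nv z + v) ∈ cube ι := by
  intro i
  have hN : (0:ℝ) < N := by exact_mod_cast lt_of_le_of_lt (Nat.zero_le _) (hz i)
  have h1 : (z i : ℝ) + 1 ≤ N := by exact_mod_cast hz i
  simp only [Pi.smul_apply, Pi.add_apply, nv, smul_eq_mul]
  have h2 := hv i
  have h3 : (0:ℝ) ≤ z i := Nat.cast_nonneg _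
  rw [inv_mul_eq_div]
  constructor
  · exact div_nonneg (by linarith [h2.1]) hN.le
  · rw [div_lt_one hN]; linarith [h2.2]

theorem corner_mem_cube {N : ℕ} {z : ι → ℕ} (hz : ∀ i, z i < N) :
    (N:ℝ)⁻¹ • nv z ∈ cube ι := by
  have := affine_mem_cube hz (zero_mem_cube (ι := ι))
  rwa [add_zero] at this

theorem zm_of_mem {N : ℕ} {z : ι → ℕ} {f : (ι → ℝ) → ι → ℝ} {v : ι → ℝ} (hv : v ∈ cube ι) :
    zm N z f v = (N:ℝ) • (f ((N:ℝ)⁻¹ • (nv z + v)) - f ((N:ℝ)⁻¹ • nv z)) :=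
  Set.indicator_of_mem hv _

theorem zm_of_not_mem {N : ℕ} {z : ι → ℕ} {f : (ι → ℝ) → ι → ℝ} {v : ι → ℝ}
    (hv : v ∉ cube ι) : zm N z f v = 0 :=
  Set.indicator_of_notMem hv _

theorem zm_zero (N : ℕ) (z : ι → ℕ) (f : (ι → ℝ) → ι → ℝ) : zm N z f 0 = 0 := by
  rw [zm_of_mem zero_mem_cube, add_zero, sub_self, smul_zero]

theorem zm_zm {N M : ℕ} (hN : 0 < N) (hM : 0 < M) (z z2 : ι → ℕ) (h2 : ∀ i, z2 i < M)
    (f : (ι → ℝ) → ι → ℝ) :
    zm M z2 (zm N z f) = zm (N * M) (fun i => M * z i + z2 i) f := by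
  have hN0 : (N:ℝ) ≠ 0 := by exact_mod_cast hN.ne'
  have hM0 : (M:ℝ) ≠ 0 := by exact_mod_cast hM.ne'
  funext v
  by_cases hv : v ∈ cube ι
  · rw [zm_of_mem hv, zm_of_mem (affine_mem_cube h2 hv), zm_of_mem (corner_mem_cube h2),
      zm_of_mem hv]
    have h3 : (N:ℝ)⁻¹ • (nv z + (M:ℝ)⁻¹ • (nv z2 + v)) =
        ((N * M : ℕ) : ℝ)⁻¹ • (nv (fun i => M * z i + z2 i) + v) := by
      funext i
      simp only [Pi.smul_apply, Pi.add_apply, nv, smul_eq_mul]
      push_cast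
      field_simp
      ring
    have h4 : (N:ℝ)⁻¹ • (nv z + (M:ℝ)⁻¹ • nv z2) =
        ((N * M : ℕ) : ℝ)⁻¹ • nv (fun i => M * z i + z2 i) := by
      funext i
      simp only [Pi.smul_apply, Pi.add_apply, nv, smul_eq_mul]
      push_cast
      field_simp
    rw [h3, h4, ← smul_sub, smul_smul]
    push_cast
    rw [mul_comm]
    congr 1
    abel
  · rw [zm_of_not_mem hv, zm_of_not_mem hv]

/-- A finite closed class of functions. -/
structure Pre (b : ℕ) (C : Set ((ι → ℝ) → ι → ℝ)) : Prop where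
  fin : C.Finite
  off : ∀ f ∈ C, ∀ u ∉ cube ι, f u = 0
  zero : ∀ f ∈ C, f 0 = 0
  bdd : ∃ R, ∀ f ∈ C, ∀ u, ‖f u‖ ≤ R
  closed : ∀ f ∈ C, ∀ z : ι → ℕ, (∀ i, z i < b) → zm b z f ∈ C

/-- A finite closed irreducible class of functions. -/
structure Fam (b : ℕ) (C : Set ((ι → ℝ) → ι → ℝ)) : Prop extends Pre b C where
  irr : ∀ f ∈ C, ∀ g ∈ C, ∃ z : ι → ℕ, (∀ i, z i < b) ∧ zm b z f = g

theorem zm_one {f : (ι → ℝ) → ι → ℝ} (h0 : f 0 = 0) (hoff : ∀ u ∉ cube ι, f u = 0) {z : ι → ℕ}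
    (hz : ∀ i, z i < 1) : zm 1 z f = f := by
  have hz0 : nv z = 0 := by
    funext i
    have : z i = 0 := by have := hz i; omega
    simp [nv, this]
  funext v
  by_cases hv : v ∈ cube ι
  · rw [zm_of_mem hv, hz0]
    simp [h0]
  · rw [zm_of_not_mem hv, hoff v hv]

theorem Pre.closed_pow {b : ℕ} (hb : 0 < b) {C : Set ((ι → ℝ) → ι → ℝ)} (h : Pre b C) (q : ℕ) :
    ∀ f ∈ C, ∀ z : ι → ℕ, (∀ i, z i < b ^ q) → zm (b ^ q) z f ∈ C := by
  induction q with
  | zero =>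
    intro f hf z hz
    rw [pow_zero] at hz ⊢
    rw [zm_one (h.zero f hf) (h.off f hf) hz]
    exact hf
  | succ q ih =>
    intro f hf z hz
    have h1 : zm (b ^ (q + 1)) z f = zm b (fun i => z i % b) (zm (b ^ q) (fun i => z i / b) f) := by
      rw [zm_zm (by positivity) hb _ _ (fun i => Nat.mod_lt _ hb), ← pow_succ]
      congr 1
      funext i
      exact (Nat.div_add_mod (z i) b).symm
    rw [h1]
    refine h.closed _ (ih f hf _ fun i => ?_) _ fun i => Nat.mod_lt _ hb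
    refine Nat.div_lt_of_lt_mul ?_
    have := hz i
    rw [pow_succ] at this
    linarith

/-- The functions of a class are measurable. -/
theorem Pre.meas {b : ℕ} (hb : 2 ≤ b) {C : Set ((ι → ℝ) → ι → ℝ)} (h : Pre b C)
    {f : (ι → ℝ) → ι → ℝ} (hf : f ∈ C) : Measurable f := by
  obtain ⟨R, hR⟩ := h.bdd
  have hb0 : (0:ℝ) < b := by exact_mod_cast (by omega : 0 < b)
  have hb1 : (1:ℝ) < b := by exact_mod_cast (by omega : 1 < b)
  set F : ℕ → (ι → ℝ) → ι → ℝ := fun n => (cube ι).indicator fun v =>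
    f (((b ^ n : ℕ) : ℝ)⁻¹ • nv fun i => ⌊(b:ℝ) ^ n * v i⌋₊) with hF
  have hFm : ∀ n, Measurable (F n) := by
    intro n
    refine Measurable.indicator ?_ cube_meas
    have h1 : Measurable fun v : ι → ℝ => (fun i => ⌊(b:ℝ) ^ n * v i⌋₊ : ι → ℕ) := by
      refine measurable_pi_lambda _ fun i => Nat.measurable_floor.comp ?_
      exact (measurable_pi_apply i).const_mul _
    have h2 : Measurable fun z : ι → ℕ => f (((b ^ n : ℕ) : ℝ)⁻¹ • nv z) :=
      measurable_of_countable _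
    exact h2.comp h1
  refine measurable_of_tendsto_metrizable hFm ?_
  rw [tendsto_pi_nhds]
  intro v
  by_cases hv : v ∈ cube ι
  · have hlim : Filter.Tendsto (fun n : ℕ => R * ((b:ℝ) ^ n)⁻¹) Filter.atTop (nhds 0) := by
      have h1 : Filter.Tendsto (fun n : ℕ => ((b:ℝ) ^ n)⁻¹) Filter.atTop (nhds 0) :=
        tendsto_inv_atTop_zero.comp (tendsto_pow_atTop_atTop_of_one_lt hb1)
      simpa using h1.const_mul R
    rw [tendsto_iff_norm_sub_tendsto_zero]
    refine squeeze_zero (fun _ => norm_nonneg _) (fun n => ?_) hlim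
    rw [hF]
    simp only
    rw [Set.indicator_of_mem hv]
    set z : ι → ℕ := fun i => ⌊(b:ℝ) ^ n * v i⌋₊ with hz
    have hz1 : ∀ i, (z i : ℝ) ≤ (b:ℝ) ^ n * v i := fun i =>
      Nat.floor_le (mul_nonneg (by positivity) (hv i).1)
    have hz2 : ∀ i, (b:ℝ) ^ n * v i < z i + 1 := fun i => Nat.lt_floor_add_one _
    have hz3 : ∀ i, z i < b ^ n := by
      intro i
      have h1 : (z i : ℝ) < (b:ℝ) ^ n :=
        (hz1 i).trans_lt (mul_lt_of_lt_one_right (by positivity) (hv i).2)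
      exact_mod_cast h1
    have hw : (fun i => (b:ℝ) ^ n * v i - z i) ∈ cube ι := fun i =>
      ⟨by linarith [hz1 i], by linarith [hz2 i]⟩
    have h1 := hR _ (h.closed_pow (by omega) n f hf z hz3) (fun i => (b:ℝ) ^ n * v i - z i)
    rw [zm_of_mem hw] at h1
    have h2 : ((b ^ n : ℕ) : ℝ)⁻¹ • (nv z + fun i => (b:ℝ) ^ n * v i - z i) = v := by
      funext i
      simp only [Pi.smul_apply, Pi.add_apply, nv, smul_eq_mul]
      push_cast
      field_simp
      ring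
    rw [h2, norm_smul, Real.norm_of_nonneg (by positivity)] at h1
    rw [norm_sub_rev]
    push_cast at h1 ⊢
    have h3 : (0:ℝ) < (b:ℝ) ^ n := by positivity
    rw [← div_eq_mul_inv, le_div_iff₀ h3]
    linarith
  · have : ∀ n, F n v = f v := by
      intro n
      rw [hF]
      simp only
      rw [Set.indicator_of_notMem hv, h.off f hf v hv]
    simp only [this]
    exact tendsto_const_nhds

end Pool.Agent.V7H68.MS
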